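import Pool.Agent.H90.Ocdc.Local

set_option autoImplicit false

namespace Pool.Agent.H90.Ocdc.Local

def rst {α : Type} (P : ℕ → α) : ℕ → α := mk6 (P 0) (P 1) (P 2) (P 3) (P 4) (P 5)

theorem allB_iff (f : Bool → Bool) : allB f = true ↔ ∀ b, f b = true := by
  unfold allB
  rw [Bool.and_eq_true]
  constructor
  · rintro ⟨h1, h2⟩ b
    cases b
    · exact h2
    · exact h1
  · intro h; exact ⟨h _, h _⟩

theorem all2_iff (f : B2 → Bool) : all2 f = true ↔ ∀ b, f b = true := by
  unfold all2
  simp only [allB_iff]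
  constructor
  · rintro h ⟨a, b⟩; exact h a b
  · intro h a b; exact h _

theorem allV_of (v : Bool) (f : Bool → Bool) (h : allV v f = true) (b : Bool) (hb : (!b || v) = true) :
    f b = true := by
  unfold allV at h
  cases v <;> cases b <;> simp_all

theorem anyV_of (v : Bool) (f : Bool → Bool) (h : anyV v f = true) :
    ∃ b, (!b || v) = true ∧ f b = true := by
  unfold anyV at h
  cases v
  · exact ⟨false, rfl, h⟩
  · simp only [cond_true, Bool.or_eq_true] at h
    rcases h with h | h
    · exact ⟨true, rfl, h⟩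
    · exact ⟨false, rfl, h⟩

theorem allZ_of (P : ℕ → B2) (c : B2) (f : (ℕ → Bool) → Bool) (h : allZ P c f = true) (Z : ℕ → Bool)
    (hs : sub P c Z = true) : f (rst Z) = true := by
  unfold allZ at h
  unfold sub at hs
  simp only [Bool.and_eq_true] at hs
  obtain ⟨h0, h1, h2, h3, h4, h5⟩ := hs
  exact allV_of _ _ (allV_of _ _ (allV_of _ _ (allV_of _ _ (allV_of _ _ (allV_of _ _ h _ h0) _ h1) _ h2)
    _ h3) _ h4) _ h5

theorem anyZ_of (P : ℕ → B2) (c : B2) (f : (ℕ → Bool) → Bool) (h : anyZ P c f = true) :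
    ∃ Z, sub P c Z = true ∧ f Z = true := by
  unfold anyZ at h
  obtain ⟨z0, h0, h⟩ := anyV_of _ _ h
  obtain ⟨z1, h1, h⟩ := anyV_of _ _ h
  obtain ⟨z2, h2, h⟩ := anyV_of _ _ h
  obtain ⟨z3, h3, h⟩ := anyV_of _ _ h
  obtain ⟨z4, h4, h⟩ := anyV_of _ _ h
  obtain ⟨z5, h5, h⟩ := anyV_of _ _ h
  refine ⟨_, ?_, h⟩
  unfold sub
  simp only [Bool.and_eq_true]
  exact ⟨h0, h1, h2, h3, h4, h5⟩

theorem allP_of (f : (ℕ → B2) → Bool) (h : allP f = true) (P : ℕ → B2)
    (h0 : P 5 = bx (P 0) (bx (P 1) (bx (P 2) (bx (P 3) (P 4))))) : f (rst P) = true := by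
  unfold allP at h
  simp only [all2_iff, f2_eq] at h
  have := h (P 0) (P 1) (P 2) (P 3) (P 4)
  unfold rst
  rw [h0]
  exact this

theorem exs_eq (P : ℕ → B2) (c : B2) (Z : ℕ → Bool) : exs P c Z = ext (sw P c Z) := by
  simp only [exs, swk, f2_eq]
  rfl

theorem allC_of (f : B2 → Bool) (h : allC f = true) (c : B2) (hc : c ≠ (false, false)) : f c = true := by
  unfold allC at h
  simp only [Bool.and_eq_true] at h
  obtain ⟨h1, h2, h3⟩ := h
  rcases c with ⟨a, b⟩
  cases a <;> cases b
  · exact absurd rfl hc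
  · exact h2
  · exact h1
  · exact h3

theorem anyC_of (f : B2 → Bool) (h : anyC f = true) : ∃ c, c ≠ (false, false) ∧ f c = true := by
  unfold anyC at h
  simp only [Bool.or_eq_true] at h
  rcases h with h | h | h
  · exact ⟨_, by decide, h⟩
  · exact ⟨_, by decide, h⟩
  · exact ⟨_, by decide, h⟩

def sum0 (P : ℕ → B2) : Prop := P 5 = bx (P 0) (bx (P 1) (bx (P 2) (bx (P 3) (P 4))))

theorem L1 (P : ℕ → B2) (h0 : sum0 P) (he : ext P = false) (hr : rk P = 0) (c : B2)
    (hc : c ≠ (false, false)) (Z : ℕ → Bool) (hs : sub P c Z = true) (hev : ev Z = true)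
    (hx : ext (sw P c Z) = false) (hm : mu P c Z = true) :
    ∃ w : ℕ → Bool, sub P c w = true ∧ ev w = true ∧
      (ext (sw P c w) = true ∨ ext (sw P c (zx w Z)) = true) ∧
      (ext (sw P c (zx w (vc P c))) = true ∨ ext (sw P c (zx w (zx (vc P c) Z))) = true) ∧
      ∀ S, sub P c S = true → ev S = true → ext (sw P c S) = false → ext (sw P c (zx S Z)) = false →
        ev (za w S) = true := by
  have h := allP_of _ l1_chk P h0
  unfold l1b at h
  rw [Bool.or_eq_true] at h
  rcases h with h | h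
  · have : ext (rst P) = ext P := rfl
    rw [this, he] at h; cases h
  rw [Bool.or_eq_true] at h
  rcases h with h | h
  · have : rk (rst P) = rk P := rfl
    rw [this, hr] at h; cases h
  have h := allC_of _ h c hc
  have h := allZ_of _ _ _ h Z hs
  rw [Bool.or_eq_true, Bool.or_eq_true, Bool.or_eq_true, exs_eq] at h
  rcases h with h | h | h | h
  · have : ev (rst Z) = ev Z := rfl
    rw [this, hev] at h; cases h
  · have : ext (sw (rst P) c (rst Z)) = ext (sw P c Z) := rfl
    rw [this, hx] at h; cases h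
  · have : mu (rst P) c (rst Z) = mu P c Z := rfl
    rw [this, hm] at h; cases h
  obtain ⟨w, hw, h⟩ := anyZ_of _ _ _ h
  simp only [Bool.and_eq_true, Bool.or_eq_true, exs_eq] at h
  obtain ⟨h1, h2, h3, h4⟩ := h
  refine ⟨w, hw, h1, ?_, ?_, ?_⟩
  · exact h2
  · exact h3
  · intro S hS hS1 hS2 hS3
    have h := allZ_of _ _ _ h4 S hS
    rw [Bool.or_eq_true, Bool.or_eq_true, Bool.or_eq_true] at h
    rcases h with h | h | h | h
    · have : ev (rst S) = ev S := rfl
      rw [this, hS1] at h; cases h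
    · have : ext (sw (rst P) c (rst S)) = ext (sw P c S) := rfl
      rw [this, hS2] at h; cases h
    · have : ext (sw (rst P) c (zx (rst S) (rst Z))) = ext (sw P c (zx S Z)) := rfl
      rw [this, hS3] at h; cases h
    · exact h

/-- `Z` is zero or `V_c` at the six positions -/
def Triv (P : ℕ → B2) (c : B2) (Z : ℕ → Bool) : Prop :=
  (∀ i < 6, Z i = false) ∨ (∀ i < 6, Z i = om c (P i))

theorem triv_iff (P : ℕ → B2) (c : B2) (Z : ℕ → Bool) : triv P c Z = true ↔ Triv P c Z := by
  have key : ∀ Z : ℕ → Bool, (pcn Z == 0) = true ↔ ∀ i < 6, Z i = false := by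
    intro Z
    rw [beq_iff_eq]
    unfold pcn
    constructor
    · intro h i hi
      have : ∀ b : Bool, b.toNat = 0 → b = false := by decide
      interval_cases i <;> apply this <;> omega
    · intro h
      rw [h 0 (by omega), h 1 (by omega), h 2 (by omega), h 3 (by omega), h 4 (by omega), h 5 (by omega)]
      rfl
  unfold triv Triv
  rw [Bool.or_eq_true, key, key]
  have : (∀ i < 6, zx Z (vc P c) i = false) ↔ (∀ i < 6, Z i = om c (P i)) := by
    refine forall_congr' fun i => forall_congr' fun _ => ?_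
    unfold zx vc
    cases Z i <;> cases om c (P i) <;> simp
  rw [this]

theorem L2 (P : ℕ → B2) (h0 : sum0 P) (he : ext P = false) (hr : rk P = 0) (c : B2)
    (hc : c ≠ (false, false)) :
    ext (sw P c (vc P c)) = false ∧ rk (sw P c (vc P c)) = 0 ∧
    ∃ t1 t2 : ℕ → Bool, sub P c t1 = true ∧ sub P c t2 = true ∧ ev t1 = true ∧ ev t2 = true ∧
      (∀ Z, sub P c Z = true → ev Z = true → ev (za t1 Z) = true → ev (za t2 Z) = true →
        ext (sw P c Z) = false → Triv P c Z) ∧
      (∀ a b e : Bool, ext (sw P c (fun i => xor (a && t1 i) (xor (b && t2 i) (e && om c (P i))))) = false →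
        Triv P c (fun i => xor (a && t1 i) (xor (b && t2 i) (e && om c (P i))))) := by
  have h := allP_of _ l2_chk P h0
  unfold l2b at h
  rw [Bool.or_eq_true] at h
  rcases h with h | h
  · have : ext (rst P) = ext P := rfl
    rw [this, he] at h; cases h
  rw [Bool.or_eq_true] at h
  rcases h with h | h
  · have : rk (rst P) = rk P := rfl
    rw [this, hr] at h; cases h
  have h := allC_of _ h c hc
  simp only [Bool.and_eq_true, swk, f2_eq, exs_eq, List.any_eq_true] at h
  obtain ⟨h1, h2, t, ht, h3⟩ := h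
  have e1 : ext (sw (rst P) c (vc (rst P) c)) = ext (sw P c (vc P c)) := rfl
  rw [e1] at h1
  have h2' : (rk (sw P c (vc P c)) == 0) = true := h2
  refine ⟨by simpa using h1, by simpa using h2', tb t.1, tb t.2, ?_⟩
  unfold frz at h3
  simp only [Bool.and_eq_true] at h3
  obtain ⟨h4, h5, h6, h7, h8, h9⟩ := h3
  refine ⟨h4, h5, h6, h7, ?_, ?_⟩
  · intro Z hZ1 hZ2 hZ3 hZ4 hZ5
    have h := allZ_of _ _ _ h8 Z hZ1
    rw [Bool.or_eq_true, Bool.or_eq_true, Bool.or_eq_true, Bool.or_eq_true, exs_eq] at h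
    rcases h with h | h | h | h | h
    · have : ev (rst Z) = ev Z := rfl
      rw [this, hZ2] at h; cases h
    · have : ev (za (tb t.1) (rst Z)) = ev (za (tb t.1) Z) := rfl
      rw [this, hZ3] at h; cases h
    · have : ev (za (tb t.2) (rst Z)) = ev (za (tb t.2) Z) := rfl
      rw [this, hZ4] at h; cases h
    · have : triv (rst P) c (rst Z) = triv P c Z := rfl
      rw [this, triv_iff] at h; exact h
    · have : ext (sw (rst P) c (rst Z)) = ext (sw P c Z) := rfl
      rw [this, hZ5] at h; cases h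
  · intro a b e hZ
    simp only [allB_iff, Bool.or_eq_true, exs_eq] at h9
    rcases h9 a b e with h | h
    · rw [← triv_iff]; exact h
    · have : ext (sw (rst P) c (fun i => xor (a && tb t.1 i) (xor (b && tb t.2 i) (e && vc (rst P) c i))))
        = ext (sw P c (fun i => xor (a && tb t.1 i) (xor (b && tb t.2 i) (e && om c (P i))))) := rfl
      rw [this, hZ] at h; cases h

theorem L3 (P : ℕ → B2) (h0 : sum0 P) (he : ext P = false) (hr : rk P ≠ 0) :
    ∃ c : B2, c ≠ (false, false) ∧ 4 ≤ pcn (vc P c) ∧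
      ∀ Z, sub P c Z = true → ev Z = true → ext (sw P c Z) = false → ¬ Triv P c Z →
        rk (sw P c Z) < rk P := by
  have h := allP_of _ l3_chk P h0
  unfold l3b at h
  rw [Bool.or_eq_true] at h
  rcases h with h | h
  · have : ext (rst P) = ext P := rfl
    rw [this, he] at h; cases h
  rw [Bool.or_eq_true] at h
  rcases h with h | h
  · have : rk (rst P) = rk P := rfl
    rw [this] at h
    exact absurd (by simpa using h) hr
  obtain ⟨c, hc, h⟩ := anyC_of _ h
  simp only [Bool.and_eq_true] at h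
  obtain ⟨h1, h2⟩ := h
  refine ⟨c, hc, ?_, ?_⟩
  · exact Nat.le_of_ble_eq_true h1
  · intro Z hZ1 hZ2 hZ3 hZ4
    have h := allZ_of _ _ _ h2 Z hZ1
    rw [Bool.or_eq_true, Bool.or_eq_true, Bool.or_eq_true, exs_eq] at h
    rcases h with h | h | h | h
    · have : ev (rst Z) = ev Z := rfl
      rw [this, hZ2] at h; cases h
    · have : triv (rst P) c (rst Z) = triv P c Z := rfl
      rw [this, triv_iff] at h; exact absurd h hZ4
    · have : ext (sw (rst P) c (rst Z)) = ext (sw P c Z) := rfl
      rw [this, hZ3] at h; cases h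
    · simp only [swk, f2_eq] at h
      have : Nat.blt (rk (sw P c Z)) (rk P) = true := h
      rw [Nat.blt_eq] at this
      exact this

theorem cond_le2 (b : Bool) (x y : ℕ) (hx : x ≤ 2) (hy : y ≤ 2) : (bif b then x else y) ≤ 2 := by
  cases b
  · exact hy
  · exact hx

theorem rk_le (P : ℕ → B2) : rk P ≤ 2 := by
  unfold rk
  simp only []
  exact cond_le2 _ _ _ (by omega) (cond_le2 _ _ _ (by omega) (cond_le2 _ _ _ (by omega)
    (cond_le2 _ _ _ (by omega) (by omega))))

end Pool.Agent.H90.Ocdc.Local
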