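import Pool.Agent.H90.Ocdc.Lin

set_option autoImplicit false
open scoped Classical

namespace Pool.Agent.H90.Ocdc

theorem f2_move {a b c : F2} (h : a + b = c) : a = b + c := by
  revert a b c; decide

/-- half sums -/
theorem half_sum {X : Type} (D : Finset X) (i : X → X) (hi : ∀ d ∈ D, i d ∈ D) (hii : ∀ d ∈ D, i (i d) = d)
    (hne : ∀ d ∈ D, i d ≠ d) (a : X → F2) :
    Even (D.filter (fun d => a d + a (i d) = 1)).card ∧
      ∑ d ∈ D, a d = (((D.filter (fun d => a d + a (i d) = 1)).card / 2 : ℕ) : F2) := by
  obtain ⟨n, hn⟩ : ∃ n, D.card = n := ⟨_, rfl⟩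
  induction n using Nat.strong_induction_on generalizing D with
  | _ n ih =>
    rcases Finset.eq_empty_or_nonempty D with rfl | ⟨x, hx⟩
    · simp
    have hix := hi x hx
    have hne' := hne x hx
    set D' := (D.erase x).erase (i x) with hD'
    have hm1 : i x ∈ D.erase x := Finset.mem_erase.2 ⟨hne', hix⟩
    have mem' : ∀ d, d ∈ D' ↔ d ≠ i x ∧ d ≠ x ∧ d ∈ D := by
      intro d; rw [hD', Finset.mem_erase, Finset.mem_erase]
    have hc1 : (D.erase x).card + 1 = D.card := Finset.card_erase_add_one hx
    have hc2 : D'.card + 1 = (D.erase x).card := Finset.card_erase_add_one hm1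
    have ih' := ih D'.card (by omega) D' (by
        intro d hd
        rw [mem'] at hd ⊢
        refine ⟨?_, ?_, hi d hd.2.2⟩
        · intro h
          apply hd.2.1
          rw [← hii d hd.2.2, h, hii x hx]
        · intro h
          apply hd.1
          rw [← hii d hd.2.2, h]) (by
        intro d hd
        rw [mem'] at hd
        exact hii d hd.2.2) (by
        intro d hd
        rw [mem'] at hd
        exact hne d hd.2.2) rfl
    have hD : D = insert x (insert (i x) D') := by
      ext d
      rw [Finset.mem_insert, Finset.mem_insert, mem']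
      constructor
      · intro h
        by_cases h1 : d = x
        · exact Or.inl h1
        · by_cases h2 : d = i x
          · exact Or.inr (Or.inl h2)
          · exact Or.inr (Or.inr ⟨h2, h1, h⟩)
      · rintro (h | h | h)
        · rw [h]; exact hx
        · rw [h]; exact hix
        · exact h.2.2
    have hn1 : i x ∉ D' := by rw [mem']; tauto
    have hn2 : x ∉ insert (i x) D' := by
      rw [Finset.mem_insert, mem']
      rintro (h | h)
      · exact hne' h.symm
      · exact h.2.1 rfl
    have hsum : ∑ d ∈ D, a d = a x + (a (i x) + ∑ d ∈ D', a d) := by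
      rw [hD, Finset.sum_insert hn2, Finset.sum_insert hn1]
    have hcard : (D.filter (fun d => a d + a (i d) = 1)).card =
        (if a x + a (i x) = 1 then 2 else 0) + (D'.filter (fun d => a d + a (i d) = 1)).card := by
      rw [hD, Finset.filter_insert, Finset.filter_insert, hii x hx, add_comm (a (i x)) (a x)]
      split_ifs with h
      · rw [Finset.card_insert_of_notMem, Finset.card_insert_of_notMem]
        · omega
        · intro h'; exact hn1 (Finset.mem_of_mem_filter _ h')
        · rw [Finset.mem_insert]
          rintro (h' | h')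
          · exact hne' h'.symm
          · exact hn2 (Finset.mem_insert_of_mem (Finset.mem_of_mem_filter _ h'))
      · rw [zero_add]
    rw [hsum, hcard]
    obtain ⟨ih1, ih2⟩ := ih'
    split_ifs with h
    · refine ⟨?_, ?_⟩
      · obtain ⟨k, hk⟩ := ih1
        exact ⟨k + 1, by omega⟩
      · rw [ih2, ← add_assoc, h, show (2 + (D'.filter (fun d => a d + a (i d) = 1)).card) / 2
          = 1 + (D'.filter (fun d => a d + a (i d) = 1)).card / 2 by omega]
        push_cast
        rfl
    · refine ⟨by rw [zero_add]; exact ih1, ?_⟩
      rw [ih2, ← add_assoc, f2_ne_one h, zero_add, zero_add]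

section ori
variable {V : Type} [Fintype V] {h : V → V → Prop} {t : V → V → V} {fx : V → V}

theorem orient (hT : Trans h t fx) (rep : V → V) (idx : V → F2) :
    (∃ (o : V → V → F2) (y : V → F2), (∀ v u, h v u → o v u + o u v = 1) ∧
      (∀ v u, h v u → t v u ≠ u → o v u + o v (t v u) = 1) ∧
      (∀ v, Odd (dg h v) → o v (fx v) = y (rep v) + idx v)) ∨
    (∃ z, IsZ h t z ∧ (∀ r, ∑ v ∈ Finset.univ.filter (fun v => rep v = r), zeta z v = 0) ∧
      (((Finset.univ.filter (fun v => zeta z v = 1)).card / 2 : ℕ) : F2) + ∑ v, zeta z v * idx v = 1) := by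
  let L : ((V × V) ⊕ V → F2) →ₗ[F2] ((V × V) ⊕ ((V × V) ⊕ V) → F2) :=
    { toFun := fun y => Sum.elim
        (fun d => (if h d.1 d.2 then (1 : F2) else 0) * (y (Sum.inl d) + y (Sum.inl (d.2, d.1))))
        (Sum.elim (fun d => (if h d.1 d.2 ∧ t d.1 d.2 ≠ d.2 then (1 : F2) else 0) *
            (y (Sum.inl d) + y (Sum.inl (d.1, t d.1 d.2))))
          (fun v => pp h v * (y (Sum.inl (v, fx v)) + y (Sum.inr (rep v)))))
      map_add' := by
        intro x y
        ext j
        rcases j with d | d | v
        · simp only [Sum.elim_inl, Pi.add_apply]; ring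
        · simp only [Sum.elim_inl, Sum.elim_inr, Pi.add_apply]; ring
        · simp only [Sum.elim_inr, Pi.add_apply]; ring
      map_smul' := by
        intro r y
        ext j
        rcases j with d | d | v
        · simp only [Sum.elim_inl, Pi.smul_apply, smul_eq_mul, RingHom.id_apply]; ring
        · simp only [Sum.elim_inl, Sum.elim_inr, Pi.smul_apply, smul_eq_mul, RingHom.id_apply]; ring
        · simp only [Sum.elim_inr, Pi.smul_apply, smul_eq_mul, RingHom.id_apply]; ring }
  have hL1 : ∀ y d, L y (Sum.inl d) =
      (if h d.1 d.2 then (1 : F2) else 0) * (y (Sum.inl d) + y (Sum.inl (d.2, d.1))) := fun _ _ => rfl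
  have hL2 : ∀ y d, L y (Sum.inr (Sum.inl d)) =
      (if h d.1 d.2 ∧ t d.1 d.2 ≠ d.2 then (1 : F2) else 0) *
            (y (Sum.inl d) + y (Sum.inl (d.1, t d.1 d.2))) := fun _ _ => rfl
  have hL3 : ∀ y v, L y (Sum.inr (Sum.inr v)) = pp h v * (y (Sum.inl (v, fx v)) + y (Sum.inr (rep v))) :=
    fun _ _ => rfl
  rcases fredholm L (Sum.elim (fun d => if h d.1 d.2 then (1 : F2) else 0)
      (Sum.elim (fun d => if h d.1 d.2 ∧ t d.1 d.2 ≠ d.2 then (1 : F2) else 0) (fun v => pp h v * idx v)))
    with ⟨y, hy⟩ | ⟨a, ha1, ha2⟩
  · left
    refine ⟨fun v u => y (Sum.inl (v, u)), fun v => y (Sum.inr v), ?_, ?_, ?_⟩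
    · intro v u hvu
      have := congrFun hy (Sum.inl (v, u))
      rw [hL1] at this
      simpa only [if_pos hvu, one_mul, Sum.elim_inl] using this
    · intro v u hvu htu
      have := congrFun hy (Sum.inr (Sum.inl (v, u)))
      rw [hL2] at this
      have hc : h v u ∧ t v u ≠ u := ⟨hvu, htu⟩
      simpa only [if_pos hc, one_mul, Sum.elim_inl, Sum.elim_inr] using this
    · intro v ho
      have := congrFun hy (Sum.inr (Sum.inr v))
      rw [hL3] at this
      have hp : pp h v = 1 := by unfold pp; rw [if_pos ho]
      simp only [hp, one_mul, Sum.elim_inr] at this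
      exact f2_move this
  · right
    simp only [Fintype.sum_sum_type, Sum.elim_inl, Sum.elim_inr] at ha2
    have hco : ∀ e : (V × V) ⊕ V, Sum.elim (fun d : V × V => a (Sum.inl d) * (if h d.1 d.2 then (1 : F2) else 0)
        + a (Sum.inl (d.2, d.1)) * (if h d.2 d.1 then (1 : F2) else 0)
        + a (Sum.inr (Sum.inl d)) * (if h d.1 d.2 ∧ t d.1 d.2 ≠ d.2 then (1 : F2) else 0)
        + a (Sum.inr (Sum.inl (d.1, t d.1 d.2))) * (if h d.1 d.2 ∧ t d.1 d.2 ≠ d.2 then (1 : F2) else 0)
        + (if d.2 = fx d.1 then pp h d.1 * a (Sum.inr (Sum.inr d.1)) else 0))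
        (fun r => ∑ v, if rep v = r then pp h v * a (Sum.inr (Sum.inr v)) else 0) e = 0 := by
      apply coef_zero
      intro y
      have h1 := ha1 y
      simp only [Fintype.sum_sum_type, hL1, hL2, hL3] at h1
      refine Eq.trans ?_ h1
      rw [Fintype.sum_sum_type]
      simp only [Sum.elim_inl, Sum.elim_inr]
      have e1 : ∑ d : V × V, a (Sum.inl d) * ((if h d.1 d.2 then (1 : F2) else 0) * (y (Sum.inl d) + y (Sum.inl (d.2, d.1))))
          = ∑ d : V × V, (a (Sum.inl d) * (if h d.1 d.2 then (1 : F2) else 0)
        + a (Sum.inl (d.2, d.1)) * (if h d.2 d.1 then (1 : F2) else 0)) * y (Sum.inl d) := by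
        have : ∑ d : V × V, a (Sum.inl d) * ((if h d.1 d.2 then (1 : F2) else 0) * y (Sum.inl (d.2, d.1)))
          = ∑ d : V × V, a (Sum.inl (d.2, d.1)) * ((if h d.2 d.1 then (1 : F2) else 0) * y (Sum.inl d)) := by
          rw [sum_swap]
        simp only [mul_add, add_mul, Finset.sum_add_distrib, this]
        congr 1
        · apply Finset.sum_congr rfl; intro d _; ring
        · apply Finset.sum_congr rfl; intro d _; ring
      have e2 : ∑ d : V × V, a (Sum.inr (Sum.inl d)) * ((if h d.1 d.2 ∧ t d.1 d.2 ≠ d.2 then (1 : F2) else 0) * (y (Sum.inl d) + y (Sum.inl (d.1, t d.1 d.2))))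
          = ∑ d : V × V, (a (Sum.inr (Sum.inl d)) * (if h d.1 d.2 ∧ t d.1 d.2 ≠ d.2 then (1 : F2) else 0)
        + a (Sum.inr (Sum.inl (d.1, t d.1 d.2))) * (if h d.1 d.2 ∧ t d.1 d.2 ≠ d.2 then (1 : F2) else 0)) * y (Sum.inl d) := by
        have : ∑ d : V × V, a (Sum.inr (Sum.inl d)) * ((if h d.1 d.2 ∧ t d.1 d.2 ≠ d.2 then (1 : F2) else 0) * y (Sum.inl (d.1, t d.1 d.2)))
          = ∑ d : V × V, a (Sum.inr (Sum.inl (d.1, t d.1 d.2))) * ((if h d.1 d.2 ∧ t d.1 d.2 ≠ d.2 then (1 : F2) else 0) * y (Sum.inl d)) := by
          rw [sum_tau hT]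
          apply Finset.sum_congr rfl
          intro d _
          have : (h d.1 (t d.1 d.2) ∧ d.2 ≠ t d.1 d.2) ↔ (h d.1 d.2 ∧ t d.1 d.2 ≠ d.2) := by
            rw [h_tau hT]; tauto
          simp only [hT.inv, this]
        simp only [mul_add, add_mul, Finset.sum_add_distrib, this]
        congr 1
        · apply Finset.sum_congr rfl; intro d _; ring
        · apply Finset.sum_congr rfl; intro d _; ring
      have e3 : ∑ v, a (Sum.inr (Sum.inr v)) * (pp h v * (y (Sum.inl (v, fx v)) + y (Sum.inr (rep v))))
          = ∑ d : V × V, (if d.2 = fx d.1 then pp h d.1 * a (Sum.inr (Sum.inr d.1)) else 0) * y (Sum.inl d)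
          + ∑ r, (∑ v, if rep v = r then pp h v * a (Sum.inr (Sum.inr v)) else 0) * y (Sum.inr r) := by
        have q1 := sum_fx (fx := fx) (fun v => pp h v * a (Sum.inr (Sum.inr v))) (fun d => y (Sum.inl d))
        rw [← q1]
        have q2 : ∑ r, (∑ v, if rep v = r then pp h v * a (Sum.inr (Sum.inr v)) else 0) * y (Sum.inr r)
            = ∑ v, pp h v * a (Sum.inr (Sum.inr v)) * y (Sum.inr (rep v)) := by
          simp only [Finset.sum_mul]
          rw [Finset.sum_comm]
          apply Finset.sum_congr rfl
          intro v _
          rw [Finset.sum_eq_single (rep v)]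
          · rw [if_pos rfl]
          · intro b _ hb
            rw [if_neg (fun h => hb h.symm), zero_mul]
          · intro h; exact absurd (Finset.mem_univ _) h
        rw [q2, ← Finset.sum_add_distrib]
        apply Finset.sum_congr rfl
        intro v _; ring
      rw [e1, e2, e3, ← add_assoc, ← add_assoc, ← Finset.sum_add_distrib, ← Finset.sum_add_distrib]
      congr 1
      apply Finset.sum_congr rfl
      intro d _; ring
    have hco1 : ∀ v u, h v u → (a (Sum.inl (v, u)) + a (Sum.inl (u, v))) +
        (if t v u ≠ u then a (Sum.inr (Sum.inl (v, u))) + a (Sum.inr (Sum.inl (v, t v u))) else 0)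
        + (if u = fx v then pp h v * a (Sum.inr (Sum.inr v)) else 0) = 0 := by
      intro v u hvu
      have := hco (Sum.inl (v, u))
      simp only [Sum.elim_inl, if_pos hvu, if_pos (hT.symm _ _ hvu), mul_one] at this
      by_cases htu : t v u ≠ u
      · have hc : h v u ∧ t v u ≠ u := ⟨hvu, htu⟩
        rw [if_pos hc, mul_one, mul_one] at this
        rw [if_pos htu, ← add_assoc]
        exact this
      · have hc : ¬ (h v u ∧ t v u ≠ u) := fun h => htu h.2
        rw [if_neg hc, mul_zero, mul_zero, add_zero, add_zero] at this
        rw [if_neg htu, add_zero]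
        exact this
    let z : V → V → F2 := fun v u => if h v u then a (Sum.inl (v, u)) + a (Sum.inl (u, v)) else 0
    have hz : IsZ h t z := by
      refine ⟨?_, ?_, ?_⟩
      · intro v u hn; simp only [z, if_neg hn]
      · intro v u
        simp only [z]
        by_cases hvu : h v u
        · rw [if_pos hvu, if_pos (hT.symm _ _ hvu), add_comm]
        · rw [if_neg hvu, if_neg (fun h' => hvu (hT.symm _ _ h'))]
      · intro v u hvu
        have hvu' := hT.pres _ _ hvu
        by_cases htu : t v u = u
        · rw [htu]
        · simp only [z]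
          rw [if_pos hvu, if_pos hvu']
          have h1 := hco1 v u hvu
          have h2 := hco1 v _ hvu'
          have nf : ∀ x, h v x → t v x ≠ x → x = fx v → pp h v = 0 := by
            intro x hx htx hxf
            unfold pp
            rw [if_neg]
            intro ho
            exact htx ((hT.fix v x hx).2 ⟨ho, hxf⟩)
          have htu' : t v (t v u) ≠ t v u := by rw [hT.inv]; exact fun h => htu h.symm
          have z1 : (if u = fx v then pp h v * a (Sum.inr (Sum.inr v)) else 0) = 0 := by
            split_ifs with h5
            · rw [nf u hvu htu h5, zero_mul]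
            · rfl
          have z2 : (if t v u = fx v then pp h v * a (Sum.inr (Sum.inr v)) else 0) = 0 := by
            split_ifs with h5
            · rw [nf _ hvu' htu' h5, zero_mul]
            · rfl
          rw [z1, if_pos htu] at h1
          rw [z2, if_pos htu', hT.inv] at h2
          generalize a (Sum.inl (v, u)) = x1 at *
          generalize a (Sum.inl (u, v)) = x2 at *
          generalize a (Sum.inl (v, t v u)) = x3 at *
          generalize a (Sum.inl (t v u, v)) = x4 at *
          generalize a (Sum.inr (Sum.inl (v, u))) = x5 at *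
          generalize a (Sum.inr (Sum.inl (v, t v u))) = x6 at *
          clear z1 z2 hco hco1 ha1 ha2 z
          revert x1 x2 x3 x4 x5 x6
          decide
    have hzeta : ∀ v, zeta z v = pp h v * a (Sum.inr (Sum.inr v)) := by
      intro v
      rw [zeta_eq hT hz v]
      unfold pp
      by_cases ho : Odd (dg h v)
      · rw [if_pos ho, if_pos ho, one_mul]
        have hm := hT.fixmem v ho
        simp only [z]
        rw [if_pos hm]
        have h1 := hco1 v (fx v) hm
        have hf : t v (fx v) = fx v := (hT.fix v _ hm).2 ⟨ho, rfl⟩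
        have hp : pp h v = 1 := by unfold pp; rw [if_pos ho]
        rw [if_neg (by simp [hf]), if_pos rfl, hp, one_mul, add_zero] at h1
        exact f2_eq_of_add h1
      · rw [if_neg ho, if_neg ho, zero_mul]
    refine ⟨z, hz, ?_, ?_⟩
    · intro r
      have := hco (Sum.inr r)
      simp only [Sum.elim_inr] at this
      rw [Finset.sum_filter]
      refine Eq.trans ?_ this
      apply Finset.sum_congr rfl
      intro v _
      rw [hzeta]
    · -- the count
      have s1 := half_sum (Finset.univ.filter (fun d : V × V => h d.1 d.2)) (fun d => (d.2, d.1))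
        (by
          intro d hd
          rw [Finset.mem_filter] at hd ⊢
          exact ⟨Finset.mem_univ _, hT.symm _ _ hd.2⟩)
        (by intro d _; rfl)
        (by
          intro d hd
          rw [Finset.mem_filter] at hd
          intro h5
          have h6 : d.2 = d.1 := congrArg Prod.fst h5
          have h7 := hd.2
          rw [h6] at h7
          exact hT.irr _ h7) (fun d => a (Sum.inl d))
      have s2 := half_sum (Finset.univ.filter (fun d : V × V => h d.1 d.2 ∧ t d.1 d.2 ≠ d.2))
        (fun d => (d.1, t d.1 d.2))
        (by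
          intro d hd
          rw [Finset.mem_filter] at hd ⊢
          refine ⟨Finset.mem_univ _, hT.pres _ _ hd.2.1, ?_⟩
          simp only [hT.inv]
          exact fun h => hd.2.2 h.symm)
        (by intro d _; simp only [hT.inv])
        (by
          intro d hd
          rw [Finset.mem_filter] at hd
          intro h5
          exact hd.2.2 (congrArg Prod.snd h5)) (fun d => a (Sum.inr (Sum.inl d)))
      -- first filter
      have f1 : (Finset.univ.filter (fun d : V × V => h d.1 d.2)).filter
          (fun d => a (Sum.inl d) + a (Sum.inl (d.2, d.1)) = 1) = Finset.univ.filter (fun d : V × V => z d.1 d.2 = 1) := by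
        ext d
        simp only [Finset.mem_filter, Finset.mem_univ, true_and, z]
        by_cases hd : h d.1 d.2
        · simp [hd]
        · simp [hd]
      have f2 : (Finset.univ.filter (fun d : V × V => h d.1 d.2 ∧ t d.1 d.2 ≠ d.2)).filter
          (fun d => a (Sum.inr (Sum.inl d)) + a (Sum.inr (Sum.inl (d.1, t d.1 d.2))) = 1)
          = Finset.univ.filter (fun d : V × V => z d.1 d.2 = 1 ∧ t d.1 d.2 ≠ d.2) := by
        ext d
        simp only [Finset.mem_filter, Finset.mem_univ, true_and]
        by_cases hd : h d.1 d.2 ∧ t d.1 d.2 ≠ d.2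
        · have h1 := hco1 d.1 d.2 hd.1
          have z1 : (if d.2 = fx d.1 then pp h d.1 * a (Sum.inr (Sum.inr d.1)) else 0) = 0 := by
            split_ifs with h5
            · have : pp h d.1 = 0 := by
                unfold pp
                rw [if_neg]
                intro ho
                exact hd.2 ((hT.fix d.1 d.2 hd.1).2 ⟨ho, h5⟩)
              rw [this, zero_mul]
            · rfl
          rw [z1, if_pos hd.2, add_zero] at h1
          have h2 := f2_eq_of_add h1
          simp only [z, if_pos hd.1]
          rw [h2]
          have := hd.1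
          have := hd.2
          tauto
        · have : z d.1 d.2 = 1 → h d.1 d.2 := by
            intro h5
            by_contra h6
            rw [hz.supp _ _ h6] at h5
            exact absurd h5 (by decide)
          tauto
      have f3 : (Finset.univ.filter (fun d : V × V => z d.1 d.2 = 1)).card =
          (Finset.univ.filter (fun d : V × V => z d.1 d.2 = 1 ∧ t d.1 d.2 ≠ d.2)).card +
          (Finset.univ.filter (fun v : V => zeta z v = 1)).card := by
        have : Finset.univ.filter (fun d : V × V => z d.1 d.2 = 1) =
            (Finset.univ.filter (fun d : V × V => z d.1 d.2 = 1 ∧ t d.1 d.2 ≠ d.2)) ∪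
            ((Finset.univ.filter (fun v : V => zeta z v = 1)).image (fun v => (v, fx v))) := by
          ext d
          simp only [Finset.mem_filter, Finset.mem_univ, true_and, Finset.mem_union, Finset.mem_image]
          constructor
          · intro h5
            by_cases h6 : t d.1 d.2 = d.2
            · right
              have h7 : h d.1 d.2 := by
                by_contra h6
                rw [hz.supp _ _ h6] at h5
                exact absurd h5 (by decide)
              have h8 := (hT.fix _ _ h7).1 h6
              refine ⟨d.1, ?_, ?_⟩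
              · rw [zeta_eq hT hz, if_pos h8.1, ← h8.2]; exact h5
              · rw [← h8.2]
            · left; exact ⟨h5, h6⟩
          · rintro (h5 | ⟨v, h5, rfl⟩)
            · exact h5.1
            · rw [zeta_eq hT hz] at h5
              split_ifs at h5 with h6
              · exact h5
              · exact absurd h5 (by decide)
        rw [this, Finset.card_union_of_disjoint, Finset.card_image_of_injective]
        · intro x y hxy
          exact congrArg Prod.fst hxy
        · rw [Finset.disjoint_left]
          rintro d hd1 hd2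
          simp only [Finset.mem_filter, Finset.mem_univ, true_and, Finset.mem_image] at hd1 hd2
          obtain ⟨v, h5, rfl⟩ := hd2
          rw [zeta_eq hT hz] at h5
          split_ifs at h5 with h6
          · exact hd1.2 ((hT.fix _ _ (hT.fixmem v h6)).2 ⟨h6, rfl⟩)
          · exact absurd h5 (by decide)
      rw [f1] at s1
      rw [f2] at s2
      have g1 : ∑ d : V × V, a (Sum.inl d) * (if h d.1 d.2 then (1 : F2) else 0)
          = ∑ d ∈ Finset.univ.filter (fun d : V × V => h d.1 d.2), a (Sum.inl d) := by
        rw [Finset.sum_filter]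
        apply Finset.sum_congr rfl
        intro d _
        split_ifs
        · rw [mul_one]
        · rw [mul_zero]
      have g2 : ∑ d : V × V, a (Sum.inr (Sum.inl d)) * (if h d.1 d.2 ∧ t d.1 d.2 ≠ d.2 then (1 : F2) else 0)
          = ∑ d ∈ Finset.univ.filter (fun d : V × V => h d.1 d.2 ∧ t d.1 d.2 ≠ d.2), a (Sum.inr (Sum.inl d)) := by
        rw [Finset.sum_filter]
        apply Finset.sum_congr rfl
        intro d _
        split_ifs
        · rw [mul_one]
        · rw [mul_zero]
      have g3 : ∑ v, a (Sum.inr (Sum.inr v)) * (pp h v * idx v) = ∑ v, zeta z v * idx v := by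
        apply Finset.sum_congr rfl
        intro v _
        rw [hzeta]; ring
      rw [g1, g2, g3, s1.2, s2.2, ← add_assoc] at ha2
      refine Eq.trans ?_ ha2
      congr 1
      obtain ⟨k1, hk1⟩ := s1.1
      obtain ⟨k2, hk2⟩ := s2.1
      have hk3 : (Finset.univ.filter (fun v : V => zeta z v = 1)).card = 2 * (k1 - k2) := by omega
      have hle : k2 ≤ k1 := by omega
      rw [hk1, hk2, hk3, show (k1 + k1) / 2 = k1 by omega, show (k2 + k2) / 2 = k2 by omega,
        show 2 * (k1 - k2) / 2 = k1 - k2 by omega]
      rw [← Nat.cast_add, ZMod.natCast_eq_natCast_iff]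
      unfold Nat.ModEq
      omega

end ori

end Pool.Agent.H90.Ocdc
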