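import Pool.Agent.H90.Ocdc.Orbit
import Pool.Agent.H90.Ocdc.LocalProp
import Pool.Agent.H90.Ocdc.Ori

set_option autoImplicit false
set_option linter.unusedSectionVars false
open scoped Classical

namespace Pool.Agent.H90.Ocdc

open Equiv (Perm)
open Local

abbrev K := ZMod 2 × ZMod 2

/-- Boolean code of a colour -/
def bb (x : K) : B2 := (decide (x.1 = 1), decide (x.2 = 1))

/-- the symplectic form -/
def wf (c x : K) : F2 := c.1 * x.2 + c.2 * x.1

theorem bb_add (x y : K) : bb (x + y) = bx (bb x) (bb y) := by
  revert x y; decide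
theorem bb_zero : bb 0 = (false, false) := by decide
theorem bb_eq_zero (x : K) : bb x = (false, false) ↔ x = 0 := by
  revert x; decide
theorem bb_inj (x y : K) (h : bb x = bb y) : x = y := by
  revert x y; decide
theorem om_bb (c x : K) : om (bb c) (bb x) = decide (wf c x = 1) := by
  revert c x; decide
theorem bb_surj (b : B2) : ∃ x, bb x = b := by
  revert b; decide
theorem bz_bb (x : K) : bz (bb x) = decide (x = 0) := by
  revert x; decide

theorem wf_add (c x y : K) : wf c (x + y) = wf c x + wf c y := by
  revert c x y; decide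
theorem wf_zero (c : K) : wf c 0 = 0 := by revert c; decide
theorem wf_sum {X : Type} (S : Finset X) (c : K) (f : X → K) :
    wf c (∑ u ∈ S, f u) = ∑ u ∈ S, wf c (f u) := by
  induction S using Finset.induction_on with
  | empty => simp [wf_zero]
  | insert a S ha ih => rw [Finset.sum_insert ha, Finset.sum_insert ha, wf_add, ih]
theorem wf_smul (c : K) (z : F2) (x : K) : wf c (x + z • c) = wf c x := by
  revert c z x; decide
theorem wf_ne (c x : K) (h : wf c x = 1) : x ≠ 0 ∧ x ≠ c := by
  revert c x; decide
theorem wf_ne' (c x : K) (h : wf c x = 1) : x + c ≠ 0 := by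
  revert c x; decide
theorem bb_smul (x c : K) (z : F2) : bb (x + z • c) = bif decide (z = 1) then bx (bb x) (bb c) else bb x := by
  revert x c z; decide

theorem xor_dec (x y : F2) : (xor (decide (x = 1)) (decide (y = 1))) = decide (x + y = 1) := by
  revert x y; decide
theorem and_dec (x y : F2) : (decide (x = 1) && decide (y = 1)) = decide (x * y = 1) := by
  revert x y; decide

section bridge
variable {V : Type} [Fintype V]

noncomputable def ss (f : V → V → K) (v : V) : K := ∑ u, f v u

/-- pattern around the orbit of `r` -/
noncomputable def pat (s : Perm V) (f : V → V → K) (r : V) : ℕ → B2 :=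
  fun i => if i < per s r then bb (ss f (it s r i)) else (false, false)

/-- mask of a function on the orbit -/
noncomputable def msk (s : Perm V) (z : V → F2) (r : V) : ℕ → Bool :=
  fun i => decide (i < per s r ∧ z (it s r i) = 1)

theorem pat_lt (s : Perm V) (f : V → V → K) (r : V) (i : ℕ) (h : i < per s r) :
    pat s f r i = bb (ss f (it s r i)) := by
  unfold pat; rw [if_pos h]

theorem pat_ge (s : Perm V) (f : V → V → K) (r : V) (i : ℕ) (h : ¬ i < per s r) :
    pat s f r i = (false, false) := by
  unfold pat; rw [if_neg h]

theorem om_pat (s : Perm V) (f : V → V → K) (r : V) (c : K) (i : ℕ) :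
    om (bb c) (pat s f r i) = decide (i < per s r ∧ wf c (ss f (it s r i)) = 1) := by
  by_cases h : i < per s r
  · rw [pat_lt s f r i h, om_bb]
    simp [h]
  · rw [pat_ge s f r i h]
    simp [h, om]

theorem bb_sum6 (P : ℕ → K) : bb (∑ i ∈ Finset.range 6, P i) =
    bx (bb (P 0)) (bx (bb (P 1)) (bx (bb (P 2)) (bx (bb (P 3)) (bx (bb (P 4)) (bb (P 5)))))) := by
  simp only [Finset.sum_range_succ, Finset.sum_range_zero, zero_add]
  generalize P 0 = a0
  generalize P 1 = a1
  generalize P 2 = a2
  generalize P 3 = a3
  generalize P 4 = a4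
  generalize P 5 = a5
  simp only [bb_add]
  generalize bb a0 = b0
  generalize bb a1 = b1
  generalize bb a2 = b2
  generalize bb a3 = b3
  generalize bb a4 = b4
  generalize bb a5 = b5
  unfold bx
  simp only [Bool.xor_assoc]

theorem bx_cancel (a b : B2) (h : bx a b = (false, false)) : b = a := by
  revert a b; decide

theorem sum0_pat (s : Perm V) (f : V → V → K) (r : V) (h6 : per s r ≤ 6)
    (h : ∑ w ∈ Finset.univ.filter (fun w => s.SameCycle r w), ss f w = 0) : sum0 (pat s f r) := by
  rw [sum_orbit, sum_range_six _ h6] at h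
  have h1 := congrArg bb h
  rw [bb_sum6, bb_zero] at h1
  have e : ∀ i, bb (if i < per s r then ss f (it s r i) else 0) = pat s f r i := by
    intro i
    unfold pat
    split_ifs
    · rfl
    · exact bb_zero
  simp only [e] at h1
  unfold sum0
  generalize pat s f r 0 = b0 at *
  generalize pat s f r 1 = b1 at *
  generalize pat s f r 2 = b2 at *
  generalize pat s f r 3 = b3 at *
  generalize pat s f r 4 = b4 at *
  generalize pat s f r 5 = b5 at *
  apply bx_cancel
  rw [← h1]
  unfold bx
  simp only [Bool.xor_assoc]

theorem pat_sw (s : Perm V) (f g : V → V → K) (z : V → F2) (c : K)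
    (h : ∀ v, ss g v = ss f v + z v • c) (r : V) :
    pat s g r = sw (pat s f r) (bb c) (msk s z r) := by
  funext i
  unfold sw msk
  by_cases hi : i < per s r
  · rw [pat_lt s g r i hi, pat_lt s f r i hi, h, bb_smul]
    simp [hi]
  · rw [pat_ge s g r i hi, pat_ge s f r i hi]
    simp [hi]

theorem sub_msk (s : Perm V) (f : V → V → K) (z : V → F2) (c : K) (r : V)
    (h : ∀ v, z v = 1 → wf c (ss f v) = 1) : sub (pat s f r) (bb c) (msk s z r) = true := by
  have key : ∀ i, (!(msk s z r i) || om (bb c) (pat s f r i)) = true := by
    intro i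
    rw [om_pat]
    unfold msk
    by_cases hi : i < per s r
    · by_cases hz : z (it s r i) = 1
      · simp [hi, hz, h _ hz]
      · simp [hz]
    · simp [hi]
  unfold sub
  simp only [key, Bool.and_self]

theorem dec_sum6 (P : ℕ → F2) : decide ((∑ i ∈ Finset.range 6, P i) = 1) =
    xor (decide (P 0 = 1)) (xor (decide (P 1 = 1)) (xor (decide (P 2 = 1)) (xor (decide (P 3 = 1))
      (xor (decide (P 4 = 1)) (decide (P 5 = 1)))))) := by
  simp only [Finset.sum_range_succ, Finset.sum_range_zero, zero_add, xor_dec, add_assoc]

theorem msk_eq (s : Perm V) (z : V → F2) (r : V) (i : ℕ) :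
    msk s z r i = decide ((if i < per s r then z (it s r i) else 0) = (1 : F2)) := by
  unfold msk
  by_cases hi : i < per s r
  · simp [hi]
  · simp [hi]

theorem ev_msk_iff (s : Perm V) (z : V → F2) (r : V) (h6 : per s r ≤ 6) :
    ev (msk s z r) = true ↔ ∑ w ∈ Finset.univ.filter (fun w => s.SameCycle r w), z w = 0 := by
  rw [sum_orbit, sum_range_six _ h6]
  unfold ev
  simp only [msk_eq]
  have e5 := dec_sum6 (fun i => if i < per s r then z (it s r i) else 0)
  beta_reduce at e5
  rw [← e5]
  rcases f2_cases (∑ i ∈ Finset.range 6, if i < per s r then z (it s r i) else 0) with h | h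
  · rw [h]; simp
  · rw [h]; simp

theorem ev_za_iff (s : Perm V) (z : V → F2) (r : V) (h6 : per s r ≤ 6) (t : ℕ → Bool) :
    ev (za t (msk s z r)) = true ↔
      ∑ i ∈ Finset.range (per s r), (if t i = true then z (it s r i) else 0) = 0 := by
  rw [sum_range_six _ h6]
  unfold ev za
  have e : ∀ i, (t i && msk s z r i) = decide ((if i < per s r then (if t i = true then z (it s r i) else 0) else 0) = (1 : F2)) := by
    intro i
    rw [msk_eq]
    by_cases hi : i < per s r
    · by_cases ht : t i = true
      · simp [hi, ht]
      · simp [hi, ht]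
    · simp [hi]
  simp only [e]
  have e5 := dec_sum6 (fun i => if i < per s r then (if t i = true then z (it s r i) else 0) else 0)
  beta_reduce at e5
  rw [← e5]
  rcases f2_cases (∑ i ∈ Finset.range 6, if i < per s r then (if t i = true then z (it s r i) else 0) else 0) with h | h
  · rw [h]; simp
  · rw [h]; simp

theorem card_filter_range (P : ℕ → Bool) :
    ((Finset.range 6).filter (fun i => P i = true)).card = pcn P := by
  rw [Finset.card_filter]
  simp only [Finset.sum_range_succ, Finset.sum_range_zero, zero_add]
  unfold pcn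
  have : ∀ b : Bool, (if b = true then 1 else 0) = b.toNat := by decide
  simp only [this]
  omega

theorem card_msk (s : Perm V) (z : V → F2) (r : V) (h6 : per s r ≤ 6) :
    (Finset.univ.filter (fun w => s.SameCycle r w ∧ z w = 1)).card = pcn (msk s z r) := by
  rw [← card_filter_range]
  symm
  apply Finset.card_bij (fun i _ => it s r i)
  · intro i hi
    rw [Finset.mem_filter] at hi ⊢
    unfold msk at hi
    rw [decide_eq_true_eq] at hi
    exact ⟨Finset.mem_univ _, same_it s r i, hi.2.2⟩
  · intro i hi j hj h
    rw [Finset.mem_filter] at hi hj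
    unfold msk at hi hj
    rw [decide_eq_true_eq] at hi hj
    exact it_inj s r i j hi.2.1 hj.2.1 h
  · intro v hv
    rw [Finset.mem_filter] at hv
    obtain ⟨i, hi, h⟩ := exists_it s r v hv.2.1
    refine ⟨i, ?_, h⟩
    rw [Finset.mem_filter, Finset.mem_range]
    unfold msk
    rw [decide_eq_true_eq, h]
    exact ⟨by omega, hi, hv.2.2⟩

/-- the parity index -/
noncomputable def idx (s : Perm V) (f : V → V → K) (c : K) (v : V) : F2 :=
  cum s (fun u => wf c (ss f u)) (rep s v) v

theorem mu_msk (s : Perm V) (f : V → V → K) (z : V → F2) (c : K) (r : V) (hr : rep s r = r)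
    (h6 : per s r ≤ 6) (hm : mu (pat s f r) (bb c) (msk s z r) = false) :
    (((Finset.univ.filter (fun w => s.SameCycle r w ∧ z w = 1)).card / 2 : ℕ) : F2)
      + ∑ w ∈ Finset.univ.filter (fun w => s.SameCycle r w), z w * idx s f c w = 0 := by
  rw [card_msk s z r h6, sum_orbit, sum_range_six _ h6]
  have hidx : ∀ i, i < per s r → idx s f c (it s r i) = ∑ j ∈ Finset.range i, wf c (ss f (it s r j)) := by
    intro i hi
    unfold idx cum
    rw [rep_it, hr, ix_it s r i hi]
  have e1 : ∀ i, i < 6 → (if i < per s r then z (it s r i) * idx s f c (it s r i) else 0) =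
      (if i < per s r then z (it s r i) else 0) *
        ∑ j ∈ Finset.range i, (if j < per s r then wf c (ss f (it s r j)) else 0) := by
    intro i _
    by_cases hi : i < per s r
    · rw [if_pos hi, if_pos hi, hidx i hi]
      congr 1
      apply Finset.sum_congr rfl
      intro j hj
      rw [Finset.mem_range] at hj
      rw [if_pos (by omega)]
    · rw [if_neg hi, if_neg hi, zero_mul]
  rw [Finset.sum_congr rfl (fun i hi => e1 i (Finset.mem_range.1 hi))]
  have e2 : ∀ i, om (bb c) (pat s f r i) = decide ((if i < per s r then wf c (ss f (it s r i)) else 0) = (1 : F2)) := by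
    intro i
    rw [om_pat]
    by_cases hi : i < per s r
    · simp [hi]
    · simp [hi]
  unfold mu at hm
  simp only [e2, msk_eq] at hm
  have e3 : pcn (msk s z r) = pcn (fun i => decide ((if i < per s r then z (it s r i) else 0) = (1 : F2))) := by
    congr 1
    funext i
    exact msk_eq s z r i
  have e3' : pcn (msk s z r) = pcn (fun i => decide (i < per s r ∧ z (it s r i) = 1)) := rfl
  rw [e3] at hm ⊢
  generalize pcn (fun i => decide ((if i < per s r then z (it s r i) else 0) = (1 : F2))) / 2 = n at *
  simp only [Finset.sum_range_succ, Finset.sum_range_zero, zero_add, mul_zero]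
  generalize (if 0 < per s r then z (it s r 0) else 0) = z0 at *
  generalize (if 1 < per s r then z (it s r 1) else 0) = z1 at *
  generalize (if 2 < per s r then z (it s r 2) else 0) = z2 at *
  generalize (if 3 < per s r then z (it s r 3) else 0) = z3 at *
  generalize (if 4 < per s r then z (it s r 4) else 0) = z4 at *
  generalize (if 5 < per s r then z (it s r 5) else 0) = z5 at *
  generalize (if 0 < per s r then wf c (ss f (it s r 0)) else 0) = w0 at *
  generalize (if 1 < per s r then wf c (ss f (it s r 1)) else 0) = w1 at *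
  generalize (if 2 < per s r then wf c (ss f (it s r 2)) else 0) = w2 at *
  generalize (if 3 < per s r then wf c (ss f (it s r 3)) else 0) = w3 at *
  generalize (if 4 < per s r then wf c (ss f (it s r 4)) else 0) = w4 at *
  have e4 : (n % 2 == 1) = decide ((n : F2) = 1) := by
    rw [← ZMod.natCast_mod n 2]
    have : n % 2 < 2 := Nat.mod_lt _ (by norm_num)
    generalize n % 2 = m at *
    interval_cases m <;> decide
  rw [e4] at hm
  simp only [xor_dec, and_dec] at hm
  rw [decide_eq_false_iff_not] at hm
  have := f2_ne_one hm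
  rw [← this]
  ring

end bridge

end Pool.Agent.H90.Ocdc
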