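import Mathlib

set_option autoImplicit false
open scoped Classical

namespace Pool.Agent.H90.Ocdc

/-- Number of times the closed walk `c` uses the dart `(u, v)`. -/
noncomputable def cnt {V : Type} {G : SimpleGraph V} (c : Σ v : V, G.Walk v v) (u v : V) : ℕ :=
  (c.2.darts.filter (fun d => decide (d.toProd = (u, v)))).length

/-- A flow with values in `{-1, 0, 1}` supported on the edges of `G`. -/
structure IsFlow {V : Type} [Fintype V] (G : SimpleGraph V) (g : V → V → ℤ) : Prop where
  anti : ∀ u v, g u v = - g v u
  val : ∀ u v, g u v = 0 ∨ g u v = 1 ∨ g u v = -1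
  adj : ∀ u v, g u v ≠ 0 → G.Adj u v
  flow : ∀ v, ∑ u, g v u = 0

section walk
variable {V : Type} {G : SimpleGraph V}

/-- The walk `a 0, a 1, ..., a n`. -/
def walkOf : (n : ℕ) → (a : ℕ → V) → (∀ i < n, G.Adj (a i) (a (i + 1))) → G.Walk (a 0) (a n)
  | 0, _, _ => SimpleGraph.Walk.nil
  | n + 1, a, h => SimpleGraph.Walk.cons (h 0 (Nat.succ_pos n))
      (walkOf n (fun i => a (i + 1)) (fun i hi => h (i + 1) (Nat.succ_lt_succ hi)))

theorem walkOf_support (n : ℕ) (a : ℕ → V) (h : ∀ i < n, G.Adj (a i) (a (i + 1))) :
    (walkOf n a h).support = (List.range (n + 1)).map a := by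
  induction n generalizing a with
  | zero => simp [walkOf]
  | succ n ih =>
    rw [walkOf, SimpleGraph.Walk.support_cons, ih, List.range_succ_eq_map (n := n + 1)]
    simp [Function.comp_def]

theorem walkOf_darts (n : ℕ) (a : ℕ → V) (h : ∀ i < n, G.Adj (a i) (a (i + 1))) :
    (walkOf n a h).darts.map (fun d => d.toProd) = (List.range n).map (fun i => (a i, a (i + 1))) := by
  induction n generalizing a with
  | zero => simp [walkOf]
  | succ n ih =>
    rw [walkOf, SimpleGraph.Walk.darts_cons, List.map_cons, ih, List.range_succ_eq_map]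
    simp [Function.comp_def]

end walk

section cyc
variable {V : Type} [Fintype V] {G : SimpleGraph V}

theorem exists_cycle (g : V → V → ℤ) (hg : IsFlow G g) (u0 v0 : V) (h0 : g u0 v0 = 1) :
    ∃ (n : ℕ) (a : ℕ → V), 3 ≤ n ∧ a n = a 0 ∧ (∀ i < n, ∀ j < n, a i = a j → i = j) ∧
      ∀ i < n, g (a i) (a (i + 1)) = 1 := by
  -- every vertex with an in-arc has an out-arc
  have hout : ∀ v, (∃ u, g u v = 1) → ∃ w, g v w = 1 := by
    intro v ⟨u, hu⟩
    by_contra hcon
    push Not at hcon
    have h1 : ∀ w, g v w ≤ 0 := by
      intro w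
      rcases hg.val v w with h | h | h
      · omega
      · exact absurd h (hcon w)
      · omega
    have h2 : g v u = -1 := by rw [hg.anti v u, hu]
    have h3 : ∑ w, g v w < 0 := by
      apply Finset.sum_neg' (fun w _ => h1 w) ⟨u, Finset.mem_univ u, by omega⟩
    have h4 := hg.flow v
    omega
  let f : V → V := fun v => if h : ∃ w, g v w = 1 then h.choose else v
  have hf : ∀ v, (∃ w, g v w = 1) → g v (f v) = 1 := by
    intro v h
    have : f v = h.choose := by simp only [f]; rw [dif_pos h]
    rw [this]; exact h.choose_spec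
  have hit : ∀ i, ∃ w, g (f^[i] u0) w = 1 := by
    intro i
    induction i with
    | zero => exact ⟨v0, h0⟩
    | succ i ih =>
      rw [Function.iterate_succ_apply']
      exact hout _ ⟨_, hf _ ih⟩
  -- pigeonhole
  obtain ⟨i, j, hij, heq⟩ : ∃ i j, i < j ∧ f^[i] u0 = f^[j] u0 := by
    have := not_injective_infinite_finite (fun i : ℕ => f^[i] u0)
    simp only [Function.Injective, not_forall] at this
    obtain ⟨i, j, h, hne⟩ := this
    rcases lt_or_gt_of_ne hne with h' | h'
    · exact ⟨i, j, h', h⟩
    · exact ⟨j, i, h', h.symm⟩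
  set x := f^[i] u0 with hx
  have hper : Function.IsPeriodicPt f (j - i) x := by
    unfold Function.IsPeriodicPt Function.IsFixedPt
    rw [hx, ← Function.iterate_add_apply, Nat.sub_add_cancel hij.le]
    exact heq.symm
  have hpos : 0 < Function.minimalPeriod f x := by
    apply Function.IsPeriodicPt.minimalPeriod_pos (n := j - i) (by omega) hper
  set n := Function.minimalPeriod f x with hn
  have hxi : ∀ k, g (f^[k] x) (f^[k + 1] x) = 1 := by
    intro k
    rw [Function.iterate_succ_apply', hx, ← Function.iterate_add_apply]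
    exact hf _ (hit _)
  have hnx : f^[n] x = x := Function.isPeriodicPt_minimalPeriod f x
  refine ⟨n, fun k => f^[k] x, ?_, ?_, ?_, fun k _ => hxi k⟩
  · by_contra hlt
    have h12 : n = 1 ∨ n = 2 := by omega
    rcases h12 with h | h
    · have h1 := hxi 0
      have : f^[1] x = x := by rw [h] at hnx; exact hnx
      rw [Nat.zero_add, this, Function.iterate_zero, id] at h1
      have h2 := hg.anti x x
      omega
    · have h1 := hxi 0
      have h2 := hxi 1
      have h3 : f^[2] x = x := by rw [h] at hnx; exact hnx
      rw [show (1 : ℕ) + 1 = 2 from rfl, h3] at h2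
      rw [Nat.zero_add, Function.iterate_zero, id] at h1
      have h4 := hg.anti x (f^[1] x)
      omega
  · show f^[n] x = f^[0] x
    rw [hnx]; rfl
  · intro k hk l hl hkl
    have := Function.iterate_injOn_Iio_minimalPeriod (f := f) (x := x)
    exact this (by simpa using hk) (by simpa using hl) hkl

/-- The indicator of the arcs of the cyclic sequence. -/
noncomputable def arc (n : ℕ) (a : ℕ → V) (u v : V) : ℤ :=
  if ∃ i, i < n ∧ a i = u ∧ a (i + 1) = v then 1 else 0

theorem arc_sum_out (n : ℕ) (a : ℕ → V) (hinj : ∀ i < n, ∀ j < n, a i = a j → i = j) (v : V) :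
    ∑ u, arc n a v u = if ∃ i, i < n ∧ a i = v then 1 else 0 := by
  split_ifs with h
  · obtain ⟨i, hi, rfl⟩ := h
    rw [Finset.sum_eq_single (a (i + 1))]
    · unfold arc; rw [if_pos ⟨i, hi, rfl, rfl⟩]
    · intro b _ hb
      unfold arc
      rw [if_neg]
      rintro ⟨j, hj, h1, h2⟩
      have := hinj j hj i hi h1
      subst this
      exact hb h2.symm
    · intro h; exact absurd (Finset.mem_univ _) h
  · apply Finset.sum_eq_zero
    intro u _
    unfold arc
    rw [if_neg]
    rintro ⟨j, hj, h1, _⟩
    exact h ⟨j, hj, h1⟩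

theorem arc_sum_in (n : ℕ) (a : ℕ → V) (hn : a n = a 0) (hn0 : 0 < n)
    (hinj : ∀ i < n, ∀ j < n, a i = a j → i = j) (v : V) :
    ∑ u, arc n a u v = if ∃ i, i < n ∧ a i = v then 1 else 0 := by
  have key : ∀ j < n, ∃ k, k < n ∧ a (j + 1) = a k ∧ (k = j + 1 ∨ (k = 0 ∧ j + 1 = n)) := by
    intro j hj
    by_cases h : j + 1 < n
    · exact ⟨j + 1, h, rfl, Or.inl rfl⟩
    · have : j + 1 = n := by omega
      exact ⟨0, hn0, by rw [this, hn], Or.inr ⟨rfl, this⟩⟩
  split_ifs with h
  · obtain ⟨i, hi, rfl⟩ := h
    obtain ⟨p, hp, hpa⟩ : ∃ p, p < n ∧ a (p + 1) = a i := by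
      by_cases h0 : i = 0
      · exact ⟨n - 1, by omega, by rw [show n - 1 + 1 = n by omega, hn, h0]⟩
      · exact ⟨i - 1, by omega, by rw [show i - 1 + 1 = i by omega]⟩
    rw [Finset.sum_eq_single (a p)]
    · unfold arc; rw [if_pos ⟨p, hp, rfl, hpa⟩]
    · intro b _ hb
      unfold arc
      rw [if_neg]
      rintro ⟨j, hj, h1, h2⟩
      apply hb
      rw [← h1]
      congr 1
      obtain ⟨k, hk, hka, hk'⟩ := key j hj
      obtain ⟨l, hl, hla, hl'⟩ := key p hp
      have e1 : k = i := hinj k hk i hi (by rw [← hka, h2])
      have e2 : l = i := hinj l hl i hi (by rw [← hla, hpa])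
      omega
    · intro h; exact absurd (Finset.mem_univ _) h
  · apply Finset.sum_eq_zero
    intro u _
    unfold arc
    rw [if_neg]
    rintro ⟨j, hj, _, h2⟩
    obtain ⟨k, hk, hka, _⟩ := key j hj
    exact h ⟨k, hk, by rw [← hka, h2]⟩

omit [Fintype V] in
theorem walk_cnt (n : ℕ) (a : ℕ → V) (h : ∀ i < n, G.Adj (a i) (a (i + 1))) (hn : a n = a 0)
    (hinj : ∀ i < n, ∀ j < n, a i = a j → i = j) (u v : V) :
    (cnt (⟨a 0, (walkOf n a h).copy rfl hn⟩ : Σ v : V, G.Walk v v) u v : ℤ) = arc n a u v := by
  unfold cnt arc
  simp only [SimpleGraph.Walk.darts_copy]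
  have e : ((walkOf n a h).darts.filter (fun d => decide (d.toProd = (u, v)))).length
      = (((walkOf n a h).darts.map (fun d => d.toProd)).filter (fun p => decide (p = (u, v)))).length := by
    rw [List.filter_map, List.length_map]
    rfl
  rw [e, walkOf_darts, List.filter_map, List.length_map]
  split_ifs with hex
  · obtain ⟨i, hi, h1, h2⟩ := hex
    have : (List.range n).filter ((fun p => decide (p = (u, v))) ∘ fun i => (a i, a (i + 1))) = [i] := by
      have h3 : ∀ j ∈ List.range n, ((fun p => decide (p = (u, v))) ∘ fun i => (a i, a (i + 1))) j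
          = decide (j = i) := by
        intro j hj
        rw [List.mem_range] at hj
        simp only [Function.comp, Prod.mk.injEq, decide_eq_decide]
        constructor
        · rintro ⟨h3, _⟩
          exact hinj j hj i hi (by rw [h3, h1])
        · rintro rfl
          exact ⟨h1, h2⟩
      rw [List.filter_congr h3]
      have hnd : (List.range n).Nodup := List.nodup_range
      have := List.Nodup.filter (fun j => decide (j = i)) hnd
      apply List.perm_singleton.mp
      rw [List.perm_ext_iff_of_nodup this (List.nodup_singleton i)]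
      intro j
      simp only [List.mem_filter, List.mem_range, decide_eq_true_eq, List.mem_singleton]
      constructor
      · rintro ⟨_, rfl⟩; rfl
      · rintro rfl; exact ⟨hi, rfl⟩
    rw [this]; rfl
  · have : (List.range n).filter ((fun p => decide (p = (u, v))) ∘ fun i => (a i, a (i + 1))) = [] := by
      rw [List.filter_eq_nil_iff]
      intro j hj
      rw [List.mem_range] at hj
      simp only [Function.comp, Prod.mk.injEq, decide_eq_true_eq]
      rintro ⟨h3, h4⟩
      exact hex ⟨j, hj, h3, h4⟩
    rw [this]; rfl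

omit [Fintype V] in
theorem walk_isCycle (n : ℕ) (a : ℕ → V) (h : ∀ i < n, G.Adj (a i) (a (i + 1))) (hn : a n = a 0)
    (h3 : 3 ≤ n) (hinj : ∀ i < n, ∀ j < n, a i = a j → i = j) :
    ((walkOf n a h).copy rfl hn).IsCycle := by
  have key : ∀ j < n, ∃ k, k < n ∧ a (j + 1) = a k ∧ ((k = j + 1) ∨ (k = 0 ∧ j + 1 = n)) := by
    intro j hj
    by_cases h : j + 1 < n
    · exact ⟨j + 1, h, rfl, Or.inl rfl⟩
    · have : j + 1 = n := by omega
      exact ⟨0, by omega, by rw [this, hn], Or.inr ⟨rfl, this⟩⟩
  rw [SimpleGraph.Walk.isCycle_def]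
  refine ⟨?_, ?_, ?_⟩
  · rw [SimpleGraph.Walk.isTrail_def, SimpleGraph.Walk.edges_copy]
    have e1 : (walkOf n a h).edges = (List.range n).map (fun i => s(a i, a (i + 1))) := by
      have := congrArg (List.map (fun p : V × V => s(p.1, p.2))) (walkOf_darts n a h)
      rw [List.map_map, List.map_map] at this
      exact this
    rw [e1]
    apply List.Nodup.map_on _ List.nodup_range
    intro i hi j hj hij
    rw [List.mem_range] at hi hj
    rw [Sym2.eq_iff] at hij
    rcases hij with ⟨h1, _⟩ | ⟨h1, h2⟩
    · exact hinj i hi j hj h1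
    · obtain ⟨k, hk, hka, hk'⟩ := key j hj
      obtain ⟨l, hl, hla, hl'⟩ := key i hi
      have e1 : i = k := hinj i hi k hk (by rw [h1, hka])
      have e2 : l = j := hinj l hl j hj (by rw [← hla, h2])
      omega
  · intro hnil
    have := congrArg SimpleGraph.Walk.length hnil
    rw [SimpleGraph.Walk.length_copy, SimpleGraph.Walk.length_nil] at this
    have h4 := congrArg List.length (walkOf_darts n a h)
    rw [List.length_map, List.length_map, List.length_range, SimpleGraph.Walk.length_darts] at h4
    omega
  · rw [SimpleGraph.Walk.support_copy, walkOf_support, List.range_succ_eq_map]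
    simp only [List.map_cons, List.tail_cons, List.map_map]
    apply List.Nodup.map_on _ List.nodup_range
    intro i hi j hj hij
    rw [List.mem_range] at hi hj
    simp only [Function.comp, Nat.succ_eq_add_one] at hij
    obtain ⟨k, hk, hka, hk'⟩ := key j hj
    obtain ⟨l, hl, hla, hl'⟩ := key i hi
    have e1 : l = k := hinj l hl k hk (by rw [← hla, hij, hka])
    omega

theorem decomp (g : V → V → ℤ) (hg : IsFlow G g) :
    ∃ L : List (Σ v : V, G.Walk v v), (∀ c ∈ L, c.2.IsCycle) ∧
      ∀ u v, (L.map (fun c => cnt c u v)).sum = if g u v = 1 then 1 else 0 := by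
  obtain ⟨N, hN⟩ : ∃ N, (Finset.univ.filter (fun p : V × V => g p.1 p.2 = 1)).card = N := ⟨_, rfl⟩
  induction N using Nat.strong_induction_on generalizing g with
  | _ N ih =>
    by_cases h : ∃ u v, g u v = 1
    · obtain ⟨u0, v0, h0⟩ := h
      obtain ⟨n, a, h3, hn, hinj, hga⟩ := exists_cycle g hg u0 v0 h0
      have hadj : ∀ i < n, G.Adj (a i) (a (i + 1)) := fun i hi => hg.adj _ _ (by rw [hga i hi]; omega)
      have harc : ∀ u v, arc n a u v = 0 ∨ (arc n a u v = 1 ∧ g u v = 1 ∧ arc n a v u = 0) := by
        intro u v
        unfold arc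
        by_cases h : ∃ i, i < n ∧ a i = u ∧ a (i + 1) = v
        · right
          rw [if_pos h]
          obtain ⟨i, hi, rfl, rfl⟩ := h
          refine ⟨rfl, hga i hi, ?_⟩
          rw [if_neg]
          rintro ⟨j, hj, h1, h2⟩
          have e1 := hga i hi
          have e2 := hga j hj
          rw [h1, h2] at e2
          have := hg.anti (a i) (a (i + 1))
          omega
        · left; rw [if_neg h]
      let g' : V → V → ℤ := fun u v => g u v - arc n a u v + arc n a v u
      have hg'v : ∀ u v, (arc n a u v = 1 ∧ g' u v = 0) ∨ (arc n a v u = 1 ∧ g' u v = 0)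
          ∨ (arc n a u v = 0 ∧ arc n a v u = 0 ∧ g' u v = g u v) := by
        intro u v
        simp only [g']
        have e1 := hg.anti u v
        rcases harc u v with h1 | ⟨h1, h2, h3⟩
        · rcases harc v u with h4 | ⟨h4, h5, h6⟩
          · right; right; exact ⟨h1, h4, by omega⟩
          · right; left; exact ⟨h4, by omega⟩
        · left; exact ⟨h1, by omega⟩
      have hg' : IsFlow G g' := by
        refine ⟨?_, ?_, ?_, ?_⟩
        · intro u v; simp only [g']; have := hg.anti u v; omega
        · intro u v
          rcases hg'v u v with h | h | h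
          · left; exact h.2
          · left; exact h.2
          · rw [h.2.2]; exact hg.val u v
        · intro u v hne
          rcases hg'v u v with h | h | h
          · exact absurd h.2 hne
          · exact absurd h.2 hne
          · rw [h.2.2] at hne; exact hg.adj u v hne
        · intro v
          simp only [g']
          rw [Finset.sum_add_distrib, Finset.sum_sub_distrib, hg.flow v, arc_sum_out n a hinj v,
            arc_sum_in n a hn (by omega) hinj v]
          ring
      have hlt : (Finset.univ.filter (fun p : V × V => g' p.1 p.2 = 1)).card < N := by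
        rw [← hN]
        apply Finset.card_lt_card
        rw [Finset.ssubset_iff_of_subset]
        · refine ⟨(a 0, a 1), ?_, ?_⟩
          · simp only [Finset.mem_filter, Finset.mem_univ, true_and]
            exact hga 0 (by omega)
          · simp only [Finset.mem_filter, Finset.mem_univ, true_and]
            rcases hg'v (a 0) (a 1) with h | h | h
            · rw [h.2]; omega
            · rw [h.2]; omega
            · exfalso
              have := h.1
              unfold arc at this
              rw [if_pos ⟨0, by omega, rfl, rfl⟩] at this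
              omega
        · intro p hp
          simp only [Finset.mem_filter, Finset.mem_univ, true_and] at hp ⊢
          rcases hg'v p.1 p.2 with h | h | h
          · rw [h.2] at hp; omega
          · rw [h.2] at hp; omega
          · rw [h.2.2] at hp; exact hp
      obtain ⟨L, hL1, hL2⟩ := ih _ hlt g' hg' rfl
      refine ⟨⟨a 0, (walkOf n a hadj).copy rfl hn⟩ :: L, ?_, ?_⟩
      · intro c hc
        rw [List.mem_cons] at hc
        rcases hc with rfl | hc
        · exact walk_isCycle n a hadj hn h3 hinj
        · exact hL1 c hc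
      · intro u v
        rw [List.map_cons, List.sum_cons, hL2 u v]
        have e1 := walk_cnt n a hadj hn hinj u v
        zify
        rw [e1]
        have hnn := hg.anti u v
        rcases harc u v with h1 | ⟨h1, h2, h3⟩
        · rcases harc v u with h4 | ⟨h4, h5, h6⟩
          · simp only [g', h1, h4]
            simp
          · simp only [g', h1, h4]
            rw [if_neg, if_neg] <;> push_cast <;> omega
        · simp only [g', h1, h2, h3]
          simp
    · refine ⟨[], by simp, ?_⟩
      intro u v
      rw [if_neg (fun h' => h ⟨u, v, h'⟩)]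
      simp

end cyc

end Pool.Agent.H90.Ocdc
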