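import Pool.Agent.H90.Ocdc.Kempe
import Pool.Agent.H90.Ocdc.Cyc

set_option autoImplicit false
set_option linter.unusedSectionVars false
open scoped Classical

namespace Pool.Agent.H90.Ocdc

open Equiv (Perm)
open Local

/-- signs -/
def sg (x : F2) : ℤ := if x = 0 then 1 else -1

theorem sg_add (x y : F2) : sg (x + y) = sg x * sg y := by revert x y; decide
theorem sg_add_one (x : F2) : sg (x + 1) = - sg x := by revert x; decide
theorem sg_val (x : F2) : sg x = 1 ∨ sg x = -1 := by revert x; decide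
theorem sg_opp (x y : F2) (h : x + y = 1) : sg x = - sg y := by revert x y; decide

section flow
variable {V : Type} [Fintype V] {G : SimpleGraph V} {s : Perm V} {f : V → V → K}

theorem idx_s (hG : Good G s f) (c : K) (v : V) : idx s f c (s v) = idx s f c v + wf c (ss f v) := by
  unfold idx
  rw [rep_s]
  apply cum_s s _ _ _ (same_rep s v)
  rw [← wf_sum, hG.sum, wf_zero]

theorem wf3 (x : K) : wf (1, 0) x + wf (0, 1) x + wf (1, 1) x = 0 := by revert x; decide

theorem idx3 (v : V) : idx s f (1, 0) v + idx s f (0, 1) v + idx s f (1, 1) v = 0 := by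
  unfold idx cum
  rw [← Finset.sum_add_distrib, ← Finset.sum_add_distrib]
  apply Finset.sum_eq_zero
  intro i _
  exact wf3 _

/-- the flow of type `c` -/
noncomputable def kap (s : Perm V) (f : V → V → K) (c : K) (o : V → V → F2) (y : V → F2) (v u : V) : ℤ :=
  (if hh f c v u then 2 * sg (o v u) else 0) +
  ((if s v = u ∧ s v ≠ v then sg (y (rep s v) + idx s f c (s v)) else 0) -
   (if s u = v ∧ s u ≠ u then sg (y (rep s v) + idx s f c v) else 0))

theorem sum_out (A : ℤ) (v : V) : ∑ u, (if s v = u ∧ s v ≠ v then A else 0) = if s v ≠ v then A else 0 := by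
  rw [Finset.sum_eq_single (s v)]
  · simp
  · intro b _ hb
    rw [if_neg (fun h => hb h.1.symm)]
  · intro h; exact absurd (Finset.mem_univ _) h

theorem sum_in (A : ℤ) (v : V) : ∑ u, (if s u = v ∧ s u ≠ u then A else 0) = if s v ≠ v then A else 0 := by
  rw [Finset.sum_eq_single (s.symm v)]
  · by_cases h : s v = v
    · have : s.symm v = v := by rw [Equiv.symm_apply_eq]; exact h.symm
      rw [this]
      simp [h]
    · rw [if_pos h, if_pos]
      refine ⟨Equiv.apply_symm_apply s v, ?_⟩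
      rw [Equiv.apply_symm_apply]
      intro h2
      exact h (by rw [Equiv.eq_symm_apply] at h2; exact h2)
  · intro b _ hb
    rw [if_neg]
    rintro ⟨h1, _⟩
    apply hb
    rw [← h1, Equiv.symm_apply_apply]
  · intro h; exact absurd (Finset.mem_univ _) h

theorem ss_fixed (hG : Good G s f) (v : V) (h : s v = v) : ss f v = 0 := by
  have h7 := hG.sum v
  have e : Finset.univ.filter (fun w => s.SameCycle v w) = {v} := by
    ext w
    rw [Finset.mem_filter, Finset.mem_singleton]
    constructor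
    · rintro ⟨_, h8⟩; exact (h8.eq_of_left h).symm
    · rintro rfl; exact ⟨Finset.mem_univ _, Perm.SameCycle.refl _ _⟩
  rwa [e, Finset.sum_singleton] at h7

theorem kap_flow (hG : Good G s f) (c : K) {t : V → V → V} {fx : V → V} (hT : Trans (hh f c) t fx)
    (o : V → V → F2) (y : V → F2)
    (h2 : ∀ v u, hh f c v u → t v u ≠ u → o v u + o v (t v u) = 1)
    (h3 : ∀ v, Odd (dg (hh f c) v) → o v (fx v) = y (rep s v) + idx s f c v) (v : V) :
    ∑ u, kap s f c o y v u = 0 := by
  unfold kap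
  rw [Finset.sum_add_distrib, Finset.sum_sub_distrib, sum_out, sum_in]
  have e1 : ∑ u, (if hh f c v u then 2 * sg (o v u) else 0) =
      if Odd (dg (hh f c) v) then 2 * sg (y (rep s v) + idx s f c v) else 0 := by
    rw [sum_cancel hT v (fun u => if hh f c v u then 2 * sg (o v u) else 0)]
    · split_ifs with h5 h6
      · rw [h3 v h5]
      · exact absurd (hT.fixmem v h5) h6
      · rfl
    · intro u hu; rw [if_neg hu]
    · intro u hu htu
      rw [if_pos hu, if_pos (hT.pres v u hu), sg_opp _ _ (h2 v u hu htu)]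
      ring
  rw [e1]
  by_cases hmv : s v = v
  · have hw : ¬ Odd (dg (hh f c) v) := by
      rw [odd_dg, ss_fixed hG v hmv, wf_zero]; decide
    rw [if_neg hw, if_neg (by simp [hmv]), if_neg (by simp [hmv])]
    simp
  · rw [if_pos hmv, if_pos hmv, idx_s hG]
    rcases f2_cases (wf c (ss f v)) with h | h
    · have hw : ¬ Odd (dg (hh f c) v) := by
        rw [odd_dg, h]; decide
      rw [if_neg hw, h, add_zero]; ring
    · have hw : Odd (dg (hh f c) v) := by
        rw [odd_dg, h]
      rw [if_pos hw, h, ← add_assoc, sg_add_one]; ring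

theorem kap_anti (hG : Good G s f) (c : K) (o : V → V → F2) (y : V → F2)
    (h1 : ∀ v u, hh f c v u → o v u + o u v = 1) (v u : V) :
    kap s f c o y v u = - kap s f c o y u v := by
  unfold kap
  have e1 : (if hh f c v u then 2 * sg (o v u) else 0) = - (if hh f c u v then 2 * sg (o u v) else 0) := by
    by_cases h : hh f c v u
    · rw [if_pos h, if_pos (hh_symm hG c v u h), sg_opp _ _ (h1 v u h)]; ring
    · rw [if_neg h, if_neg (fun h' => h (hh_symm hG c u v h'))]; ring
  have e2 : ∀ v u : V, (if s v = u ∧ s v ≠ v then sg (y (rep s v) + idx s f c (s v)) else 0) =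
      (if s v = u ∧ s v ≠ v then sg (y (rep s u) + idx s f c u) else 0) := by
    intro v u
    by_cases h : s v = u ∧ s v ≠ v
    · rw [if_pos h, if_pos h, ← h.1, rep_s]
    · rw [if_neg h, if_neg h]
  rw [e1, e2 v u, ← e2 u v]
  ring

noncomputable def dl (s : Perm V) (y1 y2 y3 : V → F2) (v : V) : ℤ :=
  sg (y1 (rep s v)) * sg (y2 (rep s v)) * sg (y3 (rep s v))

noncomputable def dd (s : Perm V) (y1 y2 y3 : V → F2) (v u : V) : ℤ :=
  (if s v = u ∧ s v ≠ v then dl s y1 y2 y3 v else 0) - (if s u = v ∧ s u ≠ u then dl s y1 y2 y3 v else 0)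

theorem dd_flow (y1 y2 y3 : V → F2) (v : V) : ∑ u, dd s y1 y2 y3 v u = 0 := by
  unfold dd
  rw [Finset.sum_sub_distrib, sum_out, sum_in, sub_self]

theorem dd_anti (y1 y2 y3 : V → F2) (v u : V) : dd s y1 y2 y3 v u = - dd s y1 y2 y3 u v := by
  unfold dd dl
  have e2 : ∀ v u : V, (if s v = u ∧ s v ≠ v then sg (y1 (rep s v)) * sg (y2 (rep s v)) * sg (y3 (rep s v)) else 0) =
      (if s v = u ∧ s v ≠ v then sg (y1 (rep s u)) * sg (y2 (rep s u)) * sg (y3 (rep s u)) else 0) := by
    intro v u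
    by_cases h : s v = u ∧ s v ≠ v
    · rw [if_pos h, if_pos h, ← h.1, rep_s]
    · rw [if_neg h, if_neg h]
  rw [e2 v u, ← e2 u v]
  ring

/-- possible values on a dart -/
def Vals (a1 a2 a3 d : ℤ) : Prop :=
  (d = 0 ∧ ((a1 = 0 ∧ (a2 = 2 ∨ a2 = -2) ∧ (a3 = 2 ∨ a3 = -2)) ∨
    (a2 = 0 ∧ (a1 = 2 ∨ a1 = -2) ∧ (a3 = 2 ∨ a3 = -2)) ∨
    (a3 = 0 ∧ (a1 = 2 ∨ a1 = -2) ∧ (a2 = 2 ∨ a2 = -2)))) ∨
  (d = a1 * a2 * a3 ∧ (a1 = 1 ∨ a1 = -1) ∧ (a2 = 1 ∨ a2 = -1) ∧ (a3 = 1 ∨ a3 = -1))

def Q (a1 a2 a3 d : ℤ) : Fin 5 → ℤ := fun i =>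
  match i with
  | 0 => (a1 + a2 + a3 + d) / 4
  | 1 => (a1 - a2 - a3 + d) / 4
  | 2 => (-a1 + a2 - a3 + d) / 4
  | 3 => (-a1 - a2 + a3 + d) / 4
  | 4 => -d

theorem Q_vals (a1 a2 a3 d : ℤ) (h : Vals a1 a2 a3 d) :
    (∀ i, Q a1 a2 a3 d i = 0 ∨ Q a1 a2 a3 d i = 1 ∨ Q a1 a2 a3 d i = -1) ∧
    (∑ i, if Q a1 a2 a3 d i = 1 then 1 else 0) = 1 ∧
    (∀ i, Q (-a1) (-a2) (-a3) (-d) i = - Q a1 a2 a3 d i) ∧
    4 * Q a1 a2 a3 d 0 = a1 + a2 + a3 + d ∧ 4 * Q a1 a2 a3 d 1 = a1 - a2 - a3 + d ∧
    4 * Q a1 a2 a3 d 2 = -a1 + a2 - a3 + d ∧ 4 * Q a1 a2 a3 d 3 = -a1 - a2 + a3 + d := by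
  rcases h with ⟨rfl, ⟨rfl, rfl | rfl, rfl | rfl⟩ | ⟨rfl, rfl | rfl, rfl | rfl⟩ | ⟨rfl, rfl | rfl, rfl | rfl⟩⟩ |
    ⟨rfl, rfl | rfl, rfl | rfl, rfl | rfl⟩ <;> decide

theorem Q_zero : (∀ i, Q 0 0 0 0 i = 0) := by decide

theorem vals_adj (hG : Good G s f) (o1 o2 o3 : V → V → F2) (y1 y2 y3 : V → F2) (v u : V) (h : G.Adj v u) :
    Vals (kap s f (1, 0) o1 y1 v u) (kap s f (0, 1) o2 y2 v u) (kap s f (1, 1) o3 y3 v u)
      (dd s y1 y2 y3 v u) := by
  have two : ∀ x : F2, 2 * sg x = 2 ∨ 2 * sg x = -2 := by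
    intro x; rcases sg_val x with h | h <;> rw [h] <;> simp
  by_cases h1 : s v = u
  · have hmv : s v ≠ v := by rw [h1]; exact h.ne'
    have h2 : ¬ (s u = v ∧ s u ≠ u) := by
      rintro ⟨h3, _⟩
      rw [← h1] at h3
      exact hG.two v hmv h3
    have hf : f v u = 0 := (hG.zero v u h).2 (Or.inl h1)
    have hh0 : ∀ c, ¬ hh f c v u := by
      intro c; unfold hh; rw [hf, wf_zero]; decide
    right
    unfold kap dd dl
    simp only [if_neg (hh0 _), if_neg h2, if_pos (⟨h1, hmv⟩ : s v = u ∧ s v ≠ v), zero_add, sub_zero]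
    refine ⟨?_, sg_val _, sg_val _, sg_val _⟩
    rw [← sg_add, ← sg_add, ← sg_add, ← sg_add]
    have := idx3 (s := s) (f := f) (s v)
    congr 1
    generalize idx s f (1, 0) (s v) = x1 at *
    generalize idx s f (0, 1) (s v) = x2 at *
    generalize idx s f (1, 1) (s v) = x3 at *
    generalize y1 (rep s v) = z1
    generalize y2 (rep s v) = z2
    generalize y3 (rep s v) = z3
    revert x1 x2 x3 z1 z2 z3; decide
  · by_cases h2 : s u = v
    · have hmv : s u ≠ u := by rw [h2]; exact h.ne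
      have h3 : ¬ (s v = u ∧ s v ≠ v) := fun h3 => h1 h3.1
      have hf : f v u = 0 := (hG.zero v u h).2 (Or.inr h2)
      have hh0 : ∀ c, ¬ hh f c v u := by
        intro c; unfold hh; rw [hf, wf_zero]; decide
      right
      unfold kap dd dl
      simp only [if_neg (hh0 _), if_neg h3, if_pos (⟨h2, hmv⟩ : s u = v ∧ s u ≠ u), zero_add, zero_sub]
      have neg : ∀ x : F2, - sg x = 1 ∨ - sg x = -1 := by
        intro x; rcases sg_val x with h | h <;> rw [h] <;> simp
      refine ⟨?_, neg _, neg _, neg _⟩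
      have e : ∀ a b c : ℤ, -a * -b * -c = -(a * b * c) := by intros; ring
      rw [e]
      congr 1
      rw [← sg_add, ← sg_add, ← sg_add, ← sg_add]
      have := idx3 (s := s) (f := f) v
      congr 1
      generalize idx s f (1, 0) v = x1 at *
      generalize idx s f (0, 1) v = x2 at *
      generalize idx s f (1, 1) v = x3 at *
      generalize y1 (rep s v) = z1
      generalize y2 (rep s v) = z2
      generalize y3 (rep s v) = z3
      revert x1 x2 x3 z1 z2 z3; decide
    · have hf : f v u ≠ 0 := by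
        rw [Ne, hG.zero v u h]
        rintro (h3 | h3)
        · exact h1 h3
        · exact h2 h3
      have h3 : ¬ (s v = u ∧ s v ≠ v) := fun h3 => h1 h3.1
      have h4 : ¬ (s u = v ∧ s u ≠ u) := fun h3 => h2 h3.1
      left
      unfold kap dd
      simp only [if_neg h3, if_neg h4, sub_zero, add_zero, true_and]
      have cases : f v u = (1, 0) ∨ f v u = (0, 1) ∨ f v u = (1, 1) := by
        revert hf
        generalize f v u = x
        revert x; decide
      rcases cases with hc | hc | hc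
      · left
        have q1 : ¬ hh f (1, 0) v u := by unfold hh; rw [hc]; decide
        have q2 : hh f (0, 1) v u := by unfold hh; rw [hc]; decide
        have q3 : hh f (1, 1) v u := by unfold hh; rw [hc]; decide
        rw [if_neg q1, if_pos q2, if_pos q3]
        exact ⟨rfl, two _, two _⟩
      · right; left
        have q1 : hh f (1, 0) v u := by unfold hh; rw [hc]; decide
        have q2 : ¬ hh f (0, 1) v u := by unfold hh; rw [hc]; decide
        have q3 : hh f (1, 1) v u := by unfold hh; rw [hc]; decide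
        rw [if_pos q1, if_neg q2, if_pos q3]
        exact ⟨rfl, two _, two _⟩
      · right; right
        have q1 : hh f (1, 0) v u := by unfold hh; rw [hc]; decide
        have q2 : hh f (0, 1) v u := by unfold hh; rw [hc]; decide
        have q3 : ¬ hh f (1, 1) v u := by unfold hh; rw [hc]; decide
        rw [if_pos q1, if_pos q2, if_neg q3]
        exact ⟨rfl, two _, two _⟩

theorem kap_nadj (hG : Good G s f) (c : K) (o : V → V → F2) (y : V → F2) (v u : V) (h : ¬ G.Adj v u) :
    kap s f c o y v u = 0 := by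
  unfold kap
  have h0 : ¬ hh f c v u := by
    unfold hh; rw [hG.nadj v u h, wf_zero]; decide
  have h1 : ¬ (s v = u ∧ s v ≠ v) := by
    rintro ⟨rfl, h2⟩; exact h (hG.adj v h2)
  have h2 : ¬ (s u = v ∧ s u ≠ u) := by
    rintro ⟨rfl, h2⟩; exact h (hG.adj u h2).symm
  rw [if_neg h0, if_neg h1, if_neg h2]; ring

theorem dd_nadj (hG : Good G s f) (y1 y2 y3 : V → F2) (v u : V) (h : ¬ G.Adj v u) :
    dd s y1 y2 y3 v u = 0 := by
  unfold dd
  have h1 : ¬ (s v = u ∧ s v ≠ v) := by
    rintro ⟨rfl, h2⟩; exact h (hG.adj v h2)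
  have h2 : ¬ (s u = v ∧ s u ≠ u) := by
    rintro ⟨rfl, h2⟩; exact h (hG.adj u h2).symm
  rw [if_neg h1, if_neg h2]; ring

theorem flows (hn : NoExt G s) (hG : Good G s f) (hfin : ∀ r, rep s r = r → s r ≠ r → rk (pat s f r) = 0) :
    ∃ g : Fin 5 → V → V → ℤ, (∀ i, IsFlow G (g i)) ∧
      ∀ v u, G.Adj v u → (∑ i, if g i v u = 1 then 1 else 0) = 1 := by
  obtain ⟨t1, fx1, o1, y1, T1, p1, q1, r1⟩ := orientation hn hG hfin (1, 0) (by decide)
  obtain ⟨t2, fx2, o2, y2, T2, p2, q2, r2⟩ := orientation hn hG hfin (0, 1) (by decide)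
  obtain ⟨t3, fx3, o3, y3, T3, p3, q3, r3⟩ := orientation hn hG hfin (1, 1) (by decide)
  have F1 := kap_flow hG (1, 0) T1 o1 y1 q1 r1
  have F2 := kap_flow hG (0, 1) T2 o2 y2 q2 r2
  have F3 := kap_flow hG (1, 1) T3 o3 y3 q3 r3
  have F4 := dd_flow (s := s) y1 y2 y3
  have A1 := kap_anti hG (1, 0) o1 y1 p1
  have A2 := kap_anti hG (0, 1) o2 y2 p2
  have A3 := kap_anti hG (1, 1) o3 y3 p3
  have A4 := dd_anti (s := s) y1 y2 y3
  have N1 := kap_nadj hG (1, 0) o1 y1
  have N2 := kap_nadj hG (0, 1) o2 y2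
  have N3 := kap_nadj hG (1, 1) o3 y3
  have N4 := dd_nadj hG y1 y2 y3
  have VA := vals_adj hG o1 o2 o3 y1 y2 y3
  generalize kap s f (1, 0) o1 y1 = k1 at *
  generalize kap s f (0, 1) o2 y2 = k2 at *
  generalize kap s f (1, 1) o3 y3 = k3 at *
  generalize dd s y1 y2 y3 = d at *
  have four : ∀ v u, 4 * Q (k1 v u) (k2 v u) (k3 v u) (d v u) 0 = k1 v u + k2 v u + k3 v u + d v u ∧
      4 * Q (k1 v u) (k2 v u) (k3 v u) (d v u) 1 = k1 v u - k2 v u - k3 v u + d v u ∧
      4 * Q (k1 v u) (k2 v u) (k3 v u) (d v u) 2 = - k1 v u + k2 v u - k3 v u + d v u ∧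
      4 * Q (k1 v u) (k2 v u) (k3 v u) (d v u) 3 = - k1 v u - k2 v u + k3 v u + d v u := by
    intro v u
    by_cases h : G.Adj v u
    · exact (Q_vals _ _ _ _ (VA v u h)).2.2.2
    · rw [N1 v u h, N2 v u h, N3 v u h, N4 v u h]
      decide
  refine ⟨fun i v u => Q (k1 v u) (k2 v u) (k3 v u) (d v u) i, ?_, ?_⟩
  · intro i
    refine ⟨?_, ?_, ?_, ?_⟩
    · intro u v
      by_cases h : G.Adj v u
      · have := (Q_vals _ _ _ _ (VA v u h)).2.2.1 i
        show Q (k1 u v) (k2 u v) (k3 u v) (d u v) i = - Q (k1 v u) (k2 v u) (k3 v u) (d v u) i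
        rw [A1 u v, A2 u v, A3 u v, A4 u v]; exact this
      · have h' : ¬ G.Adj u v := fun h' => h h'.symm
        show Q (k1 u v) (k2 u v) (k3 u v) (d u v) i = - Q (k1 v u) (k2 v u) (k3 v u) (d v u) i
        rw [N1 v u h, N2 v u h, N3 v u h, N4 v u h, N1 u v h', N2 u v h', N3 u v h', N4 u v h', Q_zero]
        rfl
    · intro u v
      by_cases h : G.Adj u v
      · exact (Q_vals _ _ _ _ (VA u v h)).1 i
      · left
        show Q (k1 u v) (k2 u v) (k3 u v) (d u v) i = 0
        rw [N1 u v h, N2 u v h, N3 u v h, N4 u v h, Q_zero]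
    · intro u v hne
      by_contra h
      apply hne
      show Q (k1 u v) (k2 u v) (k3 u v) (d u v) i = 0
      rw [N1 u v h, N2 u v h, N3 u v h, N4 u v h, Q_zero]
    · intro v
      have key : ∀ S : ℤ, 4 * S = 0 → S = 0 := by intro S h; omega
      fin_cases i
      · apply key
        show 4 * ∑ u, Q (k1 v u) (k2 v u) (k3 v u) (d v u) 0 = 0
        rw [Finset.mul_sum, Finset.sum_congr rfl (fun u _ => (four v u).1)]
        simp only [Finset.sum_add_distrib, F1, F2, F3, F4]
        ring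
      · apply key
        show 4 * ∑ u, Q (k1 v u) (k2 v u) (k3 v u) (d v u) 1 = 0
        rw [Finset.mul_sum, Finset.sum_congr rfl (fun u _ => (four v u).2.1)]
        simp only [Finset.sum_add_distrib, Finset.sum_sub_distrib, F1, F2, F3, F4]
        ring
      · apply key
        show 4 * ∑ u, Q (k1 v u) (k2 v u) (k3 v u) (d v u) 2 = 0
        rw [Finset.mul_sum, Finset.sum_congr rfl (fun u _ => (four v u).2.2.1)]
        simp only [Finset.sum_add_distrib, Finset.sum_sub_distrib, Finset.sum_neg_distrib, F1, F2, F3, F4]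
        ring
      · apply key
        show 4 * ∑ u, Q (k1 v u) (k2 v u) (k3 v u) (d v u) 3 = 0
        rw [Finset.mul_sum, Finset.sum_congr rfl (fun u _ => (four v u).2.2.2)]
        simp only [Finset.sum_add_distrib, Finset.sum_sub_distrib, Finset.sum_neg_distrib, F1, F2, F3, F4]
        ring
      · show ∑ u, - d v u = 0
        rw [Finset.sum_neg_distrib, F4, neg_zero]
  · intro v u h
    exact (Q_vals _ _ _ _ (VA v u h)).2.1

theorem good_flows : ∀ (n : ℕ) (s : Perm V) (f : V → V → K), Good G s f →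
    (Finset.univ.filter (fun v => s v ≠ v)).card ≤ n →
    ∃ g : Fin 5 → V → V → ℤ, (∀ i, IsFlow G (g i)) ∧
      ∀ v u, G.Adj v u → (∑ i, if g i v u = 1 then 1 else 0) = 1 := by
  intro n
  induction n with
  | zero =>
    intro s f hG h
    have hfix : ∀ v, s v = v := by
      intro v
      by_contra hcon
      have : v ∈ Finset.univ.filter (fun v => s v ≠ v) := by
        rw [Finset.mem_filter]; exact ⟨Finset.mem_univ _, hcon⟩
      rw [Finset.card_eq_zero.1 (by omega : (Finset.univ.filter (fun v => s v ≠ v)).card = 0)] at this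
      exact absurd this (Finset.notMem_empty _)
    have hn : NoExt G s := fun _ _ r hr => absurd (hfix r) hr
    exact flows hn hG (fun r _ hr => absurd (hfix r) hr)
  | succ n ih =>
    intro s f hG h
    by_cases hn : NoExt G s
    · obtain ⟨f', hG', hfin⟩ := all_final hn _ f hG le_rfl
      exact flows hn hG' hfin
    · unfold NoExt at hn
      push Not at hn
      obtain ⟨f', hG', r, hr, he⟩ := hn
      have he := eq_true_of_ne_false he
      obtain ⟨s', f'', hG'', hlt⟩ := removal hG' r hr he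
      exact ih s' f'' hG'' (by omega)

theorem good_cover (hG : Good G s f) :
    ∃ C : Fin 5 → List (Σ v : V, G.Walk v v), (∀ i, ∀ c ∈ C i, c.2.IsCycle) ∧
      (∀ i u v, ((C i).map (fun c => cnt c u v)).sum + ((C i).map (fun c => cnt c v u)).sum ≤ 1) ∧
      ∀ u v, G.Adj u v → ∑ i, ((C i).map (fun c => cnt c u v)).sum = 1 := by
  obtain ⟨g, hg, h1⟩ := good_flows _ s f hG le_rfl
  have := fun i => decomp (g i) (hg i)
  choose C hC1 hC2 using this
  refine ⟨C, hC1, ?_, ?_⟩
  · intro i u v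
    rw [hC2, hC2]
    have := (hg i).anti u v
    split_ifs with h2 h3
    · omega
    · omega
    · omega
    · omega
  · intro u v h
    simp only [hC2]
    exact h1 u v h

end flow

end Pool.Agent.H90.Ocdc
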