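import Pool.Agent.H90.Ocdc.Main

set_option autoImplicit false
set_option linter.unusedSectionVars false
open scoped Classical

namespace Pool.Agent.H90.Ocdc

open Equiv (Perm)
open Local

theorem triv_congr (P : ℕ → B2) (c : B2) (Z W : ℕ → Bool) (h : ∀ i < 6, Z i = W i) (hZ : Triv P c Z) :
    Triv P c W := by
  rcases hZ with h1 | h1
  · left; intro i hi; rw [← h i hi]; exact h1 i hi
  · right; intro i hi; rw [← h i hi]; exact h1 i hi

def vchk : Bool :=
  allB fun v0 => allB fun v1 => allB fun v2 => allB fun v3 => allB fun v4 => allB fun v5 =>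
    !(Nat.ble 4 (pcn (mk6 v0 v1 v2 v3 v4 v5))) ||
    anyV v0 fun w0 => anyV v1 fun w1 => anyV v2 fun w2 => anyV v3 fun w3 => anyV v4 fun w4 => anyV v5 fun w5 =>
      pcn (mk6 w0 w1 w2 w3 w4 w5) == 2

theorem vchk_true : vchk = true := by decide +kernel

/-- there is a non trivial even set -/
theorem exists_w0 (P : ℕ → B2) (c : B2) (h4 : 4 ≤ pcn (vc P c)) :
    ∃ w : ℕ → Bool, sub P c w = true ∧ ev w = true ∧ ¬ Triv P c w ∧
      ¬ Triv P c (fun i => xor (w i) (om c (P i))) := by
  have h := vchk_true
  unfold vchk at h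
  simp only [allB_iff] at h
  have h := h (om c (P 0)) (om c (P 1)) (om c (P 2)) (om c (P 3)) (om c (P 4)) (om c (P 5))
  rw [Bool.or_eq_true] at h
  rcases h with h | h
  · exfalso
    have e : pcn (mk6 (om c (P 0)) (om c (P 1)) (om c (P 2)) (om c (P 3)) (om c (P 4)) (om c (P 5)))
      = pcn (vc P c) := rfl
    rw [e, Bool.not_eq_true'] at h
    have := Nat.ble_eq_true_of_le h4
    rw [this] at h; cases h
  obtain ⟨z0, h0, h⟩ := anyV_of _ _ h
  obtain ⟨z1, h1, h⟩ := anyV_of _ _ h
  obtain ⟨z2, h2, h⟩ := anyV_of _ _ h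
  obtain ⟨z3, h3, h⟩ := anyV_of _ _ h
  obtain ⟨z4, h4', h⟩ := anyV_of _ _ h
  obtain ⟨z5, h5, h⟩ := anyV_of _ _ h
  rw [beq_iff_eq] at h
  have hev : ∀ b0 b1 b2 b3 b4 b5 : Bool, pcn (mk6 b0 b1 b2 b3 b4 b5) = 2 → ev (mk6 b0 b1 b2 b3 b4 b5) = true := by
    decide
  have p0 : ∀ W : ℕ → Bool, (∀ i < 6, W i = false) → pcn W = 0 := by
    intro W hW
    unfold pcn
    rw [hW 0 (by omega), hW 1 (by omega), hW 2 (by omega), hW 3 (by omega), hW 4 (by omega), hW 5 (by omega)]
    rfl
  have p1 : ∀ W W' : ℕ → Bool, (∀ i < 6, W i = W' i) → pcn W = pcn W' := by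
    intro W W' hW
    unfold pcn
    rw [hW 0 (by omega), hW 1 (by omega), hW 2 (by omega), hW 3 (by omega), hW 4 (by omega), hW 5 (by omega)]
  have hnt : ¬ Triv P c (mk6 z0 z1 z2 z3 z4 z5) := by
    rintro (h6 | h6)
    · rw [p0 _ h6] at h; omega
    · have := p1 _ (vc P c) h6
      omega
  refine ⟨mk6 z0 z1 z2 z3 z4 z5, ?_, hev _ _ _ _ _ _ h, hnt, ?_⟩
  · unfold sub
    simp only [Bool.and_eq_true]
    exact ⟨h0, h1, h2, h3, h4', h5⟩
  · rintro (h6 | h6)
    · apply hnt
      right
      intro i hi
      have := h6 i hi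
      beta_reduce at this
      revert this
      generalize mk6 z0 z1 z2 z3 z4 z5 i = a
      generalize om c (P i) = b
      revert a b; decide
    · apply hnt
      left
      intro i hi
      have := h6 i hi
      beta_reduce at this
      revert this
      generalize mk6 z0 z1 z2 z3 z4 z5 i = a
      generalize om c (P i) = b
      revert a b; decide

section kempe
variable {V : Type} [Fintype V] {G : SimpleGraph V} {s : Perm V} {f : V → V → K}

/-- no orbit is ever extendable -/
def NoExt (G : SimpleGraph V) (s : Perm V) : Prop :=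
  ∀ f, Good G s f → ∀ r, s r ≠ r → Local.ext (pat s f r) = false

theorem ext_switch (hn : NoExt G s) (hG : Good G s f) (c : K) {t : V → V → V} {z : V → V → F2}
    (hz : IsZ (hh f c) t z)
    (hev : ∀ v, ∑ w ∈ Finset.univ.filter (fun w => s.SameCycle v w), zeta z w = 0) (r : V) (hr : s r ≠ r) :
    Local.ext (sw (pat s f r) (bb c) (msk s (zeta z) r)) = false := by
  rw [← pat_sw s f _ (zeta z) c (ss_switch f z c) r]
  exact hn _ (switch hG c hz hev) r hr

theorem bb_ne (c : K) (hc : c ≠ 0) : bb c ≠ (false, false) := by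
  rw [Ne, bb_eq_zero]; exact hc

theorem frozen (hn : NoExt G s) (hG : Good G s f) (c : K) (hc : c ≠ 0) {t : V → V → V} {fx : V → V}
    (hT : Trans (hh f c) t fx) (a0 : V) (ha0 : rep s a0 = a0)
    (hrk : rk (pat s f a0) ≠ 0) (h4 : 4 ≤ pcn (vc (pat s f a0) (bb c))) :
    ∃ z, IsZ (hh f c) t z ∧
      (∀ v, ∑ w ∈ Finset.univ.filter (fun w => s.SameCycle v w), zeta z w = 0) ∧
      ¬ Triv (pat s f a0) (bb c) (msk s (zeta z) a0) ∧
      ∀ r, rep s r = r → s r ≠ r → rk (pat s f r) = 0 → Triv (pat s f r) (bb c) (msk s (zeta z) r) := by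
  -- freezing functionals
  have hex : ∀ r : V, ∃ t1 t2 : ℕ → Bool, sub (pat s f r) (bb c) t1 = true ∧ sub (pat s f r) (bb c) t2 = true ∧
      ev t1 = true ∧ ev t2 = true ∧
      (s r ≠ r → rk (pat s f r) = 0 →
      (∀ Z, sub (pat s f r) (bb c) Z = true → ev Z = true → ev (za t1 Z) = true → ev (za t2 Z) = true →
        Local.ext (sw (pat s f r) (bb c) Z) = false → Triv (pat s f r) (bb c) Z) ∧
      (∀ a b e : Bool, Local.ext (sw (pat s f r) (bb c)
          (fun i => xor (a && t1 i) (xor (b && t2 i) (e && om (bb c) (pat s f r i))))) = false →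
        Triv (pat s f r) (bb c) (fun i => xor (a && t1 i) (xor (b && t2 i) (e && om (bb c) (pat s f r i)))))) ∧
      (rk (pat s f r) ≠ 0 → t1 = (fun _ => false) ∧ t2 = (fun _ => false)) := by
    intro r
    by_cases h : s r ≠ r ∧ rk (pat s f r) = 0
    · obtain ⟨_, _, t1, t2, h1, h2, h3, h5, h6⟩ := L2 (pat s f r) (sum0_good hG r) (hn f hG r h.1) h.2 (bb c) (bb_ne c hc)
      exact ⟨t1, t2, h1, h2, h3, h5, fun _ _ => h6, fun h7 => absurd h.2 h7⟩
    · refine ⟨fun _ => false, fun _ => false, ?_, ?_, rfl, rfl, ?_, fun _ => ⟨rfl, rfl⟩⟩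
      · rw [sub_iff]; intro i _ h; cases h
      · rw [sub_iff]; intro i _ h; cases h
      · intro h1 h2; exact absurd ⟨h1, h2⟩ h
  choose t1 t2 g1 g2 g3 g4 g5 g6 using hex
  obtain ⟨w0, hw1, hw2, hw3, hw4⟩ := exists_w0 (pat s f a0) (bb c) h4
  rcases dualLoc hG c hT t1 t2 a0 ha0 w0 g1 g2 g3 g4 hw1 hw2 with ⟨z, hz, hev, k1, k2, k3⟩ | ⟨z, A, B, E, hz, hev, hmask⟩
  · refine ⟨z, hz, hev, ?_, ?_⟩
    · rintro (h | h)
      · have : ev (za w0 (msk s (zeta z) a0)) = ev (fun _ => false) := by
          apply ev_congr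
          intro i hi
          unfold za
          rw [h i hi]; simp
        rw [this] at k3
        exact absurd k3 (by decide)
      · have : ev (za w0 (msk s (zeta z) a0)) = ev w0 := by
          apply ev_congr
          intro i hi
          unfold za
          rw [h i hi]
          have := (sub_iff _ _ _).1 hw1 i hi
          cases hh : w0 i
          · rfl
          · rw [this hh]; rfl
        rw [this, hw2] at k3
        cases k3
    · intro r hr hmv hrk0
      apply (g5 r hmv hrk0).1
      · exact sub_msk s f (zeta z) c r (fun v hv => zeta_one c hT hz v hv)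
      · rw [ev_msk_iff s _ r (hG.six r)]; exact hev r
      · exact k1 r hr
      · exact k2 r hr
      · exact ext_switch hn hG c hz hev r hmv
  · refine ⟨z, hz, hev, ?_, ?_⟩
    · intro hcon
      have hm := hmask a0 ha0
      have hg := g6 a0 hrk
      rw [hg.1, hg.2] at hm
      cases hE : E a0
      · apply hw3
        apply triv_congr _ _ _ _ _ hcon
        intro i hi
        rw [hm i hi, hE]
        unfold comb
        simp
      · apply hw4
        apply triv_congr _ _ _ _ _ hcon
        intro i hi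
        rw [hm i hi, hE]
        unfold comb vc
        simp
    · intro r hr hmv hrk0
      have hra : r ≠ a0 := by
        rintro rfl; exact hrk hrk0
      have hm : ∀ i < 6, msk s (zeta z) r i =
          (fun i => xor (A r && t1 r i) (xor (B r && t2 r i) (E r && om (bb c) (pat s f r i)))) i := by
        intro i hi
        rw [hmask r hr i hi]
        unfold comb vc
        simp [hra]
      apply triv_congr _ _ _ _ (fun i hi => (hm i hi).symm)
      apply (g5 r hmv hrk0).2
      rw [← ext_switch hn hG c hz hev r hmv]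
      apply ext_congr
      intro i hi
      apply sw_congr _ _ _ _ _ i hi
      intro j hj
      exact (hm j hj).symm

theorem improve (hn : NoExt G s) (hG : Good G s f) (a0 : V) (ha0 : rep s a0 = a0) (hmv0 : s a0 ≠ a0)
    (hrk : rk (pat s f a0) ≠ 0) :
    ∃ f', Good G s f' ∧ rk (pat s f' a0) < rk (pat s f a0) ∧
      ∀ r, rep s r = r → s r ≠ r → rk (pat s f r) = 0 → rk (pat s f' r) = 0 := by
  obtain ⟨c2, hc2, h4, hL⟩ := L3 (pat s f a0) (sum0_good hG a0) (hn f hG a0 hmv0) hrk
  obtain ⟨c, rfl⟩ := bb_surj c2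
  have hc : c ≠ 0 := by
    rintro rfl; exact hc2 bb_zero
  obtain ⟨t, fx, hT⟩ := exists_trans (hh f c) (hh_irr hG c) (hh_symm hG c)
  obtain ⟨z, hz, hev, h1, h2⟩ := frozen hn hG c hc hT a0 ha0 hrk h4
  refine ⟨_, switch hG c hz hev, ?_, ?_⟩
  · rw [pat_sw s f _ (zeta z) c (ss_switch f z c) a0]
    apply hL
    · exact sub_msk s f (zeta z) c a0 (fun v hv => zeta_one c hT hz v hv)
    · rw [ev_msk_iff s _ a0 (hG.six a0)]; exact hev a0
    · exact ext_switch hn hG c hz hev a0 hmv0
    · exact h1
  · intro r hr hmv hrk0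
    rw [pat_sw s f _ (zeta z) c (ss_switch f z c) r]
    rcases h2 r hr hmv hrk0 with h | h
    · rw [← hrk0]
      apply rk_congr
      intro i hi
      unfold sw
      rw [h i hi]; rfl
    · have h5 := (L2 (pat s f r) (sum0_good hG r) (hn f hG r hmv) hrk0 (bb c) (bb_ne c hc)).2.1
      rw [← h5]
      apply rk_congr
      exact sw_congr _ _ _ _ h

theorem reach (hn : NoExt G s) (a0 : V) (ha0 : rep s a0 = a0) (hmv0 : s a0 ≠ a0) :
    ∀ (k : ℕ) (f : V → V → K), Good G s f → rk (pat s f a0) ≤ k →
    ∃ f', Good G s f' ∧ rk (pat s f' a0) = 0 ∧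
      ∀ r, rep s r = r → s r ≠ r → rk (pat s f r) = 0 → rk (pat s f' r) = 0 := by
  intro k
  induction k with
  | zero => intro f hG h; exact ⟨f, hG, by omega, fun _ _ _ h => h⟩
  | succ k ih =>
    intro f hG h
    by_cases h0 : rk (pat s f a0) = 0
    · exact ⟨f, hG, h0, fun _ _ _ h => h⟩
    obtain ⟨f1, hG1, h1, h2⟩ := improve hn hG a0 ha0 hmv0 h0
    obtain ⟨f2, hG2, h3, h4⟩ := ih f1 hG1 (by omega)
    exact ⟨f2, hG2, h3, fun r hr hmv h5 => h4 r hr hmv (h2 r hr hmv h5)⟩

theorem all_final (hn : NoExt G s) :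
    ∀ (k : ℕ) (f : V → V → K), Good G s f →
      (Finset.univ.filter (fun r => rep s r = r ∧ s r ≠ r ∧ rk (pat s f r) ≠ 0)).card ≤ k →
    ∃ f', Good G s f' ∧ ∀ r, rep s r = r → s r ≠ r → rk (pat s f' r) = 0 := by
  intro k
  induction k with
  | zero =>
    intro f hG h
    refine ⟨f, hG, ?_⟩
    intro r hr hmv
    by_contra hcon
    have : r ∈ Finset.univ.filter (fun r => rep s r = r ∧ s r ≠ r ∧ rk (pat s f r) ≠ 0) := by
      rw [Finset.mem_filter]; exact ⟨Finset.mem_univ _, hr, hmv, hcon⟩
    have h1 : (Finset.univ.filter (fun r => rep s r = r ∧ s r ≠ r ∧ rk (pat s f r) ≠ 0)) = ∅ :=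
      Finset.card_eq_zero.1 (by omega)
    rw [h1] at this
    exact absurd this (Finset.notMem_empty _)
  | succ k ih =>
    intro f hG h
    by_cases hex : ∃ r, rep s r = r ∧ s r ≠ r ∧ rk (pat s f r) ≠ 0
    · obtain ⟨a0, h1, h2, h3⟩ := hex
      obtain ⟨f', hG', h4, h5⟩ := reach hn a0 h1 h2 _ f hG le_rfl
      apply ih f' hG'
      have : (Finset.univ.filter (fun r => rep s r = r ∧ s r ≠ r ∧ rk (pat s f' r) ≠ 0)).card <
          (Finset.univ.filter (fun r => rep s r = r ∧ s r ≠ r ∧ rk (pat s f r) ≠ 0)).card := by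
        apply Finset.card_lt_card
        rw [Finset.ssubset_iff_of_subset]
        · refine ⟨a0, ?_, ?_⟩
          · rw [Finset.mem_filter]; exact ⟨Finset.mem_univ _, h1, h2, h3⟩
          · rw [Finset.mem_filter]; rintro ⟨_, _, _, h6⟩; exact h6 h4
        · intro r hr
          rw [Finset.mem_filter] at hr ⊢
          exact ⟨Finset.mem_univ _, hr.2.1, hr.2.2.1, fun h6 => hr.2.2.2 (h5 r hr.2.1 hr.2.2.1 h6)⟩
      omega
    · push Not at hex
      exact ⟨f, hG, hex⟩

theorem isZ_add {h : V → V → Prop} {t : V → V → V} {z z' : V → V → F2} (h1 : IsZ h t z) (h2 : IsZ h t z') :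
    IsZ h t (fun v u => z v u + z' v u) := by
  refine ⟨?_, ?_, ?_⟩
  · intro v u hn; rw [h1.supp v u hn, h2.supp v u hn, add_zero]
  · intro v u; rw [h1.symm v u, h2.symm v u]
  · intro v u hn; rw [h1.tau v u hn, h2.tau v u hn]

theorem zeta_add (z z' : V → V → F2) (v : V) : zeta (fun v u => z v u + z' v u) v = zeta z v + zeta z' v := by
  unfold zeta; rw [Finset.sum_add_distrib]

theorem msk_add (z z' : V → V → F2) (r : V) (i : ℕ) :
    msk s (zeta (fun v u => z v u + z' v u)) r i = xor (msk s (zeta z) r i) (msk s (zeta z') r i) := by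
  unfold msk
  rw [zeta_add]
  by_cases h : i < per s r
  · simp only [h, true_and]
    rw [xor_dec]
  · simp [h]

/-- the balance of all orbits -/
theorem mu_false (hn : NoExt G s) (hG : Good G s f) (c : K) (hc : c ≠ 0) {t : V → V → V} {fx : V → V}
    (hT : Trans (hh f c) t fx) {z : V → V → F2} (hz : IsZ (hh f c) t z)
    (hev : ∀ v, ∑ w ∈ Finset.univ.filter (fun w => s.SameCycle v w), zeta z w = 0)
    (r : V) (hr : rep s r = r) (hmv : s r ≠ r) (hrk : rk (pat s f r) = 0) :
    mu (pat s f r) (bb c) (msk s (zeta z) r) = false := by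
  by_contra hcon
  rw [Bool.not_eq_false] at hcon
  obtain ⟨w, hw1, hw2, hw3, hw4, hw5⟩ := L1 (pat s f r) (sum0_good hG r) (hn f hG r hmv) hrk (bb c) (bb_ne c hc)
    (msk s (zeta z) r) (sub_msk s f (zeta z) c r (fun v hv => zeta_one c hT hz v hv))
    (by rw [ev_msk_iff s _ r (hG.six r)]; exact hev r) (ext_switch hn hG c hz hev r hmv) hcon
  have hadd : ∀ z', IsZ (hh f c) t z' →
      (∀ v, ∑ w ∈ Finset.univ.filter (fun w => s.SameCycle v w), zeta z' w = 0) →
      Local.ext (sw (pat s f r) (bb c) (zx (msk s (zeta z') r) (msk s (zeta z) r))) = false := by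
    intro z' hz' hev'
    rw [← ext_switch hn hG c (isZ_add hz' hz) (by
      intro v
      simp only [zeta_add]
      rw [Finset.sum_add_distrib, hev, hev', add_zero]) r hmv]
    apply ext_congr
    apply sw_congr
    intro i _
    rw [msk_add]; rfl
  rcases dualLoc hG c hT (fun _ _ => false) (fun _ _ => false) r hr w
      (by intro r; rw [sub_iff]; intro i _ h; cases h) (by intro r; rw [sub_iff]; intro i _ h; cases h)
      (fun _ => rfl) (fun _ => rfl) hw1 hw2 with ⟨z', hz', hev', _, _, k3⟩ | ⟨z', A, B, E, hz', hev', hmask⟩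
  · have := hw5 (msk s (zeta z') r) (sub_msk s f (zeta z') c r (fun v hv => zeta_one c hT hz' v hv))
      (by rw [ev_msk_iff s _ r (hG.six r)]; exact hev' r) (ext_switch hn hG c hz' hev' r hmv) (hadd z' hz' hev')
    rw [this] at k3; cases k3
  · have hm := hmask r hr
    have q1 := ext_switch hn hG c hz' hev' r hmv
    have q2 := hadd z' hz' hev'
    cases hE : E r
    · have hm' : ∀ i < 6, msk s (zeta z') r i = w i := by
        intro i hi
        rw [hm i hi, hE]
        unfold comb; simp
      rcases hw3 with h | h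
      · rw [ext_congr _ _ (sw_congr _ _ _ _ hm'), h] at q1
        cases q1
      · rw [ext_congr _ _ (sw_congr _ _ _ (zx w (msk s (zeta z) r)) (fun i hi => by
          unfold zx; rw [hm' i hi])), h] at q2
        cases q2
    · have hm' : ∀ i < 6, msk s (zeta z') r i = zx w (vc (pat s f r) (bb c)) i := by
        intro i hi
        rw [hm i hi, hE]
        unfold comb zx; simp
      rcases hw4 with h | h
      · rw [ext_congr _ _ (sw_congr _ _ _ _ hm'), h] at q1
        cases q1
      · rw [ext_congr _ _ (sw_congr _ _ _ (zx w (zx (vc (pat s f r) (bb c)) (msk s (zeta z) r))) (fun i hi => by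
          unfold zx at hm' ⊢; rw [hm' i hi, Bool.xor_assoc])), h] at q2
        cases q2

theorem orientation (hn : NoExt G s) (hG : Good G s f) (hfin : ∀ r, rep s r = r → s r ≠ r → rk (pat s f r) = 0)
    (c : K) (hc : c ≠ 0) : ∃ (t : V → V → V) (fx : V → V) (o : V → V → F2) (y : V → F2),
      Trans (hh f c) t fx ∧ (∀ v u, hh f c v u → o v u + o u v = 1) ∧
      (∀ v u, hh f c v u → t v u ≠ u → o v u + o v (t v u) = 1) ∧
      (∀ v, Odd (dg (hh f c) v) → o v (fx v) = y (rep s v) + idx s f c v) := by
  obtain ⟨t, fx, hT⟩ := exists_trans (hh f c) (hh_irr hG c) (hh_symm hG c)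
  rcases orient hT (rep s) (idx s f c) with ⟨o, y, h1, h2, h3⟩ | ⟨z, hz, h1, h2⟩
  · exact ⟨t, fx, o, y, hT, h1, h2, h3⟩
  exfalso
  have hev := sum_rep s (zeta z) h1
  -- every orbit contributes zero
  have hterm : ∀ r, ((((Finset.univ.filter (fun v => zeta z v = 1)).filter (fun v => rep s v = r)).card / 2 : ℕ) : F2)
      + ∑ v ∈ Finset.univ.filter (fun v => rep s v = r), zeta z v * idx s f c v = 0 := by
    intro r
    by_cases hr : rep s r = r
    · have e1 : (Finset.univ.filter (fun v => zeta z v = 1)).filter (fun v => rep s v = r)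
          = Finset.univ.filter (fun w => s.SameCycle r w ∧ zeta z w = 1) := by
        ext v
        simp only [Finset.mem_filter, Finset.mem_univ, true_and]
        have : rep s v = r ↔ s.SameCycle r v := by
          rw [← rep_eq_iff, hr]; exact eq_comm
        rw [this]; tauto
      rw [e1, filter_rep s r hr]
      by_cases hmv : s r = r
      · have hz0 : ∀ v, s.SameCycle r v → zeta z v = 0 := by
          intro v hv
          have hv' : r = v := hv.eq_of_left hmv
          subst hv'
          apply f2_ne_one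
          intro h5
          have h6 := zeta_one c hT hz _ h5
          have h7 := hG.sum r
          have e : Finset.univ.filter (fun w => s.SameCycle r w) = {r} := by
            ext w
            rw [Finset.mem_filter, Finset.mem_singleton]
            constructor
            · rintro ⟨_, h8⟩; exact (h8.eq_of_left hmv).symm
            · rintro rfl; exact ⟨Finset.mem_univ _, Perm.SameCycle.refl _ _⟩
          rw [e, Finset.sum_singleton] at h7
          rw [h7, wf_zero] at h6
          exact absurd h6 (by decide)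
        have e2 : Finset.univ.filter (fun w => s.SameCycle r w ∧ zeta z w = 1) = ∅ := by
          ext w
          simp only [Finset.mem_filter, Finset.mem_univ, true_and, Finset.notMem_empty, iff_false]
          rintro ⟨h5, h6⟩
          rw [hz0 w h5] at h6
          exact absurd h6 (by decide)
        rw [e2]
        simp only [Finset.card_empty, Nat.zero_div, Nat.cast_zero, zero_add]
        apply Finset.sum_eq_zero
        intro v hv
        rw [Finset.mem_filter] at hv
        rw [hz0 v hv.2, zero_mul]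
      · exact mu_msk s f (zeta z) c r hr (hG.six r)
          (mu_false hn hG c hc hT hz hev r hr hmv (hfin r hr hmv))
    · have e1 : Finset.univ.filter (fun v => rep s v = r) = ∅ := by
        ext v
        simp only [Finset.mem_filter, Finset.mem_univ, true_and, Finset.notMem_empty, iff_false]
        intro h; exact hr (by rw [← h, rep_rep])
      have e2 : (Finset.univ.filter (fun v => zeta z v = 1)).filter (fun v => rep s v = r) = ∅ := by
        ext v
        simp only [Finset.mem_filter, Finset.mem_univ, true_and, Finset.notMem_empty, iff_false]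
        rintro ⟨_, h⟩; exact hr (by rw [← h, rep_rep])
      rw [e1, e2]; simp
  have heven : ∀ r, 2 * (((Finset.univ.filter (fun v => zeta z v = 1)).filter (fun v => rep s v = r)).card / 2)
      = ((Finset.univ.filter (fun v => zeta z v = 1)).filter (fun v => rep s v = r)).card := by
    intro r
    have h5 := h1 r
    have h6 : ∑ v ∈ Finset.univ.filter (fun v => rep s v = r), zeta z v =
        ((((Finset.univ.filter (fun v => zeta z v = 1)).filter (fun v => rep s v = r)).card : ℕ) : F2) := by
      rw [Finset.filter_filter, Finset.card_filter, Nat.cast_sum, Finset.sum_filter]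
      apply Finset.sum_congr rfl
      intro v _
      rcases f2_cases (zeta z v) with h7 | h7
      · rw [h7]; simp
      · rw [h7]; simp
    rw [h6, ZMod.natCast_eq_zero_iff_even] at h5
    obtain ⟨k, hk⟩ := h5
    rw [hk]; omega
  have hcard : (Finset.univ.filter (fun v => zeta z v = 1)).card =
      ∑ r, ((Finset.univ.filter (fun v => zeta z v = 1)).filter (fun v => rep s v = r)).card :=
    Finset.card_eq_sum_card_fiberwise (fun v _ => Finset.mem_univ _)
  have hcard2 : (Finset.univ.filter (fun v => zeta z v = 1)).card / 2 =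
      ∑ r, ((Finset.univ.filter (fun v => zeta z v = 1)).filter (fun v => rep s v = r)).card / 2 := by
    have : (Finset.univ.filter (fun v => zeta z v = 1)).card =
      2 * ∑ r, ((Finset.univ.filter (fun v => zeta z v = 1)).filter (fun v => rep s v = r)).card / 2 := by
      rw [hcard, Finset.mul_sum]
      apply Finset.sum_congr rfl
      intro r _
      exact (heven r).symm
    omega
  have hsum : ∑ v, zeta z v * idx s f c v =
      ∑ r, ∑ v ∈ Finset.univ.filter (fun v => rep s v = r), zeta z v * idx s f c v :=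
    (Finset.sum_fiberwise Finset.univ (rep s) _).symm
  rw [hcard2, hsum, Nat.cast_sum, ← Finset.sum_add_distrib, Finset.sum_eq_zero (fun r _ => hterm r)] at h2
  exact absurd h2 (by decide)

end kempe

end Pool.Agent.H90.Ocdc
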