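import Mathlib

set_option autoImplicit false
open scoped Classical

namespace Pool.Agent.H90.Ocdc

abbrev F2 := ZMod 2

theorem f2_cases (x : F2) : x = 0 ∨ x = 1 := by
  revert x; decide

theorem f2_add_self (x : F2) : x + x = 0 := by
  revert x; decide

theorem f2_ne_one {x : F2} (h : x ≠ 1) : x = 0 := by
  rcases f2_cases x with h' | h'
  · exact h'
  · exact absurd h' h

theorem f2_ne_zero {x : F2} (h : x ≠ 0) : x = 1 := by
  rcases f2_cases x with h' | h'
  · exact absurd h' h
  · exact h'

theorem f2_eq_of_add {x y : F2} (h : x + y = 0) : x = y := by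
  revert x y; decide

/-- The Fredholm alternative over `Z/2` in coordinates. -/
theorem fredholm {X Y : Type} [Fintype X] [Fintype Y] (L : (X → F2) →ₗ[F2] (Y → F2)) (b : Y → F2) :
    (∃ x, L x = b) ∨ (∃ a : Y → F2, (∀ x, ∑ y, a y * L x y = 0) ∧ ∑ y, a y * b y = 1) := by
  by_cases h : b ∈ LinearMap.range L
  · left; exact h
  · right
    obtain ⟨f, hf1, hf2⟩ := Submodule.exists_le_ker_of_notMem h
    have hsing : ∀ y : Y, (Pi.single y (1 : F2) : Y → F2) = fun j => if y = j then 1 else 0 := by
      intro y; ext j
      rw [Pi.single_apply]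
      by_cases hyj : y = j
      · rw [if_pos hyj, if_pos hyj.symm]
      · rw [if_neg hyj, if_neg (fun h => hyj h.symm)]
    refine ⟨fun y => f (Pi.single y 1), ?_, ?_⟩
    · intro x
      have h1 : f (L x) = 0 := hf2 ⟨x, rfl⟩
      rw [LinearMap.pi_apply_eq_sum_univ f (L x)] at h1
      refine Eq.trans ?_ h1
      apply Finset.sum_congr rfl
      intro y _
      beta_reduce
      rw [hsing y, smul_eq_mul, mul_comm]
    · have h1 : f b = 1 := f2_ne_zero hf1
      rw [LinearMap.pi_apply_eq_sum_univ f b] at h1
      refine Eq.trans ?_ h1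
      apply Finset.sum_congr rfl
      intro y _
      beta_reduce
      rw [hsing y, smul_eq_mul, mul_comm]

theorem coef_zero {X : Type} [Fintype X] (c : X → F2) (h : ∀ y : X → F2, ∑ x, c x * y x = 0) :
    ∀ x, c x = 0 := by
  intro x
  have := h (Pi.single x 1)
  rw [Finset.sum_eq_single x] at this
  · simpa using this
  · intro b _ hb; simp [hb]
  · intro h; exact absurd (Finset.mem_univ _) h

theorem exists_invol {V : Type} (d : V) (s : Finset V) :
    ∃ (t : V → V) (f : V), (∀ u, t (t u) = u) ∧ (∀ u ∈ s, t u ∈ s) ∧
      (∀ u ∈ s, (t u = u ↔ (Odd s.card ∧ u = f))) ∧ (Odd s.card → f ∈ s) := by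
  obtain ⟨n, hn⟩ : ∃ n, s.card = n := ⟨_, rfl⟩
  induction n using Nat.strong_induction_on generalizing s with
  | _ n ih =>
    rcases Finset.eq_empty_or_nonempty s with rfl | ⟨a, ha⟩
    · exact ⟨id, d, fun _ => rfl, by simp, by simp, by simp⟩
    by_cases hs : ∃ b ∈ s, b ≠ a
    · obtain ⟨b, hb, hba⟩ := hs
      have hb' : b ∈ s.erase a := Finset.mem_erase.2 ⟨hba, hb⟩
      have hc1 : (s.erase a).card + 1 = s.card := Finset.card_erase_add_one ha
      have hc2 : ((s.erase a).erase b).card + 1 = (s.erase a).card := Finset.card_erase_add_one hb'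
      obtain ⟨t', f', h1, h2, h3, h4⟩ := ih (((s.erase a).erase b).card) (by omega) _ rfl
      have hodd : Odd s.card ↔ Odd ((s.erase a).erase b).card := by
        rw [← hc1, ← hc2]
        constructor <;> intro h <;> (obtain ⟨k, hk⟩ := h)
        · exact ⟨k - 1, by omega⟩
        · exact ⟨k + 1, by omega⟩
      have mem' : ∀ u, u ∈ ((s.erase a).erase b) ↔ (u ≠ b ∧ u ≠ a ∧ u ∈ s) := by
        intro u; rw [Finset.mem_erase, Finset.mem_erase]
      refine ⟨fun u => if u ∈ ((s.erase a).erase b) then t' u else if u = a then b else
        if u = b then a else u, f', ?_, ?_, ?_, ?_⟩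
      · intro u
        by_cases hu : u ∈ ((s.erase a).erase b)
        · simp only [if_pos hu, if_pos (h2 u hu), h1]
        · have hna : a ∉ ((s.erase a).erase b) := by rw [mem']; tauto
          have hnb : b ∉ ((s.erase a).erase b) := by rw [mem']; tauto
          simp only [if_neg hu]
          by_cases hua : u = a
          · subst hua
            simp only [if_true]
            rw [if_neg hnb, if_neg hba]
          · rw [if_neg hua]
            by_cases hub : u = b
            · subst hub
              simp only [if_true]
              rw [if_neg hna]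
            · simp only [if_neg hub, if_neg hu, if_neg hua]
      · intro u hu
        dsimp only
        split_ifs with h5 h6 h7
        · have := h2 u h5
          rw [mem'] at this
          exact this.2.2
        · exact hb
        · exact ha
        · exact hu
      · intro u hu
        dsimp only
        rw [hodd]
        by_cases hu' : u ∈ ((s.erase a).erase b)
        · rw [if_pos hu']; exact h3 u hu'
        · rw [if_neg hu']
          have hf : ∀ x, x ∉ ((s.erase a).erase b) → ¬ (Odd ((s.erase a).erase b).card ∧ x = f') := by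
            rintro x hx ⟨h5, rfl⟩
            exact hx (h4 h5)
          have hu2 : u = a ∨ u = b := by
            rw [mem'] at hu'
            by_contra hcon
            push Not at hcon
            exact hu' ⟨hcon.2, hcon.1, hu⟩
          constructor
          · intro h5
            exfalso
            rcases hu2 with rfl | rfl
            · rw [if_pos rfl] at h5; exact hba h5
            · rw [if_neg hba, if_pos rfl] at h5; exact hba h5.symm
          · intro h5; exact absurd h5 (hf u hu')
      · intro h5
        have := h4 (hodd.1 h5)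
        rw [mem'] at this
        exact this.2.2
    · push Not at hs
      have : s = {a} := by
        ext x
        rw [Finset.mem_singleton]
        exact ⟨fun h => hs x h, fun h => h ▸ ha⟩
      subst this
      refine ⟨id, a, fun _ => rfl, by simp, ?_, by simp⟩
      intro u hu
      rw [Finset.mem_singleton] at hu
      subst hu
      simp

section trans
variable {V : Type} [Fintype V]

/-- number of `h`-neighbours -/
noncomputable def dg (h : V → V → Prop) (v : V) : ℕ := (Finset.univ.filter (fun u => h v u)).card

/-- A transition system: at every vertex the half-edges are paired, one is left over iff the number is odd. -/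
structure Trans (h : V → V → Prop) (t : V → V → V) (fx : V → V) : Prop where
  irr : ∀ v, ¬ h v v
  symm : ∀ v u, h v u → h u v
  inv : ∀ v u, t v (t v u) = u
  pres : ∀ v u, h v u → h v (t v u)
  fix : ∀ v u, h v u → (t v u = u ↔ (Odd (dg h v) ∧ u = fx v))
  fixmem : ∀ v, Odd (dg h v) → h v (fx v)

theorem exists_trans (h : V → V → Prop) (irr : ∀ v, ¬ h v v) (symm : ∀ v u, h v u → h u v) :
    ∃ t fx, Trans h t fx := by
  have := fun v => exists_invol v (Finset.univ.filter (fun u => h v u))
  choose t fx h1 h2 h3 h4 using this
  refine ⟨t, fx, irr, symm, h1, ?_, ?_, ?_⟩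
  · intro v u hu
    have := h2 v u (by simpa using hu)
    simpa using this
  · intro v u hu
    exact h3 v u (by simpa using hu)
  · intro v hv
    have := h4 v hv
    simpa using this

/-- closed sets of half-edges -/
structure IsZ (h : V → V → Prop) (t : V → V → V) (z : V → V → F2) : Prop where
  supp : ∀ v u, ¬ h v u → z v u = 0
  symm : ∀ v u, z v u = z u v
  tau : ∀ v u, h v u → z v (t v u) = z v u

noncomputable def zeta (z : V → V → F2) (v : V) : F2 := ∑ u, z v u

noncomputable def pp (h : V → V → Prop) (v : V) : F2 := if Odd (dg h v) then 1 else 0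

variable {h : V → V → Prop} {t : V → V → V} {fx : V → V}

/-- sums of functions that cancel along pairs -/
theorem sum_cancel {A : Type} [AddCommGroup A] (hT : Trans h t fx) (v : V) (F : V → A)
    (hs : ∀ u, ¬ h v u → F u = 0)
    (hc : ∀ u, h v u → t v u ≠ u → F u + F (t v u) = 0) :
    ∑ u, F u = if Odd (dg h v) then F (fx v) else 0 := by
  have e1 : ∑ u, F u = ∑ u ∈ Finset.univ.filter (fun u => h v u ∧ t v u ≠ u), F u
      + ∑ u ∈ Finset.univ.filter (fun u => ¬ (h v u ∧ t v u ≠ u)), F u :=
    (Finset.sum_filter_add_sum_filter_not _ _ _).symm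
  have e2 : ∑ u ∈ Finset.univ.filter (fun u => h v u ∧ t v u ≠ u), F u = 0 := by
    apply Finset.sum_involution (fun u _ => t v u)
    · intro u hu
      rw [Finset.mem_filter] at hu
      exact hc u hu.2.1 hu.2.2
    · intro u hu _
      rw [Finset.mem_filter] at hu
      exact hu.2.2
    · intro u hu
      rw [Finset.mem_filter] at hu ⊢
      refine ⟨Finset.mem_univ _, hT.pres v u hu.2.1, ?_⟩
      rw [hT.inv]
      exact fun h => hu.2.2 h.symm
    · intro u hu
      exact hT.inv v u
  rw [e1, e2, zero_add]
  split_ifs with ho
  · rw [Finset.sum_eq_single (fx v)]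
    · intro b hb hb'
      rw [Finset.mem_filter] at hb
      by_cases hbv : h v b
      · exfalso
        apply hb.2
        refine ⟨hbv, ?_⟩
        intro h5
        exact hb' ((hT.fix v b hbv).1 h5).2
      · exact hs b hbv
    · intro h5
      exfalso
      apply h5
      rw [Finset.mem_filter]
      refine ⟨Finset.mem_univ _, ?_⟩
      rintro ⟨h6, h7⟩
      exact h7 ((hT.fix v _ h6).2 ⟨ho, rfl⟩)
  · apply Finset.sum_eq_zero
    intro b hb
    rw [Finset.mem_filter] at hb
    by_cases hbv : h v b
    · exfalso
      apply hb.2
      refine ⟨hbv, ?_⟩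
      intro h5
      exact ho ((hT.fix v b hbv).1 h5).1
    · exact hs b hbv

theorem zeta_eq (hT : Trans h t fx) {z : V → V → F2} (hz : IsZ h t z) (v : V) :
    zeta z v = if Odd (dg h v) then z v (fx v) else 0 := by
  unfold zeta
  apply sum_cancel hT v (fun u => z v u) (hz.supp v)
  intro u hu _
  rw [hz.tau v u hu]
  exact f2_add_self _

theorem sum_swap (F : V × V → F2) : ∑ d : V × V, F d = ∑ d : V × V, F (d.2, d.1) := by
  apply Fintype.sum_equiv (Equiv.prodComm V V)
  intro d; rfl

theorem sum_tau (hT : Trans h t fx) (F : V × V → F2) :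
    ∑ d : V × V, F d = ∑ d : V × V, F (d.1, t d.1 d.2) := by
  let e : V × V ≃ V × V :=
    { toFun := fun d => (d.1, t d.1 d.2)
      invFun := fun d => (d.1, t d.1 d.2)
      left_inv := fun d => by simp [hT.inv]
      right_inv := fun d => by simp [hT.inv] }
  apply Fintype.sum_equiv e
  intro d
  simp [e, hT.inv]

theorem h_tau (hT : Trans h t fx) (v u : V) : h v (t v u) ↔ h v u := by
  constructor
  · intro h1
    have := hT.pres v _ h1
    rwa [hT.inv] at this
  · exact hT.pres v u

theorem sum_fx (F : V → F2) (y : V × V → F2) :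
    ∑ v, F v * y (v, fx v) = ∑ d : V × V, (if d.2 = fx d.1 then F d.1 else 0) * y d := by
  rw [Fintype.sum_prod_type]
  apply Finset.sum_congr rfl
  intro v _
  rw [Finset.sum_eq_single (fx v)]
  · simp
  · intro b _ hb; simp [hb]
  · intro h; exact absurd (Finset.mem_univ _) h

theorem dual {I : Type} [Fintype I] (hT : Trans h t fx) (c : I → V → F2) (w : V → F2) :
    (∃ z, IsZ h t z ∧ (∀ i, ∑ v, c i v * zeta z v = 0) ∧ ∑ v, w v * zeta z v = 1) ∨
    (∃ (z : V → V → F2) (l : I → F2), IsZ h t z ∧ ∀ v, zeta z v = pp h v * (w v + ∑ i, l i * c i v)) := by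
  let L : (V × V → F2) →ₗ[F2] ((V × V) ⊕ ((V × V) ⊕ (I ⊕ Unit)) → F2) :=
    { toFun := fun y => Sum.elim (fun d => (if h d.1 d.2 then (1 : F2) else 0) * (y d + y (d.2, d.1)))
        (Sum.elim (fun d => (if h d.1 d.2 then (1 : F2) else 0) * (y d + y (d.1, t d.1 d.2)))
        (Sum.elim (fun i => ∑ v, c i v * (pp h v * y (v, fx v)))
          (fun _ => ∑ v, w v * (pp h v * y (v, fx v)))))
      map_add' := by
        intro x y
        ext j
        rcases j with d | d | i | i
        · simp only [Sum.elim_inl, Pi.add_apply]; ring
        · simp only [Sum.elim_inl, Sum.elim_inr, Pi.add_apply]; ring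
        · simp only [Sum.elim_inl, Sum.elim_inr, Pi.add_apply]
          rw [← Finset.sum_add_distrib]
          apply Finset.sum_congr rfl
          intro v _; ring
        · simp only [Sum.elim_inr, Pi.add_apply]
          rw [← Finset.sum_add_distrib]
          apply Finset.sum_congr rfl
          intro v _; ring
      map_smul' := by
        intro r y
        ext j
        rcases j with d | d | i | i
        · simp only [Sum.elim_inl, Pi.smul_apply, smul_eq_mul, RingHom.id_apply]; ring
        · simp only [Sum.elim_inl, Sum.elim_inr, Pi.smul_apply, smul_eq_mul, RingHom.id_apply]; ring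
        · simp only [Sum.elim_inl, Sum.elim_inr, Pi.smul_apply, smul_eq_mul, RingHom.id_apply]
          rw [Finset.mul_sum]
          apply Finset.sum_congr rfl
          intro v _; ring
        · simp only [Sum.elim_inr, Pi.smul_apply, smul_eq_mul, RingHom.id_apply]
          rw [Finset.mul_sum]
          apply Finset.sum_congr rfl
          intro v _; ring }
  have hL1 : ∀ y d, L y (Sum.inl d) = (if h d.1 d.2 then (1 : F2) else 0) * (y d + y (d.2, d.1)) :=
    fun _ _ => rfl
  have hL2 : ∀ y d, L y (Sum.inr (Sum.inl d)) =
      (if h d.1 d.2 then (1 : F2) else 0) * (y d + y (d.1, t d.1 d.2)) := fun _ _ => rfl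
  have hL3 : ∀ y i, L y (Sum.inr (Sum.inr (Sum.inl i))) = ∑ v, c i v * (pp h v * y (v, fx v)) :=
    fun _ _ => rfl
  have hL4 : ∀ y i, L y (Sum.inr (Sum.inr (Sum.inr i))) = ∑ v, w v * (pp h v * y (v, fx v)) :=
    fun _ _ => rfl
  rcases fredholm L (Sum.elim (fun _ => 0) (Sum.elim (fun _ => 0) (Sum.elim (fun _ => 0) (fun _ => 1))))
    with ⟨y, hy⟩ | ⟨a, ha1, ha2⟩
  · left
    have hz : IsZ h t (fun v u => if h v u then y (v, u) else 0) := by
      refine ⟨?_, ?_, ?_⟩
      · intro v u hn; simp only [if_neg hn]
      · intro v u
        by_cases hvu : h v u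
        · rw [if_pos hvu, if_pos (hT.symm _ _ hvu)]
          have := congrFun hy (Sum.inl (v, u))
          rw [hL1] at this
          simp only [if_pos hvu, one_mul, Sum.elim_inl] at this
          exact f2_eq_of_add this
        · rw [if_neg hvu, if_neg (fun h' => hvu (hT.symm _ _ h'))]
      · intro v u hvu
        rw [if_pos hvu, if_pos (hT.pres _ _ hvu)]
        have := congrFun hy (Sum.inr (Sum.inl (v, u)))
        rw [hL2] at this
        simp only [if_pos hvu, one_mul, Sum.elim_inr, Sum.elim_inl] at this
        exact (f2_eq_of_add this).symm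
    have hzeta : ∀ v, zeta (fun v u => if h v u then y (v, u) else 0) v = pp h v * y (v, fx v) := by
      intro v
      rw [zeta_eq hT hz v]
      unfold pp
      split_ifs with h1 h2
      · simp
      · exact absurd (hT.fixmem v h1) h2
      · simp
    refine ⟨_, hz, ?_, ?_⟩
    · intro i
      have := congrFun hy (Sum.inr (Sum.inr (Sum.inl i)))
      rw [hL3] at this
      simp only [Sum.elim_inr, Sum.elim_inl] at this
      refine Eq.trans ?_ this
      apply Finset.sum_congr rfl
      intro v _; rw [hzeta]
    · have := congrFun hy (Sum.inr (Sum.inr (Sum.inr ())))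
      rw [hL4] at this
      simp only [Sum.elim_inr] at this
      refine Eq.trans ?_ this
      apply Finset.sum_congr rfl
      intro v _; rw [hzeta]
  · right
    simp only [Fintype.sum_sum_type, Sum.elim_inl, Sum.elim_inr, mul_zero, Finset.sum_const_zero,
      zero_add, mul_one, Finset.univ_unique, Finset.sum_singleton] at ha2
    -- coefficient identity
    have hco : ∀ d : V × V, a (Sum.inl d) * (if h d.1 d.2 then (1 : F2) else 0)
        + a (Sum.inl (d.2, d.1)) * (if h d.2 d.1 then (1 : F2) else 0)
        + a (Sum.inr (Sum.inl d)) * (if h d.1 d.2 then (1 : F2) else 0)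
        + a (Sum.inr (Sum.inl (d.1, t d.1 d.2))) * (if h d.1 d.2 then (1 : F2) else 0)
        + (if d.2 = fx d.1 then pp h d.1 * (w d.1 + ∑ i, a (Sum.inr (Sum.inr (Sum.inl i))) * c i d.1) else 0) = 0 := by
      apply coef_zero
      intro y
      have h1 := ha1 y
      simp only [Fintype.sum_sum_type, Finset.univ_unique, Finset.sum_singleton, hL1, hL2, hL3, hL4] at h1
      refine Eq.trans ?_ h1
      have e1 : ∑ d : V × V, a (Sum.inl d) * ((if h d.1 d.2 then (1 : F2) else 0) * (y d + y (d.2, d.1)))
          = ∑ d : V × V, (a (Sum.inl d) * (if h d.1 d.2 then (1 : F2) else 0)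
        + a (Sum.inl (d.2, d.1)) * (if h d.2 d.1 then (1 : F2) else 0)) * y d := by
        have : ∑ d : V × V, a (Sum.inl d) * ((if h d.1 d.2 then (1 : F2) else 0) * y (d.2, d.1))
          = ∑ d : V × V, a (Sum.inl (d.2, d.1)) * ((if h d.2 d.1 then (1 : F2) else 0) * y d) := by
          rw [sum_swap]
        simp only [mul_add, add_mul, Finset.sum_add_distrib, this]
        congr 1
        · apply Finset.sum_congr rfl; intro d _; ring
        · apply Finset.sum_congr rfl; intro d _; ring
      have e2 : ∑ d : V × V, a (Sum.inr (Sum.inl d)) * ((if h d.1 d.2 then (1 : F2) else 0) * (y d + y (d.1, t d.1 d.2)))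
          = ∑ d : V × V, (a (Sum.inr (Sum.inl d)) * (if h d.1 d.2 then (1 : F2) else 0)
        + a (Sum.inr (Sum.inl (d.1, t d.1 d.2))) * (if h d.1 d.2 then (1 : F2) else 0)) * y d := by
        have : ∑ d : V × V, a (Sum.inr (Sum.inl d)) * ((if h d.1 d.2 then (1 : F2) else 0) * y (d.1, t d.1 d.2))
          = ∑ d : V × V, a (Sum.inr (Sum.inl (d.1, t d.1 d.2))) * ((if h d.1 d.2 then (1 : F2) else 0) * y d) := by
          rw [sum_tau hT]
          apply Finset.sum_congr rfl
          intro d _
          simp only [hT.inv, h_tau hT]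
        simp only [mul_add, add_mul, Finset.sum_add_distrib, this]
        congr 1
        · apply Finset.sum_congr rfl; intro d _; ring
        · apply Finset.sum_congr rfl; intro d _; ring
      have e3 : ∑ i, a (Sum.inr (Sum.inr (Sum.inl i))) * ∑ v, c i v * (pp h v * y (v, fx v))
          + a (Sum.inr (Sum.inr (Sum.inr default))) * ∑ v, w v * (pp h v * y (v, fx v))
          = ∑ d : V × V, (if d.2 = fx d.1 then pp h d.1 * (w d.1 + ∑ i, a (Sum.inr (Sum.inr (Sum.inl i))) * c i d.1) else 0) * y d := by
        rw [← sum_fx (fx := fx) (fun v => pp h v * (w v + ∑ i, a (Sum.inr (Sum.inr (Sum.inl i))) * c i v)) y]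
        have : a (Sum.inr (Sum.inr (Sum.inr default))) = 1 := ha2
        rw [this, one_mul]
        simp only [Finset.mul_sum]
        rw [Finset.sum_comm, ← Finset.sum_add_distrib]
        apply Finset.sum_congr rfl
        intro v _
        rw [mul_add, add_mul, add_comm, Finset.mul_sum, Finset.sum_mul]
        congr 1
        · ring
        · apply Finset.sum_congr rfl
          intro i _; ring
      rw [e1, e2, e3, ← Finset.sum_add_distrib, ← Finset.sum_add_distrib]
      apply Finset.sum_congr rfl
      intro d _; ring
    have hz : IsZ h t (fun v u => if h v u then a (Sum.inl (v, u)) + a (Sum.inl (u, v)) else 0) := by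
      refine ⟨?_, ?_, ?_⟩
      · intro v u hn; simp only [if_neg hn]
      · intro v u
        by_cases hvu : h v u
        · rw [if_pos hvu, if_pos (hT.symm _ _ hvu), add_comm]
        · rw [if_neg hvu, if_neg (fun h' => hvu (hT.symm _ _ h'))]
      · intro v u hvu
        have hvu' := hT.pres _ _ hvu
        by_cases htu : t v u = u
        · rw [htu]
        · rw [if_pos hvu, if_pos hvu']
          have h1 := hco (v, u)
          have h2 := hco (v, t v u)
          have nf : ∀ x, h v x → t v x ≠ x → x = fx v → pp h v = 0 := by
            intro x hx htx hxf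
            unfold pp
            rw [if_neg]
            intro ho
            exact htx ((hT.fix v x hx).2 ⟨ho, hxf⟩)
          simp only [if_pos hvu, if_pos (hT.symm _ _ hvu), mul_one] at h1
          simp only [if_pos hvu', if_pos (hT.symm _ _ hvu'), mul_one, hT.inv] at h2
          have z1 : (if u = fx v then pp h v * (w v + ∑ i, a (Sum.inr (Sum.inr (Sum.inl i))) * c i v) else 0) = 0 := by
            split_ifs with h5
            · rw [nf u hvu htu h5, zero_mul]
            · rfl
          have z2 : (if t v u = fx v then pp h v * (w v + ∑ i, a (Sum.inr (Sum.inr (Sum.inl i))) * c i v) else 0) = 0 := by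
            split_ifs with h5
            · rw [nf _ hvu' (by rw [hT.inv]; exact fun h => htu h.symm) h5, zero_mul]
            · rfl
          rw [z1] at h1
          rw [z2] at h2
          generalize a (Sum.inl (v, u)) = x1 at *
          generalize a (Sum.inl (u, v)) = x2 at *
          generalize a (Sum.inl (v, t v u)) = x3 at *
          generalize a (Sum.inl (t v u, v)) = x4 at *
          generalize a (Sum.inr (Sum.inl (v, u))) = x5 at *
          generalize a (Sum.inr (Sum.inl (v, t v u))) = x6 at *
          clear z1 z2 hco ha1 ha2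
          revert x1 x2 x3 x4 x5 x6
          decide
    refine ⟨_, fun i => a (Sum.inr (Sum.inr (Sum.inl i))), hz, ?_⟩
    intro v
    rw [zeta_eq hT hz v]
    unfold pp
    by_cases ho : Odd (dg h v)
    · rw [if_pos ho, if_pos ho, one_mul]
      have hm := hT.fixmem v ho
      rw [if_pos hm]
      have h1 := hco (v, fx v)
      have hf : t v (fx v) = fx v := (hT.fix v _ hm).2 ⟨ho, rfl⟩
      have hp : pp h v = 1 := by unfold pp; rw [if_pos ho]
      simp only [if_pos hm, if_pos (hT.symm _ _ hm), mul_one, hf, if_true, hp, one_mul] at h1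
      generalize w v + ∑ i, a (Sum.inr (Sum.inr (Sum.inl i))) * c i v = y at *
      generalize a (Sum.inl (v, fx v)) = x1 at *
      generalize a (Sum.inl (fx v, v)) = x2 at *
      generalize a (Sum.inr (Sum.inl (v, fx v))) = x3 at *
      clear hco ha1 ha2 hp
      revert x1 x2 x3 y
      decide
    · rw [if_neg ho, if_neg ho, zero_mul]

end trans

end Pool.Agent.H90.Ocdc
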