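import Mathlib

set_option autoImplicit false

namespace Pool.Agent.H90.Ocdc.Local

/-- Colours `(a, b)` of `(Z/2)^2`, coded by Booleans. -/
abbrev B2 := Bool × Bool

def bx (a b : B2) : B2 := (xor a.1 b.1, xor a.2 b.2)
def bz (a : B2) : Bool := !a.1 && !a.2
def om (c a : B2) : Bool := xor (c.1 && a.2) (c.2 && a.1)

/-- forces the evaluation of the argument -/
def fB (b : Bool) (k : Bool → Bool) : Bool := bif b then k true else k false
def f2 (x : B2) (k : B2 → Bool) : Bool := fB x.1 fun a => fB x.2 fun b => k (a, b)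

theorem f2_eq (x : B2) (k : B2 → Bool) : f2 x k = k x := by
  rcases x with ⟨a, b⟩; cases a <;> cases b <;> rfl

/-- prefix test -/
def ext1 (P : ℕ → B2) (x : B2) : Bool :=
  f2 (bx x (P 0)) fun x0 => !bz x0 && f2 (bx x0 (P 1)) fun x1 => !bz x1 &&
  f2 (bx x1 (P 2)) fun x2 => !bz x2 && f2 (bx x2 (P 3)) fun x3 => !bz x3 &&
  f2 (bx x3 (P 4)) fun x4 => !bz x4 && f2 (bx x4 (P 5)) fun x5 => !bz x5

/-- the circuit can be coloured -/
def ext (P : ℕ → B2) : Bool := ext1 P (true, false) || (ext1 P (false, true) || ext1 P (true, true))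

def sw (P : ℕ → B2) (c : B2) (Z : ℕ → Bool) : ℕ → B2 := fun i => bif Z i then bx (P i) c else P i

/-- `Z` is contained in `V_c`. -/
def sub (P : ℕ → B2) (c : B2) (Z : ℕ → Bool) : Bool :=
  (!Z 0 || om c (P 0)) && ((!Z 1 || om c (P 1)) && ((!Z 2 || om c (P 2)) && ((!Z 3 || om c (P 3)) &&
  ((!Z 4 || om c (P 4)) && (!Z 5 || om c (P 5))))))

def ev (Z : ℕ → Bool) : Bool := !(xor (Z 0) (xor (Z 1) (xor (Z 2) (xor (Z 3) (xor (Z 4) (Z 5))))))
def zx (Z W : ℕ → Bool) : ℕ → Bool := fun i => xor (Z i) (W i)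
def za (Z W : ℕ → Bool) : ℕ → Bool := fun i => Z i && W i
def vc (P : ℕ → B2) (c : B2) : ℕ → Bool := fun i => om c (P i)
def pcn (Z : ℕ → Bool) : ℕ :=
  (Z 0).toNat + ((Z 1).toNat + ((Z 2).toNat + ((Z 3).toNat + ((Z 4).toNat + (Z 5).toNat))))

/-- the parity `|Z|/2 + ∑ idx` -/
def mu (P : ℕ → B2) (c : B2) (Z : ℕ → Bool) : Bool :=
  xor ((pcn Z / 2) % 2 == 1)
  (xor (Z 1 && om c (P 0))
  (xor (Z 2 && (xor (om c (P 0)) (om c (P 1))))
  (xor (Z 3 && (xor (om c (P 0)) (xor (om c (P 1)) (om c (P 2)))))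
  (xor (Z 4 && (xor (om c (P 0)) (xor (om c (P 1)) (xor (om c (P 2)) (om c (P 3))))))
  (Z 5 && (xor (om c (P 0)) (xor (om c (P 1)) (xor (om c (P 2)) (xor (om c (P 3)) (om c (P 4))))))))))) 

def eq2 (a b : B2) : Bool := bz (bx a b)

/-- rank of a non extendable pattern -/
def rk (P : ℕ → B2) : ℕ :=
  let z := (bz (P 0)).toNat + ((bz (P 1)).toNat + ((bz (P 2)).toNat + ((bz (P 3)).toNat +
    ((bz (P 4)).toNat + (bz (P 5)).toNat))))
  bif z == 1 then 0 else bif Nat.ble 2 z then 1 else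
  let q := (eq2 (P 0) (P 1)).toNat + ((eq2 (P 1) (P 2)).toNat + ((eq2 (P 2) (P 3)).toNat +
    ((eq2 (P 3) (P 4)).toNat + ((eq2 (P 4) (P 5)).toNat + (eq2 (P 5) (P 0)).toNat))))
  let r := (eq2 (P 0) (P 3)).toNat + ((eq2 (P 1) (P 4)).toNat + (eq2 (P 2) (P 5)).toNat)
  bif r == 3 || q == 3 then 0 else bif q == 2 then 2 else 1

def allB (f : Bool → Bool) : Bool := f true && f false
def all2 (f : B2 → Bool) : Bool := allB fun a => allB fun b => f (a, b)
def anyB (f : Bool → Bool) : Bool := f true || f false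

def mk6 {α : Type} (a0 a1 a2 a3 a4 a5 : α) : ℕ → α := fun i =>
  match i with
  | 0 => a0
  | 1 => a1
  | 2 => a2
  | 3 => a3
  | 4 => a4
  | _ => a5

def allV (v : Bool) (f : Bool → Bool) : Bool := bif v then f true && f false else f false
def anyV (v : Bool) (f : Bool → Bool) : Bool := bif v then f true || f false else f false

def allZ (P : ℕ → B2) (c : B2) (f : (ℕ → Bool) → Bool) : Bool :=
  allV (om c (P 0)) fun z0 => allV (om c (P 1)) fun z1 => allV (om c (P 2)) fun z2 =>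
  allV (om c (P 3)) fun z3 => allV (om c (P 4)) fun z4 => allV (om c (P 5)) fun z5 =>
    f (mk6 z0 z1 z2 z3 z4 z5)
def anyZ (P : ℕ → B2) (c : B2) (f : (ℕ → Bool) → Bool) : Bool :=
  anyV (om c (P 0)) fun z0 => anyV (om c (P 1)) fun z1 => anyV (om c (P 2)) fun z2 =>
  anyV (om c (P 3)) fun z3 => anyV (om c (P 4)) fun z4 => anyV (om c (P 5)) fun z5 =>
    f (mk6 z0 z1 z2 z3 z4 z5)
def allP (f : (ℕ → B2) → Bool) : Bool :=
  all2 fun p0 => all2 fun p1 => all2 fun p2 => all2 fun p3 => all2 fun p4 =>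
    f2 (bx p0 (bx p1 (bx p2 (bx p3 p4)))) fun p5 => f (mk6 p0 p1 p2 p3 p4 p5)
/-- forced evaluation of the switched pattern -/
def swk (P : ℕ → B2) (c : B2) (Z : ℕ → Bool) (k : (ℕ → B2) → Bool) : Bool :=
  f2 (sw P c Z 0) fun a0 => f2 (sw P c Z 1) fun a1 => f2 (sw P c Z 2) fun a2 =>
  f2 (sw P c Z 3) fun a3 => f2 (sw P c Z 4) fun a4 => f2 (sw P c Z 5) fun a5 =>
    k (mk6 a0 a1 a2 a3 a4 a5)
def exs (P : ℕ → B2) (c : B2) (Z : ℕ → Bool) : Bool := swk P c Z fun Q => ext Q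
def allC (f : B2 → Bool) : Bool := f (true, false) && (f (false, true) && f (true, true))
def anyC (f : B2 → Bool) : Bool := f (true, false) || (f (false, true) || f (true, true))

/-- is `Z` empty or everything on `V_c` -/
def triv (P : ℕ → B2) (c : B2) (Z : ℕ → Bool) : Bool := pcn Z == 0 || pcn (zx Z (vc P c)) == 0

def l1b (P : ℕ → B2) : Bool :=
  ext P || (!(rk P == 0) || allC fun c => allZ P c fun Z =>
    !(ev Z) || (exs P c Z || (!(mu P c Z) ||
      anyZ P c fun w => ev w && ((exs P c w || exs P c (zx w Z)) &&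
        ((exs P c (zx w (vc P c)) || exs P c (zx w (zx (vc P c) Z))) &&
          allZ P c fun S => !(ev S) || (exs P c S || (exs P c (zx S Z) ||
            ev (za w S))))))))

def tb (m : ℕ) : ℕ → Bool := fun i => Nat.testBit m i

/-- good pair of freezing functionals -/
def frz (P : ℕ → B2) (c : B2) (t1 t2 : ℕ → Bool) : Bool :=
  sub P c t1 && (sub P c t2 && (ev t1 && (ev t2 &&
  ((allZ P c fun Z => !(ev Z) || (!(ev (za t1 Z)) || (!(ev (za t2 Z)) ||
    (triv P c Z || exs P c Z)))) &&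
  (allB fun a => allB fun b => allB fun e =>
    triv P c (fun i => xor (a && t1 i) (xor (b && t2 i) (e && vc P c i))) ||
    exs P c (fun i => xor (a && t1 i) (xor (b && t2 i) (e && vc P c i)))))))) 

def cands : List (ℕ × ℕ) := [(0,0),(0,3),(0,33),(0,6),(0,12),(0,5),(0,18),(3,20),(5,10),(17,34)]

def l2b (P : ℕ → B2) : Bool :=
  ext P || (!(rk P == 0) || allC fun c =>
    (!exs P c (vc P c)) && ((swk P c (vc P c) fun Q => rk Q == 0) &&
      cands.any fun t => frz P c (tb t.1) (tb t.2)))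

def l3b (P : ℕ → B2) : Bool :=
  ext P || ((rk P == 0) || anyC fun c =>
    Nat.ble 4 (pcn (vc P c)) && (allZ P c fun Z => !(ev Z) || (triv P c Z ||
      (exs P c Z || swk P c Z fun Q => Nat.blt (rk Q) (rk P)))))

theorem l3_chk : allP l3b = true := by decide +kernel
theorem l2_chk : allP l2b = true := by decide +kernel
theorem l1_chk : allP l1b = true := by decide +kernel

end Pool.Agent.H90.Ocdc.Local
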