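import Pool.Agent.H90.Ocdc.Step

set_option autoImplicit false
set_option linter.unusedSectionVars false
open scoped Classical

namespace Pool.Agent.H90.Ocdc

open Equiv (Perm)
open Local

theorem ext_congr (P Q : ℕ → B2) (h : ∀ i < 6, P i = Q i) : Local.ext P = Local.ext Q := by
  unfold Local.ext ext1
  rw [h 0 (by omega), h 1 (by omega), h 2 (by omega), h 3 (by omega), h 4 (by omega), h 5 (by omega)]

theorem rk_congr (P Q : ℕ → B2) (h : ∀ i < 6, P i = Q i) : rk P = rk Q := by
  unfold rk
  rw [h 0 (by omega), h 1 (by omega), h 2 (by omega), h 3 (by omega), h 4 (by omega), h 5 (by omega)]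

theorem ev_congr (P Q : ℕ → Bool) (h : ∀ i < 6, P i = Q i) : ev P = ev Q := by
  unfold ev
  rw [h 0 (by omega), h 1 (by omega), h 2 (by omega), h 3 (by omega), h 4 (by omega), h 5 (by omega)]

theorem sub_iff (P : ℕ → B2) (c : B2) (Z : ℕ → Bool) :
    sub P c Z = true ↔ ∀ i < 6, Z i = true → om c (P i) = true := by
  unfold sub
  simp only [Bool.and_eq_true, Bool.or_eq_true, Bool.not_eq_true']
  constructor
  · rintro ⟨h0, h1, h2, h3, h4, h5⟩ i hi hz
    interval_cases i <;> simp_all
  · intro h
    have key : ∀ i < 6, Z i = false ∨ om c (P i) = true := by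
      intro i hi
      cases hz : Z i
      · left; rfl
      · right; exact h i hi hz
    exact ⟨key 0 (by omega), key 1 (by omega), key 2 (by omega), key 3 (by omega), key 4 (by omega),
      key 5 (by omega)⟩

theorem sw_congr (P : ℕ → B2) (c : B2) (Z W : ℕ → Bool) (h : ∀ i < 6, Z i = W i) :
    ∀ i < 6, sw P c Z i = sw P c W i := by
  intro i hi
  unfold sw
  rw [h i hi]

theorem om_bx (c a b : B2) : om c (bx a b) = xor (om c a) (om c b) := by
  revert a b c; decide

theorem ev_vc (P : ℕ → B2) (c : B2) (h : sum0 P) : ev (vc P c) = true := by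
  unfold ev vc
  rw [h]
  simp only [om_bx]
  generalize om c (P 0) = b0
  generalize om c (P 1) = b1
  generalize om c (P 2) = b2
  generalize om c (P 3) = b3
  generalize om c (P 4) = b4
  revert b0 b1 b2 b3 b4; decide

/-- four term combination -/
def comb (x a b e : Bool) (w t1 t2 v : ℕ → Bool) : ℕ → Bool :=
  fun i => xor (x && w i) (xor (a && t1 i) (xor (b && t2 i) (e && v i)))

theorem ev_xor (Z W : ℕ → Bool) (h1 : ev Z = true) (h2 : ev W = true) :
    ev (fun i => xor (Z i) (W i)) = true := by
  have q : ∀ a b c d : Bool, xor (xor a b) (xor c d) = xor (xor a c) (xor b d) := by decide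
  unfold ev at *
  simp only [Bool.not_eq_true'] at *
  rw [q (Z 4) (W 4) (Z 5) (W 5), q (Z 3) (W 3), q (Z 2) (W 2), q (Z 1) (W 1), q (Z 0) (W 0), h1, h2]
  rfl

theorem ev_and (x : Bool) (Z : ℕ → Bool) (h1 : ev Z = true) : ev (fun i => x && Z i) = true := by
  cases x
  · rfl
  · exact h1

theorem ev_comb (x a b e : Bool) (w t1 t2 v : ℕ → Bool) (hw : ev w = true) (h1 : ev t1 = true)
    (h2 : ev t2 = true) (hv : ev v = true) : ev (comb x a b e w t1 t2 v) = true := by
  unfold comb
  exact ev_xor _ _ (ev_and x w hw) (ev_xor _ _ (ev_and a t1 h1) (ev_xor _ _ (ev_and b t2 h2) (ev_and e v hv)))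

section main
variable {V : Type} [Fintype V]

/-- local function as a vertex function -/
noncomputable def lf (s : Perm V) (r : V) (w : ℕ → Bool) (v : V) : F2 :=
  if rep s v = r ∧ w (ix s r v) = true then 1 else 0

theorem pair_lf (s : Perm V) (r : V) (hr : rep s r = r) (w : ℕ → Bool) (z : V → F2) :
    ∑ v, lf s r w v * z v = ∑ i ∈ Finset.range (per s r), if w i = true then z (it s r i) else 0 := by
  have e1 : ∑ v, lf s r w v * z v = ∑ v ∈ Finset.univ.filter (fun v => rep s v = r),
      (if w (ix s r v) = true then z v else 0) := by
    rw [Finset.sum_filter]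
    apply Finset.sum_congr rfl
    intro v _
    unfold lf
    by_cases h1 : rep s v = r
    · by_cases h2 : w (ix s r v) = true
      · simp [h1, h2]
      · simp [h1, h2]
    · simp [h1]
  rw [e1, filter_rep s r hr, sum_orbit]
  apply Finset.sum_congr rfl
  intro i hi
  rw [Finset.mem_range] at hi
  rw [ix_it s r i hi]

theorem sum_rep (s : Perm V) (z : V → F2) (h : ∀ r, ∑ v ∈ Finset.univ.filter (fun v => rep s v = r), z v = 0)
    (v : V) : ∑ w ∈ Finset.univ.filter (fun w => s.SameCycle v w), z w = 0 := by
  rw [← h (rep s v)]
  apply Finset.sum_congr _ (fun _ _ => rfl)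
  ext w
  simp only [Finset.mem_filter, Finset.mem_univ, true_and]
  rw [← rep_eq_iff]
  exact eq_comm

variable {G : SimpleGraph V} {s : Perm V} {f : V → V → K}

theorem sum0_good (hG : Good G s f) (r : V) : sum0 (pat s f r) :=
  sum0_pat s f r (hG.six r) (hG.sum r)

theorem dualLoc (hG : Good G s f) (c : K) {t : V → V → V} {fx : V → V} (hT : Trans (hh f c) t fx)
    (t1 t2 : V → ℕ → Bool) (a0 : V) (ha0 : rep s a0 = a0) (w0 : ℕ → Bool)
    (s1 : ∀ r, sub (pat s f r) (bb c) (t1 r) = true) (s2 : ∀ r, sub (pat s f r) (bb c) (t2 r) = true)
    (e1 : ∀ r, ev (t1 r) = true) (e2 : ∀ r, ev (t2 r) = true)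
    (sw0 : sub (pat s f a0) (bb c) w0 = true) (ew0 : ev w0 = true) :
    (∃ z, IsZ (hh f c) t z ∧
      (∀ v, ∑ w ∈ Finset.univ.filter (fun w => s.SameCycle v w), zeta z w = 0) ∧
      (∀ r, rep s r = r → ev (za (t1 r) (msk s (zeta z) r)) = true) ∧
      (∀ r, rep s r = r → ev (za (t2 r) (msk s (zeta z) r)) = true) ∧
      ev (za w0 (msk s (zeta z) a0)) = false) ∨
    (∃ (z : V → V → F2) (A B E : V → Bool), IsZ (hh f c) t z ∧
      (∀ v, ∑ w ∈ Finset.univ.filter (fun w => s.SameCycle v w), zeta z w = 0) ∧
      (∀ r, rep s r = r → ∀ i < 6, msk s (zeta z) r i =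
        comb (decide (r = a0)) (A r) (B r) (E r) w0 (t1 r) (t2 r) (vc (pat s f r) (bb c)) i)) := by
  let C : V ⊕ (V ⊕ V) → V → F2 := Sum.elim (fun r v => if rep s v = r then 1 else 0)
    (Sum.elim (fun r v => lf s r (t1 r) v) (fun r v => lf s r (t2 r) v))
  rcases dual hT C (lf s a0 w0) with ⟨z, hz, h1, h2⟩ | ⟨z, l, hz, h1⟩
  · left
    refine ⟨z, hz, ?_, ?_, ?_, ?_⟩
    · apply sum_rep
      intro r
      have := h1 (Sum.inl r)
      simp only [C, Sum.elim_inl] at this
      rw [Finset.sum_filter]
      refine Eq.trans ?_ this
      apply Finset.sum_congr rfl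
      intro v _
      by_cases h : rep s v = r
      · simp [h]
      · simp [h]
    · intro r hr
      have := h1 (Sum.inr (Sum.inl r))
      simp only [C, Sum.elim_inl, Sum.elim_inr] at this
      rw [pair_lf s r hr] at this
      rw [ev_za_iff s _ r (hG.six r)]
      exact this
    · intro r hr
      have := h1 (Sum.inr (Sum.inr r))
      simp only [C, Sum.elim_inr] at this
      rw [pair_lf s r hr] at this
      rw [ev_za_iff s _ r (hG.six r)]
      exact this
    · rw [pair_lf s a0 ha0] at h2
      by_contra hcon
      rw [Bool.not_eq_false, ev_za_iff s _ a0 (hG.six a0), h2] at hcon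
      exact absurd hcon (by decide)
  · right
    have hmask : ∀ r, rep s r = r → ∀ i < 6, msk s (zeta z) r i =
        comb (decide (r = a0)) (decide (l (Sum.inr (Sum.inl r)) = 1)) (decide (l (Sum.inr (Sum.inr r)) = 1))
          (decide (l (Sum.inl r) = 1)) w0 (t1 r) (t2 r) (vc (pat s f r) (bb c)) i := by
      intro r hr i hi6
      unfold comb vc
      rw [om_pat]
      unfold msk
      by_cases hi : i < per s r
      · rw [h1, pp_eq]
        have hs1 := (sub_iff _ _ _).1 (s1 r) i hi6
        have hs2 := (sub_iff _ _ _).1 (s2 r) i hi6
        rw [om_pat] at hs1 hs2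
        have hw : r = a0 → w0 i = true → decide (i < per s r ∧ wf c (ss f (it s r i)) = 1) = true := by
          rintro rfl hw
          have := (sub_iff _ _ _).1 sw0 i hi6 hw
          rwa [om_pat] at this
        have hsum : ∑ j, l j * C j (it s r i) = l (Sum.inl r) +
            (l (Sum.inr (Sum.inl r)) * (if t1 r i = true then 1 else 0) +
            l (Sum.inr (Sum.inr r)) * (if t2 r i = true then 1 else 0)) := by
          rw [Fintype.sum_sum_type, Fintype.sum_sum_type]
          simp only [C, Sum.elim_inl, Sum.elim_inr]
          have hrep : rep s (it s r i) = r := by rw [rep_it, hr]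
          congr 1
          · rw [Finset.sum_eq_single r]
            · rw [if_pos hrep, mul_one]
            · intro b _ hb
              rw [if_neg (fun h => hb (h.symm.trans hrep)), mul_zero]
            · intro h; exact absurd (Finset.mem_univ _) h
          · congr 1
            · rw [Finset.sum_eq_single r]
              · unfold lf
                rw [ix_it s r i hi]
                simp only [hrep, true_and]
              · intro b _ hb
                unfold lf
                rw [if_neg (fun h => hb (h.1.symm.trans hrep)), mul_zero]
              · intro h; exact absurd (Finset.mem_univ _) h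
            · rw [Finset.sum_eq_single r]
              · unfold lf
                rw [ix_it s r i hi]
                simp only [hrep, true_and]
              · intro b _ hb
                unfold lf
                rw [if_neg (fun h => hb (h.1.symm.trans hrep)), mul_zero]
              · intro h; exact absurd (Finset.mem_univ _) h
        have hlf : lf s a0 w0 (it s r i) = if (decide (r = a0) && w0 i) = true then 1 else 0 := by
          unfold lf
          have hrep : rep s (it s r i) = r := by rw [rep_it, hr]
          rw [hrep]
          by_cases h : r = a0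
          · subst h
            rw [ix_it s r i hi]
            simp
          · simp [h]
        rw [hsum, hlf]
        simp only [hi, true_and] at hs1 hs2 hw ⊢
        generalize l (Sum.inl r) = x1
        generalize l (Sum.inr (Sum.inl r)) = x2
        generalize l (Sum.inr (Sum.inr r)) = x3
        rcases f2_cases (wf c (ss f (it s r i))) with h5 | h5
        · rw [h5] at hs1 hs2 hw ⊢
          have k1 : t1 r i = false := by
            cases hh : t1 r i
            · rfl
            · exact absurd (hs1 hh) (by decide)
          have k2 : t2 r i = false := by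
            cases hh : t2 r i
            · rfl
            · exact absurd (hs2 hh) (by decide)
          have k3 : (decide (r = a0) && w0 i) = false := by
            by_cases h6 : r = a0
            · cases hh : w0 i
              · simp
              · exact absurd (hw h6 hh) (by decide)
            · simp [h6]
          rw [k1, k2, k3]
          simp
        · rw [h5]
          generalize (decide (r = a0) && w0 i) = y0
          generalize t1 r i = y1
          generalize t2 r i = y2
          revert x1 x2 x3 y0 y1 y2
          decide
      · have hv : om (bb c) (pat s f r i) = false := by rw [om_pat]; simp [hi]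
        have k1 : t1 r i = false := by
          cases hh : t1 r i
          · rfl
          · have := (sub_iff _ _ _).1 (s1 r) i hi6 hh
            rw [hv] at this; cases this
        have k2 : t2 r i = false := by
          cases hh : t2 r i
          · rfl
          · have := (sub_iff _ _ _).1 (s2 r) i hi6 hh
            rw [hv] at this; cases this
        have k3 : (decide (r = a0) && w0 i) = false := by
          by_cases h6 : r = a0
          · subst h6
            cases hh : w0 i
            · simp
            · have := (sub_iff _ _ _).1 sw0 i hi6 hh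
              rw [hv] at this; cases this
          · simp [h6]
        rw [k1, k2, k3]
        simp [hi]
    refine ⟨z, _, _, _, hz, ?_, hmask⟩
    apply sum_rep
    intro r
    by_cases hr : rep s r = r
    · rw [filter_rep s r hr, ← ev_msk_iff s _ r (hG.six r), ev_congr _ _ (hmask r hr)]
      exact ev_comb _ _ _ _ _ _ _ _ ew0 (e1 r) (e2 r) (ev_vc _ _ (sum0_good hG r))
    · apply Finset.sum_eq_zero
      intro v hv
      rw [Finset.mem_filter] at hv
      exact absurd (by rw [← hv.2, rep_rep]) hr

end main

end Pool.Agent.H90.Ocdc
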