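import Mathlib

set_option autoImplicit false
set_option linter.unusedSectionVars false
open scoped Classical

namespace Pool.Agent.H90.Ocdc

open Equiv

section orbit
variable {V : Type} [Fintype V] (s : Perm V)

/-- length of the orbit of `r` -/
noncomputable def per (r : V) : ℕ := Function.minimalPeriod s r

/-- the `i`-th element of the orbit of `r` -/
def it (r : V) (i : ℕ) : V := (⇑s)^[i] r

theorem it_zero (r : V) : it s r 0 = r := rfl

theorem it_succ (r : V) (i : ℕ) : it s r (i + 1) = s (it s r i) := by
  unfold it; rw [Function.iterate_succ_apply']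

theorem it_eq_pow (r : V) (i : ℕ) : it s r i = (s ^ i) r := by
  unfold it; rw [Perm.coe_pow]

theorem per_pos (r : V) : 0 < per s r := by
  unfold per
  apply Function.minimalPeriod_pos_of_mem_periodicPts
  obtain ⟨n, hn, h⟩ : ∃ n, 0 < n ∧ (s ^ n) = 1 := ⟨orderOf s, orderOf_pos s, pow_orderOf_eq_one s⟩
  refine ⟨n, hn, ?_⟩
  unfold Function.IsPeriodicPt Function.IsFixedPt
  rw [← Perm.coe_pow, h]; rfl

theorem it_per (r : V) : it s r (per s r) = r := Function.isPeriodicPt_minimalPeriod s r

theorem it_inj (r : V) (i j : ℕ) (hi : i < per s r) (hj : j < per s r) (h : it s r i = it s r j) : i = j := by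
  have := Function.iterate_injOn_Iio_minimalPeriod (f := s) (x := r)
  exact this (Set.mem_Iio.2 hi) (Set.mem_Iio.2 hj) h

theorem same_it (r : V) (i : ℕ) : s.SameCycle r (it s r i) := by
  rw [it_eq_pow, Perm.sameCycle_pow_right]

theorem exists_it (r v : V) (h : s.SameCycle r v) : ∃ i, i < per s r ∧ it s r i = v := by
  obtain ⟨n, hn⟩ := h.exists_nat_pow_eq
  refine ⟨n % per s r, Nat.mod_lt _ (per_pos s r), ?_⟩
  unfold it per
  rw [Function.iterate_mod_minimalPeriod_eq, ← Perm.coe_pow]
  exact hn

theorem per_le (r : V) (n : ℕ) (hn : 0 < n) (h : (s ^ n) r = r) : per s r ≤ n := by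
  unfold per
  apply Function.IsPeriodicPt.minimalPeriod_le hn
  unfold Function.IsPeriodicPt Function.IsFixedPt
  rw [← Perm.coe_pow]; exact h

/-- index of `v` in the orbit of `r` -/
noncomputable def ix (r v : V) : ℕ := if h : ∃ i, it s r i = v then Nat.find h else 0

theorem ix_it (r : V) (i : ℕ) (hi : i < per s r) : ix s r (it s r i) = i := by
  have h : ∃ j, it s r j = it s r i := ⟨i, rfl⟩
  unfold ix
  rw [dif_pos h]
  have h1 := Nat.find_spec h
  have h2 : Nat.find h ≤ i := Nat.find_min' h rfl
  exact it_inj s r _ _ (by omega) hi h1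

theorem ix_lt (r v : V) (h : s.SameCycle r v) : ix s r v < per s r := by
  obtain ⟨i, hi, rfl⟩ := exists_it s r v h
  rw [ix_it s r i hi]; exact hi

theorem it_ix (r v : V) (h : s.SameCycle r v) : it s r (ix s r v) = v := by
  obtain ⟨i, hi, rfl⟩ := exists_it s r v h
  rw [ix_it s r i hi]

theorem ix_self (r : V) : ix s r r = 0 := by
  have := ix_it s r 0 (per_pos s r)
  rwa [it_zero] at this

theorem ix_succ (r v : V) (h : s.SameCycle r v) (hlt : ix s r v + 1 < per s r) :
    ix s r (s v) = ix s r v + 1 := by
  have h1 := it_ix s r v h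
  have h2 : it s r (ix s r v + 1) = s v := by rw [it_succ, h1]
  rw [← h2, ix_it s r _ hlt, h2] at *

theorem ix_last (r v : V) (h : s.SameCycle r v) (hlt : ix s r v + 1 = per s r) : s v = r := by
  have h1 := it_ix s r v h
  rw [← h1, ← it_succ, hlt, it_per]

theorem sum_orbit {A : Type} [AddCommMonoid A] (r : V) (F : V → A) :
    ∑ w ∈ Finset.univ.filter (fun w => s.SameCycle r w), F w = ∑ i ∈ Finset.range (per s r), F (it s r i) := by
  symm
  apply Finset.sum_bij (fun i _ => it s r i)
  · intro i _
    rw [Finset.mem_filter]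
    exact ⟨Finset.mem_univ _, same_it s r i⟩
  · intro i hi j hj h
    rw [Finset.mem_range] at hi hj
    exact it_inj s r i j hi hj h
  · intro v hv
    rw [Finset.mem_filter] at hv
    obtain ⟨i, hi, h⟩ := exists_it s r v hv.2
    exact ⟨i, Finset.mem_range.2 hi, h⟩
  · intro i _; rfl

theorem sum_range_six {A : Type} [AddCommMonoid A] (n : ℕ) (hn : n ≤ 6) (F : ℕ → A) :
    ∑ i ∈ Finset.range n, F i = ∑ i ∈ Finset.range 6, if i < n then F i else 0 := by
  rw [← Finset.sum_filter]
  apply Finset.sum_congr _ (fun _ _ => rfl)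
  ext i
  rw [Finset.mem_filter, Finset.mem_range, Finset.mem_range]
  omega

/-- representative of the orbit -/
noncomputable def rep (v : V) : V := @Quotient.out V (Perm.SameCycle.setoid s) (@Quotient.mk V (Perm.SameCycle.setoid s) v)

theorem same_rep (v : V) : s.SameCycle (rep s v) v := by
  unfold rep
  exact @Quotient.mk_out V (Perm.SameCycle.setoid s) v

theorem rep_eq (v w : V) (h : s.SameCycle v w) : rep s v = rep s w := by
  unfold rep
  congr 1
  exact @Quotient.sound V (Perm.SameCycle.setoid s) v w h

theorem rep_eq_iff (v w : V) : rep s v = rep s w ↔ s.SameCycle v w := by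
  constructor
  · intro h
    have h1 := same_rep s v
    have h2 := same_rep s w
    rw [h] at h1
    exact h1.symm.trans h2
  · exact rep_eq s v w

theorem rep_rep (v : V) : rep s (rep s v) = rep s v := rep_eq s _ _ (same_rep s v)

theorem rep_s (v : V) : rep s (s v) = rep s v := by
  apply rep_eq
  rw [Perm.sameCycle_apply_left]

theorem rep_it (r : V) (i : ℕ) : rep s (it s r i) = rep s r := (rep_eq s _ _ (same_it s r i)).symm

theorem filter_rep (r : V) (hr : rep s r = r) :
    Finset.univ.filter (fun v => rep s v = r) = Finset.univ.filter (fun w => s.SameCycle r w) := by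
  ext v
  simp only [Finset.mem_filter, Finset.mem_univ, true_and]
  rw [← rep_eq_iff, hr]
  exact eq_comm

/-- cumulative sums along the orbit -/
noncomputable def cum {A : Type} [AddCommMonoid A] (f : V → A) (r v : V) : A :=
  ∑ j ∈ Finset.range (ix s r v), f (it s r j)

theorem cum_self {A : Type} [AddCommMonoid A] (f : V → A) (r : V) : cum s f r r = 0 := by
  unfold cum; rw [ix_self]; simp

theorem cum_s {A : Type} [AddCommMonoid A] (f : V → A) (r v : V) (h : s.SameCycle r v)
    (h0 : ∑ w ∈ Finset.univ.filter (fun w => s.SameCycle r w), f w = 0) :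
    cum s f r (s v) = cum s f r v + f v := by
  rw [sum_orbit] at h0
  have hv := it_ix s r v h
  rcases Nat.lt_or_ge (ix s r v + 1) (per s r) with hlt | hge
  · unfold cum
    rw [ix_succ s r v h hlt, Finset.sum_range_succ, hv]
  · have h1 := ix_lt s r v h
    have h2 : ix s r v + 1 = per s r := by omega
    rw [ix_last s r v h h2, cum_self]
    rw [← h2, Finset.sum_range_succ, hv] at h0
    unfold cum
    exact h0.symm

theorem moved_iff (v w : V) (h : s.SameCycle v w) : s v = v ↔ s w = w := h.apply_eq_self_iff

theorem per_fixed (v : V) (h : s v = v) : per s v = 1 := by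
  unfold per
  rw [Function.minimalPeriod_eq_one_iff_isFixedPt]
  exact h

end orbit

end Pool.Agent.H90.Ocdc
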