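import Pool.Agent.H90.Ocdc.Bridge

set_option autoImplicit false
set_option linter.unusedSectionVars false
open scoped Classical

namespace Pool.Agent.H90.Ocdc

open Equiv (Perm)
open Local

section step
variable {V : Type} [Fintype V]

/-- the configuration: disjoint circuits given by `s`, colouring `f` -/
structure Good (G : SimpleGraph V) (s : Perm V) (f : V → V → K) : Prop where
  adj : ∀ v, s v ≠ v → G.Adj v (s v)
  two : ∀ v, s v ≠ v → s (s v) ≠ v
  six : ∀ v, per s v ≤ 6
  symm : ∀ u v, f u v = f v u
  nadj : ∀ u v, ¬ G.Adj u v → f u v = 0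
  zero : ∀ u v, G.Adj u v → (f u v = 0 ↔ s u = v ∨ s v = u)
  sum : ∀ v, ∑ w ∈ Finset.univ.filter (fun w => s.SameCycle v w), ss f w = 0

def hh (f : V → V → K) (c : K) (v u : V) : Prop := wf c (f v u) = 1

theorem hh_irr {G : SimpleGraph V} {s : Perm V} {f : V → V → K} (hG : Good G s f) (c : K) (v : V) :
    ¬ hh f c v v := by
  unfold hh
  rw [hG.nadj v v (G.irrefl), wf_zero]
  decide

theorem hh_symm {G : SimpleGraph V} {s : Perm V} {f : V → V → K} (hG : Good G s f) (c : K) (v u : V)
    (h : hh f c v u) : hh f c u v := by
  unfold hh at *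
  rw [hG.symm]; exact h

theorem odd_dg (f : V → V → K) (c : K) (v : V) : Odd (dg (hh f c) v) ↔ wf c (ss f v) = 1 := by
  have h1 : wf c (ss f v) = ((dg (hh f c) v : ℕ) : F2) := by
    unfold ss dg hh
    rw [wf_sum, Finset.card_filter, Nat.cast_sum]
    apply Finset.sum_congr rfl
    intro u _
    rcases f2_cases (wf c (f v u)) with h | h
    · rw [h]; simp
    · rw [h]; simp
  rw [h1]
  constructor
  · rintro ⟨k, hk⟩
    rw [hk]
    push_cast
    have : (2 : F2) = 0 := rfl
    rw [this]; simp
  · intro h
    rw [← Nat.not_even_iff_odd]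
    rintro ⟨k, hk⟩
    rw [hk] at h
    push_cast at h
    rw [f2_add_self] at h
    exact absurd h (by decide)

theorem pp_eq (f : V → V → K) (c : K) (v : V) : pp (hh f c) v = wf c (ss f v) := by
  unfold pp
  simp only [odd_dg]
  rcases f2_cases (wf c (ss f v)) with h | h
  · rw [h]; simp
  · rw [h]; simp

theorem zeta_one {f : V → V → K} (c : K)
    {t : V → V → V} {fx : V → V} (hT : Trans (hh f c) t fx) {z : V → V → F2}
    (hz : IsZ (hh f c) t z) (v : V) (h : zeta z v = 1) : wf c (ss f v) = 1 := by
  rw [zeta_eq hT hz] at h
  split_ifs at h with h1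
  · exact (odd_dg f c v).1 h1
  · exact absurd h (by decide)

theorem ss_switch (f : V → V → K) (z : V → V → F2) (c : K) (v : V) :
    ss (fun u v => f u v + z u v • c) v = ss f v + zeta z v • c := by
  unfold ss zeta
  rw [Finset.sum_add_distrib, Finset.sum_smul]

theorem switch {G : SimpleGraph V} {s : Perm V} {f : V → V → K} (hG : Good G s f) (c : K)
    {t : V → V → V} {z : V → V → F2} (hz : IsZ (hh f c) t z)
    (hev : ∀ v, ∑ w ∈ Finset.univ.filter (fun w => s.SameCycle v w), zeta z w = 0) :
    Good G s (fun u v => f u v + z u v • c) := by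
  have hz1 : ∀ u v, z u v = 0 ∨ (z u v = 1 ∧ wf c (f u v) = 1) := by
    intro u v
    rcases f2_cases (z u v) with h | h
    · left; exact h
    · right
      refine ⟨h, ?_⟩
      by_contra hcon
      rw [hz.supp u v hcon] at h
      exact absurd h (by decide)
  refine ⟨hG.adj, hG.two, hG.six, ?_, ?_, ?_, ?_⟩
  · intro u v
    rw [hG.symm u v, hz.symm u v]
  · intro u v h
    rcases hz1 u v with h1 | ⟨h1, h2⟩
    · rw [h1, hG.nadj u v h]; simp
    · rw [hG.nadj u v h, wf_zero] at h2
      exact absurd h2 (by decide)
  · intro u v h
    rw [← hG.zero u v h]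
    rcases hz1 u v with h1 | ⟨h1, h2⟩
    · rw [h1, zero_smul, add_zero]
    · rw [h1, one_smul]
      constructor
      · intro h3; exact absurd h3 (wf_ne' c _ h2)
      · intro h3; exact absurd h3 (wf_ne c _ h2).1
  · intro v
    simp only [ss_switch]
    rw [Finset.sum_add_distrib, hG.sum v, ← Finset.sum_smul, hev v]
    simp

/-- removing an orbit -/
noncomputable def rem (s : Perm V) (r : V) : Perm V where
  toFun v := if s.SameCycle r v then v else s v
  invFun v := if s.SameCycle r v then v else s.symm v
  left_inv := by
    intro v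
    by_cases h : s.SameCycle r v
    · simp only [if_pos h]
    · simp only [if_neg h]
      rw [if_neg, Equiv.symm_apply_apply]
      rw [Perm.sameCycle_apply_right]; exact h
  right_inv := by
    intro v
    by_cases h : s.SameCycle r v
    · simp only [if_pos h]
    · simp only [if_neg h]
      rw [if_neg, Equiv.apply_symm_apply]
      rw [Perm.sameCycle_symm_apply_right]; exact h

theorem rem_in (s : Perm V) (r v : V) (h : s.SameCycle r v) : rem s r v = v := by
  show (if s.SameCycle r v then v else s v) = v
  rw [if_pos h]

theorem rem_out (s : Perm V) (r v : V) (h : ¬ s.SameCycle r v) : rem s r v = s v := by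
  show (if s.SameCycle r v then v else s v) = s v
  rw [if_neg h]

theorem rem_it (s : Perm V) (r v : V) (h : ¬ s.SameCycle r v) (i : ℕ) : it (rem s r) v i = it s v i := by
  induction i with
  | zero => rfl
  | succ i ih =>
    rw [it_succ, it_succ, ih]
    apply rem_out
    intro h1
    exact h (h1.trans (same_it s v i).symm)

theorem rem_same_out (s : Perm V) (r v w : V) (h : ¬ s.SameCycle r v) :
    (rem s r).SameCycle v w ↔ s.SameCycle v w := by
  constructor
  · intro h1
    obtain ⟨i, _, hi⟩ := exists_it (rem s r) v w h1
    rw [rem_it s r v h] at hi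
    rw [← hi]; exact same_it s v i
  · intro h1
    obtain ⟨i, _, hi⟩ := exists_it s v w h1
    rw [← rem_it s r v h] at hi
    rw [← hi]; exact same_it _ v i

theorem rem_same_in (s : Perm V) (r v w : V) (h : s.SameCycle r v) :
    (rem s r).SameCycle v w ↔ v = w := by
  constructor
  · intro h1
    exact h1.eq_of_left (rem_in s r v h)
  · rintro rfl; exact Perm.SameCycle.refl _ _

theorem ext_spec (P : ℕ → B2) (h : ext P = true) : ∃ x : K, x ≠ 0 ∧ ∀ i < 6, ∀ y : ℕ → K,
    (∀ j < 6, P j = bb (y j)) → x + ∑ j ∈ Finset.range (i + 1), y j ≠ 0 := by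
  have key : ∀ x : K, ext1 P (bb x) = true → ∀ i < 6, ∀ y : ℕ → K,
    (∀ j < 6, P j = bb (y j)) → x + ∑ j ∈ Finset.range (i + 1), y j ≠ 0 := by
    intro x hx i hi y hy
    unfold ext1 at hx
    rw [hy 0 (by omega), hy 1 (by omega), hy 2 (by omega), hy 3 (by omega), hy 4 (by omega),
      hy 5 (by omega)] at hx
    simp only [f2_eq, Bool.and_eq_true, Bool.not_eq_true', ← bb_add, bz_bb, decide_eq_false_iff_not] at hx
    obtain ⟨h0, h1, h2, h3, h4, h5⟩ := hx
    interval_cases i <;> simp only [Finset.sum_range_succ, Finset.sum_range_zero, zero_add, ← add_assoc] <;>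
      assumption
  unfold ext at h
  rw [Bool.or_eq_true, Bool.or_eq_true] at h
  rcases h with h | h | h
  · obtain ⟨x, hx⟩ := bb_surj (true, false)
    rw [← hx] at h
    refine ⟨x, ?_, key x h⟩
    rintro rfl; rw [bb_zero] at hx; exact absurd hx (by decide)
  · obtain ⟨x, hx⟩ := bb_surj (false, true)
    rw [← hx] at h
    refine ⟨x, ?_, key x h⟩
    rintro rfl; rw [bb_zero] at hx; exact absurd hx (by decide)
  · obtain ⟨x, hx⟩ := bb_surj (true, true)
    rw [← hx] at h
    refine ⟨x, ?_, key x h⟩
    rintro rfl; rw [bb_zero] at hx; exact absurd hx (by decide)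

theorem k_add_self (x : K) : x + x = 0 := by
  revert x; decide

theorem removal {G : SimpleGraph V} {s : Perm V} {f : V → V → K} (hG : Good G s f) (r : V)
    (hr : s r ≠ r) (he : ext (pat s f r) = true) :
    ∃ s' f', Good G s' f' ∧ (Finset.univ.filter (fun v => s' v ≠ v)).card
      < (Finset.univ.filter (fun v => s v ≠ v)).card := by
  obtain ⟨x, hx0, hx⟩ := ext_spec _ he
  -- colours on the circuit
  let O : V → Prop := fun v => s.SameCycle r v
  let psi : V → K := fun v => x + (cum s (ss f) r v + ss f v)
  have hpsi1 : ∀ v, O v → psi (s v) = psi v + ss f (s v) := by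
    intro v hv
    simp only [psi]
    rw [cum_s s (ss f) r v hv (hG.sum r)]
    abel
  have hpsi0 : ∀ v, O v → psi v ≠ 0 := by
    intro v hv
    simp only [psi]
    have hlt := ix_lt s r v hv
    have h6 := hG.six r
    have h1 := hx (ix s r v) (by omega) (fun j => if j < per s r then ss f (it s r j) else 0) (by
      intro j _
      unfold pat
      split_ifs
      · rfl
      · exact bb_zero.symm)
    have h2 : ∑ j ∈ Finset.range (ix s r v + 1), (if j < per s r then ss f (it s r j) else 0)
        = cum s (ss f) r v + ss f v := by
      unfold cum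
      have e : ∑ j ∈ Finset.range (ix s r v + 1), (if j < per s r then ss f (it s r j) else 0)
          = ∑ j ∈ Finset.range (ix s r v + 1), ss f (it s r j) := by
        apply Finset.sum_congr rfl
        intro j hj
        rw [Finset.mem_range] at hj
        rw [if_pos (by omega)]
      rw [e, Finset.sum_range_succ, it_ix s r v hv]
    rw [h2] at h1
    exact h1
  have hOs : ∀ v, O (s v) ↔ O v := fun v => Perm.sameCycle_apply_right
  have hmv : ∀ v, O v → s v ≠ v := by
    intro v hv h
    exact hr ((moved_iff s r v hv).2 h)
  let g : V → V → K := fun u v => f u v + ((if O u ∧ s u = v then psi u else 0) +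
    (if O v ∧ s v = u then psi v else 0))
  refine ⟨rem s r, g, ⟨?_, ?_, ?_, ?_, ?_, ?_, ?_⟩, ?_⟩
  · intro v hv
    by_cases h : O v
    · exact absurd (rem_in s r v h) hv
    · rw [rem_out s r v h] at hv ⊢
      exact hG.adj v hv
  · intro v hv
    by_cases h : O v
    · exact absurd (rem_in s r v h) hv
    · rw [rem_out s r v h] at hv ⊢
      rw [rem_out s r _ (fun h' => h ((hOs v).1 h'))]
      exact hG.two v hv
  · intro v
    by_cases h : O v
    · rw [per_fixed _ _ (rem_in s r v h)]; norm_num
    · have h1 := it_per s v
      rw [← rem_it s r v h, it_eq_pow] at h1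
      exact le_trans (per_le (rem s r) v _ (per_pos s v) h1) (hG.six v)
  · intro u v
    simp only [g]
    rw [hG.symm u v]
    congr 1
    exact add_comm _ _
  · intro u v h
    simp only [g]
    rw [hG.nadj u v h, if_neg, if_neg]
    · simp
    · rintro ⟨h1, rfl⟩
      exact h (hG.adj v (hmv v h1)).symm
    · rintro ⟨h1, rfl⟩
      exact h (hG.adj u (hmv u h1))
  · intro u v h
    simp only [g]
    by_cases h1 : O u ∧ s u = v
    · obtain ⟨h1, rfl⟩ := h1
      have h2 : ¬ (O (s u) ∧ s (s u) = u) := fun h2 => hG.two u (hmv u h1) h2.2
      rw [if_pos ⟨h1, rfl⟩, if_neg h2, add_zero]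
      have h3 : f u (s u) = 0 := (hG.zero u _ h).2 (Or.inl rfl)
      rw [h3, zero_add, rem_in s r u h1, rem_in s r _ ((hOs u).2 h1)]
      constructor
      · intro h4; exact absurd h4 (hpsi0 u h1)
      · rintro (h4 | h4)
        · exact absurd h4.symm (hmv u h1)
        · exact absurd h4 (hmv u h1)
    · by_cases h2 : O v ∧ s v = u
      · obtain ⟨h2, rfl⟩ := h2
        rw [if_neg h1, if_pos ⟨h2, rfl⟩, zero_add]
        have h3 : f (s v) v = 0 := (hG.zero _ v h).2 (Or.inr rfl)
        rw [h3, zero_add, rem_in s r v h2, rem_in s r _ ((hOs v).2 h2)]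
        constructor
        · intro h4; exact absurd h4 (hpsi0 v h2)
        · rintro (h4 | h4)
          · exact absurd h4 (hmv v h2)
          · exact absurd h4.symm (hmv v h2)
      · rw [if_neg h1, if_neg h2, add_zero, add_zero, hG.zero u v h]
        constructor
        · rintro (h3 | h3)
          · left
            rw [rem_out s r u (fun h' => h1 ⟨h', h3⟩)]; exact h3
          · right
            rw [rem_out s r v (fun h' => h2 ⟨h', h3⟩)]; exact h3
        · rintro (h3 | h3)
          · by_cases h4 : O u
            · rw [rem_in s r u h4] at h3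
              exact absurd h3 h.ne
            · rw [rem_out s r u h4] at h3
              exact Or.inl h3
          · by_cases h4 : O v
            · rw [rem_in s r v h4] at h3
              exact absurd h3.symm h.ne
            · rw [rem_out s r v h4] at h3
              exact Or.inr h3
  · -- sums
    have hss : ∀ v, ss g v = ss f v + ((if O v then psi v else 0) + (if O v then psi (s.symm v) else 0)) := by
      intro v
      unfold ss
      simp only [g]
      rw [Finset.sum_add_distrib, Finset.sum_add_distrib]
      congr 2
      · rw [Finset.sum_eq_single (s v)]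
        · by_cases h : O v
          · rw [if_pos ⟨h, rfl⟩, if_pos h]
          · rw [if_neg (fun h' => h h'.1), if_neg h]
        · intro b _ hb
          rw [if_neg (fun h' => hb h'.2.symm)]
        · intro h; exact absurd (Finset.mem_univ _) h
      · rw [Finset.sum_eq_single (s.symm v)]
        · by_cases h : O v
          · have h' : O (s.symm v) := by
              have := (hOs (s.symm v)).1
              rw [Equiv.apply_symm_apply] at this
              exact this h
            rw [if_pos ⟨h', Equiv.apply_symm_apply s v⟩, if_pos h]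
          · have h' : ¬ O (s.symm v) := by
              intro h''
              have := (hOs (s.symm v)).2 h''
              rw [Equiv.apply_symm_apply] at this
              exact h this
            rw [if_neg (fun h'' => h' h''.1), if_neg h]
        · intro b _ hb
          rw [if_neg]
          rintro ⟨_, h2⟩
          apply hb
          rw [← h2, Equiv.symm_apply_apply]
        · intro h; exact absurd (Finset.mem_univ _) h
    intro v
    by_cases h : O v
    · have e : Finset.univ.filter (fun w => (rem s r).SameCycle v w) = {v} := by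
        ext w
        rw [Finset.mem_filter, Finset.mem_singleton, rem_same_in s r v w h]
        constructor
        · rintro ⟨_, h1⟩; exact h1.symm
        · rintro rfl; exact ⟨Finset.mem_univ _, rfl⟩
      rw [e, Finset.sum_singleton, hss, if_pos h, if_pos h]
      have h' : O (s.symm v) := by
        have := (hOs (s.symm v)).1
        rw [Equiv.apply_symm_apply] at this
        exact this h
      have h2 := hpsi1 _ h'
      rw [Equiv.apply_symm_apply] at h2
      rw [h2]
      generalize ss f v = a
      generalize psi (s.symm v) = b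
      revert a b; decide
    · have e : Finset.univ.filter (fun w => (rem s r).SameCycle v w) =
          Finset.univ.filter (fun w => s.SameCycle v w) := by
        ext w
        rw [Finset.mem_filter, Finset.mem_filter, rem_same_out s r v w h]
      rw [e, ← hG.sum v]
      apply Finset.sum_congr rfl
      intro w hw
      rw [Finset.mem_filter] at hw
      have hw' : ¬ O w := fun h1 => h (h1.trans hw.2.symm)
      rw [hss, if_neg hw', if_neg hw']
      simp
  · apply Finset.card_lt_card
    rw [Finset.ssubset_iff_of_subset]
    · refine ⟨r, ?_, ?_⟩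
      · rw [Finset.mem_filter]; exact ⟨Finset.mem_univ _, hr⟩
      · rw [Finset.mem_filter]
        rintro ⟨_, h⟩
        exact h (rem_in s r r (Perm.SameCycle.refl _ _))
    · intro v hv
      rw [Finset.mem_filter] at hv ⊢
      refine ⟨Finset.mem_univ _, ?_⟩
      intro h
      apply hv.2
      by_cases h1 : O v
      · exact rem_in s r v h1
      · rw [rem_out s r v h1]; exact h

end step

end Pool.Agent.H90.Ocdc
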