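import Pool.Agent.H90.Ocdc.Flow

set_option autoImplicit false
set_option linter.unusedSectionVars false
open scoped Classical

namespace Pool.Agent.H90.Ocdc

open Equiv (Perm)

section wf
variable {V : Type} [Fintype V] {G : SimpleGraph V} {I : Type} (c : I → Σ v : V, G.Walk v v)

/-- `w` follows `u` on one of the circuits -/
def Rn (u w : V) : Prop := ∃ i j, j < (c i).2.length ∧ (c i).2.getVert j = u ∧ (c i).2.getVert (j + 1) = w

theorem mem_supp (i : I) (v : V) (hv : v ∈ (c i).2.support) (hL : 0 < (c i).2.length) :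
    ∃ j, j < (c i).2.length ∧ (c i).2.getVert j = v := by
  rw [SimpleGraph.Walk.mem_support_iff_exists_getVert] at hv
  obtain ⟨n, hn, hle⟩ := hv
  rcases Nat.lt_or_ge n (c i).2.length with h | h
  · exact ⟨n, h, hn⟩
  · refine ⟨0, hL, ?_⟩
    have : n = (c i).2.length := by omega
    rw [this, SimpleGraph.Walk.getVert_length] at hn
    rw [SimpleGraph.Walk.getVert_zero]; exact hn

theorem mem_supp' (i : I) (v : V) (hv : v ∈ (c i).2.support) (hL : 0 < (c i).2.length) :
    ∃ j, j < (c i).2.length ∧ (c i).2.getVert (j + 1) = v := by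
  obtain ⟨j, hj, h⟩ := mem_supp c i v hv hL
  rcases Nat.eq_zero_or_pos j with rfl | h0
  · refine ⟨(c i).2.length - 1, by omega, ?_⟩
    rw [show (c i).2.length - 1 + 1 = (c i).2.length by omega, SimpleGraph.Walk.getVert_length]
    rw [SimpleGraph.Walk.getVert_zero] at h; exact h
  · exact ⟨j - 1, by omega, by rw [show j - 1 + 1 = j by omega]; exact h⟩

variable (hcyc : ∀ i, (c i).2.IsCycle)
  (hdisj : ∀ i j v, v ∈ (c i).2.support → v ∈ (c j).2.support → i = j)

include hcyc

theorem inj1 (i : I) (j k : ℕ) (hj : j < (c i).2.length) (hk : k < (c i).2.length)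
    (h : (c i).2.getVert j = (c i).2.getVert k) : j = k := by
  apply (hcyc i).getVert_injOn' _ _ h
  · show j ≤ (c i).2.length - 1; omega
  · show k ≤ (c i).2.length - 1; omega

theorem inj2 (i : I) (j k : ℕ) (hj : j < (c i).2.length) (hk : k < (c i).2.length)
    (h : (c i).2.getVert (j + 1) = (c i).2.getVert (k + 1)) : j = k := by
  have := (hcyc i).getVert_injOn (x₁ := j + 1) (x₂ := k + 1) ⟨by omega, by omega⟩ ⟨by omega, by omega⟩ h
  omega

include hdisj

theorem Rn_fun (u w w' : V) (h : Rn c u w) (h' : Rn c u w') : w = w' := by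
  obtain ⟨i, j, hj, h1, h2⟩ := h
  obtain ⟨i', j', hj', h1', h2'⟩ := h'
  have hi : i = i' := hdisj i i' u (h1 ▸ SimpleGraph.Walk.getVert_mem_support _ _)
    (h1' ▸ SimpleGraph.Walk.getVert_mem_support _ _)
  subst hi
  have : j = j' := inj1 c hcyc i j j' hj hj' (by rw [h1, h1'])
  subst this
  rw [← h2, ← h2']

theorem Rn_inj (u u' w : V) (h : Rn c u w) (h' : Rn c u' w) : u = u' := by
  obtain ⟨i, j, hj, h1, h2⟩ := h
  obtain ⟨i', j', hj', h1', h2'⟩ := h'
  have hi : i = i' := hdisj i i' w (h2 ▸ SimpleGraph.Walk.getVert_mem_support _ _)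
    (h2' ▸ SimpleGraph.Walk.getVert_mem_support _ _)
  subst hi
  have : j = j' := inj2 c hcyc i j j' hj hj' (by rw [h2, h2'])
  subst this
  rw [← h1, ← h1']

omit hcyc hdisj in
/-- the successor function -/
noncomputable def sf (v : V) : V := if h : ∃ w, Rn c v w then h.choose else v

omit hcyc hdisj in
theorem sf_R (v : V) (h : ∃ w, Rn c v w) : Rn c v (sf c v) := by
  unfold sf; rw [dif_pos h]; exact h.choose_spec

omit hdisj in
theorem dom_of_ran (u v : V) (h : Rn c u v) : ∃ w, Rn c v w := by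
  obtain ⟨i, j, hj, h1, h2⟩ := h
  obtain ⟨k, hk, h3⟩ := mem_supp c i v (h2 ▸ SimpleGraph.Walk.getVert_mem_support _ _) (by omega)
  exact ⟨_, i, k, hk, h3, rfl⟩

theorem sf_inj : Function.Injective (sf c) := by
  intro u v huv
  by_cases hu : ∃ w, Rn c u w
  · by_cases hv : ∃ w, Rn c v w
    · have h1 := sf_R c u hu
      have h2 := sf_R c v hv
      rw [huv] at h1
      exact Rn_inj c hcyc hdisj _ _ _ h1 h2
    · exfalso
      apply hv
      have h1 := sf_R c u hu
      have h2 : sf c v = v := by unfold sf; rw [dif_neg hv]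
      rw [huv, h2] at h1
      exact dom_of_ran c hcyc _ _ h1
  · by_cases hv : ∃ w, Rn c v w
    · exfalso
      apply hu
      have h1 := sf_R c v hv
      have h2 : sf c u = u := by unfold sf; rw [dif_neg hu]
      rw [← huv, h2] at h1
      exact dom_of_ran c hcyc _ _ h1
    · have h2 : sf c v = v := by unfold sf; rw [dif_neg hv]
      have h3 : sf c u = u := by unfold sf; rw [dif_neg hu]
      rw [h2, h3] at huv; exact huv

/-- the successor permutation -/
noncomputable def sp : Perm V := Equiv.ofBijective (sf c) (Finite.injective_iff_bijective.1 (sf_inj c hcyc hdisj))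

theorem sp_apply (v : V) : sp c hcyc hdisj v = sf c v := rfl

theorem sp_eq (u w : V) (h : Rn c u w) : sp c hcyc hdisj u = w := by
  rw [sp_apply]
  exact Rn_fun c hcyc hdisj _ _ _ (sf_R c u ⟨w, h⟩) h

theorem sp_of_ne (u : V) (h : sp c hcyc hdisj u ≠ u) : Rn c u (sp c hcyc hdisj u) := by
  rw [sp_apply] at *
  by_cases hu : ∃ w, Rn c u w
  · exact sf_R c u hu
  · exfalso; apply h; unfold sf; rw [dif_neg hu]

theorem sp_fix (v : V) (h : ∀ i, v ∉ (c i).2.support) : sp c hcyc hdisj v = v := by
  rw [sp_apply]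
  unfold sf
  rw [dif_neg]
  rintro ⟨w, i, j, _, h1, _⟩
  exact h i (h1 ▸ SimpleGraph.Walk.getVert_mem_support _ _)

omit hdisj in
theorem supp_R (i : I) (v : V) (hv : v ∈ (c i).2.support) :
    ∃ w, w ∈ (c i).2.support ∧ Rn c v w := by
  have h3 := (hcyc i).three_le_length
  obtain ⟨j, hj, h⟩ := mem_supp c i v hv (by omega)
  exact ⟨_, SimpleGraph.Walk.getVert_mem_support _ (j + 1), i, j, hj, h, rfl⟩

theorem sp_supp (i : I) (v : V) (hv : v ∈ (c i).2.support) : sp c hcyc hdisj v ∈ (c i).2.support := by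
  obtain ⟨w, hw, hR⟩ := supp_R c hcyc i v hv
  rw [sp_eq c hcyc hdisj v w hR]; exact hw

theorem it_supp (i : I) (v : V) (hv : v ∈ (c i).2.support) (n : ℕ) :
    it (sp c hcyc hdisj) v n ∈ (c i).2.support := by
  induction n with
  | zero => exact hv
  | succ n ih => rw [it_succ]; exact sp_supp c hcyc hdisj i _ ih

theorem it_getVert (i : I) (n : ℕ) (hn : n ≤ (c i).2.length) :
    it (sp c hcyc hdisj) ((c i).2.getVert 0) n = (c i).2.getVert n := by
  induction n with
  | zero => rfl
  | succ n ih =>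
    rw [it_succ, ih (by omega)]
    exact sp_eq c hcyc hdisj _ _ ⟨i, n, by omega, rfl, rfl⟩

theorem same_iff (i : I) (v w : V) (hv : v ∈ (c i).2.support) :
    (sp c hcyc hdisj).SameCycle v w ↔ w ∈ (c i).2.support := by
  constructor
  · intro h
    obtain ⟨n, _, h⟩ := exists_it _ v w h
    rw [← h]; exact it_supp c hcyc hdisj i v hv n
  · intro hw
    have h3 := (hcyc i).three_le_length
    obtain ⟨j, hj, h1⟩ := mem_supp c i v hv (by omega)
    obtain ⟨k, hk, h2⟩ := mem_supp c i w hw (by omega)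
    have e1 := same_it (sp c hcyc hdisj) ((c i).2.getVert 0) j
    have e2 := same_it (sp c hcyc hdisj) ((c i).2.getVert 0) k
    rw [it_getVert c hcyc hdisj i j (by omega), h1] at e1
    rw [it_getVert c hcyc hdisj i k (by omega), h2] at e2
    exact e1.symm.trans e2

theorem filter_supp (i : I) (v : V) (hv : v ∈ (c i).2.support) :
    Finset.univ.filter (fun w => (sp c hcyc hdisj).SameCycle v w) =
      Finset.univ.filter (fun w => w ∈ (c i).2.support) := by
  ext w
  rw [Finset.mem_filter, Finset.mem_filter, same_iff c hcyc hdisj i v w hv]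

theorem per_le_len (i : I) (v : V) (hv : v ∈ (c i).2.support) :
    per (sp c hcyc hdisj) v ≤ (c i).2.length := by
  have h1 := sum_orbit (sp c hcyc hdisj) v (fun _ => 1)
  rw [filter_supp c hcyc hdisj i v hv, Finset.sum_const, Finset.sum_const, Finset.card_range,
    smul_eq_mul, smul_eq_mul, mul_one, mul_one] at h1
  rw [← h1]
  have h3 := (hcyc i).three_le_length
  calc (Finset.univ.filter (fun w => w ∈ (c i).2.support)).card
      ≤ ((Finset.range (c i).2.length).image (fun j => (c i).2.getVert j)).card := by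
        apply Finset.card_le_card
        intro w hw
        rw [Finset.mem_filter] at hw
        obtain ⟨j, hj, h⟩ := mem_supp c i w hw.2 (by omega)
        rw [Finset.mem_image]
        exact ⟨j, Finset.mem_range.2 hj, h⟩
    _ ≤ (Finset.range (c i).2.length).card := Finset.card_image_le
    _ = (c i).2.length := Finset.card_range _

theorem edge_iff (u v : V) (huv : G.Adj u v) :
    (∃ i, s(u, v) ∈ (c i).2.edges) ↔ sp c hcyc hdisj u = v ∨ sp c hcyc hdisj v = u := by
  constructor
  · rintro ⟨i, hi⟩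
    rw [SimpleGraph.Walk.mk_mem_edges_iff_exists] at hi
    obtain ⟨j, hj, h⟩ := hi
    rw [Sym2.eq_iff] at h
    rcases h with ⟨h1, h2⟩ | ⟨h1, h2⟩
    · left; exact sp_eq c hcyc hdisj _ _ ⟨i, j, hj, h1, h2⟩
    · right; exact sp_eq c hcyc hdisj _ _ ⟨i, j, hj, h1, h2⟩
  · rintro (h | h)
    · obtain ⟨i, j, hj, h1, h2⟩ := sp_of_ne c hcyc hdisj u (by rw [h]; exact huv.ne')
      refine ⟨i, ?_⟩
      rw [SimpleGraph.Walk.mk_mem_edges_iff_exists]
      exact ⟨j, hj, by rw [h1, h2, h]⟩
    · obtain ⟨i, j, hj, h1, h2⟩ := sp_of_ne c hcyc hdisj v (by rw [h]; exact huv.ne)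
      refine ⟨i, ?_⟩
      rw [SimpleGraph.Walk.mk_mem_edges_iff_exists]
      exact ⟨j, hj, by rw [h1, h2, h]; exact Sym2.eq_swap⟩

theorem good_of_walks (hlen : ∀ i, (c i).2.length ≤ 6)
    (φ : Sym2 V → ZMod 2 × ZMod 2)
    (hφ : ∀ u v, G.Adj u v → (φ s(u, v) = 0 ↔ ∃ i, s(u, v) ∈ (c i).2.edges))
    (hoff : ∀ v, (∀ i, v ∉ (c i).2.support) →
      ∑ u ∈ Finset.univ.filter (fun u => G.Adj v u), φ s(v, u) = 0)
    (hon : ∀ i, ∑ v ∈ Finset.univ.filter (fun v => v ∈ (c i).2.support),
      ∑ u ∈ Finset.univ.filter (fun u => G.Adj v u), φ s(v, u) = 0) :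
    Good G (sp c hcyc hdisj) (fun u v => if G.Adj u v then φ s(u, v) else 0) := by
  have hss : ∀ v, ss (fun u v => if G.Adj u v then φ s(u, v) else 0) v =
      ∑ u ∈ Finset.univ.filter (fun u => G.Adj v u), φ s(v, u) := by
    intro v
    unfold ss
    rw [Finset.sum_filter]
  refine ⟨?_, ?_, ?_, ?_, ?_, ?_, ?_⟩
  · intro v hv
    obtain ⟨i, j, hj, h1, h2⟩ := sp_of_ne c hcyc hdisj v hv
    rw [← h2, ← h1]
    exact SimpleGraph.Walk.adj_getVert_succ _ hj
  · intro v hv
    obtain ⟨i, j, hj, h1, h2⟩ := sp_of_ne c hcyc hdisj v hv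
    intro h
    have h3 := (hcyc i).three_le_length
    set u := sp c hcyc hdisj v with hu
    rcases Nat.lt_or_ge (j + 1) (c i).2.length with h4 | h4
    · have h5 : Rn c u ((c i).2.getVert (j + 2)) := ⟨i, j + 1, h4, h2, rfl⟩
      have h6 := sp_eq c hcyc hdisj _ _ h5
      rw [h] at h6
      -- getVert (j+2) = getVert j
      rcases Nat.lt_or_ge (j + 2) (c i).2.length with h7 | h7
      · have := inj1 c hcyc i (j + 2) j h7 hj (by rw [← h6, h1])
        omega
      · have h8 : j + 2 = (c i).2.length := by omega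
        rw [h8, SimpleGraph.Walk.getVert_length] at h6
        have := inj1 c hcyc i 0 j (by omega) hj (by rw [SimpleGraph.Walk.getVert_zero]; exact h6.symm.trans h1.symm)
        omega
    · have h8 : j + 1 = (c i).2.length := by omega
      rw [h8, SimpleGraph.Walk.getVert_length] at h2
      have h5 : Rn c u ((c i).2.getVert 1) := ⟨i, 0, by omega, by rw [SimpleGraph.Walk.getVert_zero]; exact h2, rfl⟩
      have h6 := sp_eq c hcyc hdisj _ _ h5
      rw [h] at h6
      have := inj1 c hcyc i 1 j (by omega) hj (by rw [← h6, h1])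
      omega
  · intro v
    by_cases h : ∃ i, v ∈ (c i).2.support
    · obtain ⟨i, hi⟩ := h
      exact le_trans (per_le_len c hcyc hdisj i v hi) (hlen i)
    · push Not at h
      rw [per_fixed _ _ (sp_fix c hcyc hdisj v h)]; norm_num
  · intro u v
    by_cases h : G.Adj u v
    · rw [if_pos h, if_pos h.symm, Sym2.eq_swap]
    · rw [if_neg h, if_neg (fun h' => h h'.symm)]
  · intro u v h
    rw [if_neg h]
  · intro u v h
    rw [if_pos h, hφ u v h, edge_iff c hcyc hdisj u v h]
  · intro v
    by_cases h : ∃ i, v ∈ (c i).2.support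
    · obtain ⟨i, hi⟩ := h
      rw [filter_supp c hcyc hdisj i v hi]
      refine Eq.trans ?_ (hon i)
      apply Finset.sum_congr rfl
      intro w _
      exact hss w
    · push Not at h
      have e : Finset.univ.filter (fun w => (sp c hcyc hdisj).SameCycle v w) = {v} := by
        ext w
        rw [Finset.mem_filter, Finset.mem_singleton]
        constructor
        · rintro ⟨_, h8⟩; exact (h8.eq_of_left (sp_fix c hcyc hdisj v h)).symm
        · rintro rfl; exact ⟨Finset.mem_univ _, Perm.SameCycle.refl _ _⟩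
      rw [e, Finset.sum_singleton, hss]
      exact hoff v h

end wf

end Pool.Agent.H90.Ocdc
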